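import Pool.Agent.MP_e5f80e_lc.Inst

/-!
The morphism generating the coded words `C k M`, on an abstract alphabet.
-/

set_option autoImplicit false

namespace Pool.Agent.AbPow

/-- letters: the start letter, the separator, and two copies of the symbols -/
inductive BL (S : Type)
  | c | dol
  | sy (s : Bool) (x : S)

namespace PSys

variable {S : Type} {m : ℕ} (P : PSys S m) (k : ℕ)

/-- the coded start block -/
def G0 (k : ℕ) : List (BL S) :=
  [BL.sy true P.p0] ++ (List.replicate (k - 1) (BL.sy false P.p0) ++ [BL.sy false P.zp])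

/-- block morphism -/
def HB : BL S → List (BL S)
  | .c => .c :: (P.G0 k ++ [.dol])
  | .dol => [.dol]
  | .sy s x => (P.H x).map (.sy s)

/-- coding of the block alphabet -/
def tB : BL S → ℕ
  | .c => 0
  | .dol => 1
  | .sy true x => P.tx x
  | .sy false x => P.tz x

theorem It_sy (n : ℕ) (s : Bool) (w : List S) :
    It (P.HB k) n (w.map (BL.sy s)) = (It P.H n w).map (BL.sy s) :=
  It_map P.H (P.HB k) (BL.sy s) (fun _ => True) (fun _ _ _ _ => trivial)
    (fun _ _ => rfl) n w (fun _ _ => trivial)

theorem It_dol (n : ℕ) : It (P.HB k) n [BL.dol] = [BL.dol] := by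
  induction n with
  | zero => rfl
  | succ n ih => rw [It_single_succ, HB, ih]

theorem It_G0 (n : ℕ) : (It (P.HB k) n (P.G0 k)).map P.tB = P.A k n := by
  rw [G0, It_append, It_append, It_replicate]
  have h1 : ∀ s x, It (P.HB k) n [BL.sy s x] = (It P.H n [x]).map (BL.sy s) := by
    intro s x
    rw [← P.It_sy k n s [x]]; rfl
  rw [h1, h1, h1, A, List.map_append, List.map_append, List.map_flatten, List.map_replicate]
  simp only [List.map_map]
  rfl

theorem It_c (M : ℕ) : (It (P.HB k) M [BL.c]).map P.tB = P.C k M := by
  induction M with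
  | zero => rfl
  | succ M ih =>
    rw [It_single_succ, HB, It_cons, It_append, It_dol, List.map_append, List.map_append, ih,
      It_G0, C]
    rfl

end PSys

/-- windows and Parikh counts -/
theorem window_count (f : ℕ → ℕ) (a l b : ℕ) :
    ((Finset.range l).filter (fun t => f (a + t) = b)).card =
      List.count b ((List.range l).map (fun t => f (a + t))) := by
  induction l with
  | zero => simp
  | succ l ih =>
    rw [Finset.range_add_one, Finset.filter_insert, List.range_succ, List.map_append,
      List.count_append, ← ih]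
    split_ifs with h
    · rw [Finset.card_insert_of_notMem (by simp)]
      simp [h]
    · simp [h]

namespace PSys

variable {S : Type} {m : ℕ} (P : PSys S m) (k : ℕ)

/-- the infinite word -/
def om (j : ℕ) : ℕ := (P.C k (j + 1)).getD j 0

theorem om_eq (N j : ℕ) (h : j < (P.C k N).length) : (P.C k N)[j]? = some (P.om k j) := by
  have h1 : j < (P.C k (j + 1)).length := by
    have := P.C_length_gt k (j + 1); omega
  have key : ∀ A B : List ℕ, A <+: B → j < A.length → j < B.length → A[j]? = B[j]? := by
    rintro A B ⟨t, rfl⟩ hA hB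
    rw [List.getElem?_append_left hA]
  have e : (P.C k N)[j]? = (P.C k (j + 1))[j]? := by
    rcases Nat.le_total N (j + 1) with h2 | h2
    · exact key _ _ (P.C_mono k h2) h h1
    · exact (key _ _ (P.C_mono k h2) h1 h).symm
  rw [e, om, List.getD_eq_getElem?_getD, List.getElem?_eq_getElem h1]
  rfl

theorem win_om (N a l : ℕ) (h : a + l ≤ (P.C k N).length) :
    win (P.C k N) a l = (List.range l).map (fun t => P.om k (a + t)) := by
  apply List.ext_getElem?
  intro t
  rw [win, List.getElem?_take, List.getElem?_map]
  split_ifs with ht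
  · rw [List.getElem?_drop, P.om_eq k N _ (by omega), List.getElem?_range ht]
    rfl
  · rw [List.getElem?_eq_none (by simpa using ht)]
    rfl

/-- abelian powers of the infinite word are abelian powers of its prefixes -/
theorem power_iff (hk : 1 ≤ k) (p : ℕ) :
    (∃ i ℓ : ℕ, p ≤ ℓ ∧ ∀ j < k, ∀ b : ℕ,
      ((Finset.range ℓ).filter (fun t => P.om k (i + j * ℓ + t) = b)).card =
      ((Finset.range ℓ).filter (fun t => P.om k (i + t) = b)).card) ↔
    (∃ N i l, p ≤ l ∧ i + k * l ≤ (P.C k N).length ∧
      ∀ j < k, (win (P.C k N) (i + j * l) l).Perm (win (P.C k N) i l)) := by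
  constructor
  · rintro ⟨i, l, hp, h⟩
    have hlen : i + k * l ≤ (P.C k (i + k * l)).length := (P.C_length_gt k _).le
    refine ⟨i + k * l, i, l, hp, hlen, ?_⟩
    intro j hj
    have h1 : (j + 1) * l ≤ k * l := Nat.mul_le_mul_right _ hj
    have h2 : 1 * l ≤ k * l := Nat.mul_le_mul_right _ hk
    rw [add_mul, one_mul] at h1
    rw [P.win_om k _ _ _ (by omega), P.win_om k _ _ _ (by omega), List.perm_iff_count]
    intro b
    rw [← window_count, ← window_count]
    exact h j hj b
  · rintro ⟨N, i, l, hp, hlen, h⟩
    refine ⟨i, l, hp, ?_⟩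
    intro j hj b
    have h1 : (j + 1) * l ≤ k * l := Nat.mul_le_mul_right _ hj
    have h2 : 1 * l ≤ k * l := Nat.mul_le_mul_right _ hk
    rw [add_mul, one_mul] at h1
    have h3 := h j hj
    rw [P.win_om k _ _ _ (by omega), P.win_om k _ _ _ (by omega), List.perm_iff_count] at h3
    rw [window_count, window_count]
    exact h3 b

end PSys

end Pool.Agent.AbPow
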