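import Pool.Agent.MP_e5f80e_lc.Ring

/-!
Runs of the concrete transition system correspond to successful ring computations.
-/

set_option autoImplicit false

namespace Pool.Agent.AbPow

namespace RingA

variable {Cell : Type} (R : RingA Cell)

theorem one_lt_b : 1 < R.b := lt_of_le_of_lt (R.pos R.blank) (R.lt R.blank)

theorem V_scale (l : List Cell) (n : ℕ) (h : l.length ≤ n) :
    R.V n l = R.b ^ (n - l.length) * R.V l.length l := by
  induction l generalizing n with
  | nil => simp
  | cons c l ih =>
    obtain ⟨n, rfl⟩ : ∃ n', n = n' + 1 := ⟨n - 1, by simp at h; omega⟩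
    have h' : l.length ≤ n := by simpa using h
    rw [List.length_cons, V_cons, V_cons, ih n h', Nat.add_sub_add_right, mul_add, ← mul_assoc,
      mul_comm (R.b ^ (n - l.length)) (R.code c), mul_assoc, ← pow_add, Nat.sub_add_cancel h']

theorem V_ofDigits (l : List Cell) :
    R.V l.length l = Nat.ofDigits R.b (l.map R.code).reverse := by
  induction l with
  | nil => simp
  | cons c l ih =>
    rw [List.length_cons, V_cons, ih, List.map_cons, List.reverse_cons, Nat.ofDigits_append,
      List.length_reverse, List.length_map, Nat.ofDigits_singleton]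
    ring

theorem digits_unique (X Y : List Cell) (hX : X ≠ []) (hY : Y ≠ []) (x y : ℕ)
    (h : R.b ^ x * R.V X.length X = R.b ^ y * R.V Y.length Y) : X = Y := by
  have hb := R.one_lt_b
  have hmod : ∀ Z : List Cell, Z ≠ [] → ¬ R.b ∣ R.V Z.length Z := by
    intro Z hZ hd
    rcases List.eq_nil_or_concat Z with rfl | ⟨Z', c, rfl⟩
    · exact hZ rfl
    · rw [V_ofDigits, List.concat_eq_append, List.map_append, List.reverse_append, List.map_singleton,
        List.reverse_singleton, List.singleton_append, Nat.ofDigits_cons] at hd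
      have h1 : R.b ∣ R.code c := by
        have := (Nat.dvd_add_left (Dvd.intro _ rfl)).1 hd
        exact this
      have h2 := Nat.le_of_dvd (R.pos c) h1
      have := R.lt c
      omega
  have key : ∀ (X Y : List Cell) (x y : ℕ), X ≠ [] → x < y →
      R.b ^ x * R.V X.length X ≠ R.b ^ y * R.V Y.length Y := by
    intro X Y x y hX hxy h
    obtain ⟨d, rfl⟩ : ∃ d, y = x + (d + 1) := ⟨y - x - 1, by omega⟩
    rw [pow_add, mul_assoc] at h
    have h1 := Nat.eq_of_mul_eq_mul_left (pow_pos (by omega) x) h
    apply hmod X hX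
    rw [h1, pow_succ, mul_assoc]
    exact (Dvd.intro _ rfl : R.b ∣ R.b * R.V Y.length Y).mul_left _
  have hxy : x = y := by
    rcases lt_trichotomy x y with h1 | h1 | h1
    · exact absurd h (key X Y x y hX h1)
    · exact h1
    · exact absurd h.symm (key Y X y x hY h1)
  subst hxy
  have h1 := Nat.eq_of_mul_eq_mul_left (pow_pos (by omega) x) h
  rw [V_ofDigits, V_ofDigits] at h1
  have hdig : ∀ Z : List Cell, Nat.digits R.b (Nat.ofDigits R.b (Z.map R.code).reverse) =
      (Z.map R.code).reverse := by
    intro Z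
    apply Nat.digits_ofDigits R.b hb
    · intro l hl
      simp only [List.mem_reverse, List.mem_map] at hl
      obtain ⟨c, _, rfl⟩ := hl
      exact R.lt c
    · intro hne
      have := List.getLast_mem hne
      simp only [List.mem_reverse, List.mem_map] at this
      obtain ⟨c, _, hc⟩ := this
      have := R.pos c
      omega
  have h2 := hdig X
  rw [h1, hdig Y] at h2
  have h3 := List.reverse_injective h2
  exact (List.map_injective_iff.2 R.inj h3).symm

theorem choose_add_two (a c : ℕ) :
    (a + c).choose 2 = a.choose 2 + c.choose 2 + a * c := by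
  induction c with
  | zero => simp
  | succ c ih =>
    rw [← add_assoc, Nat.choose_succ_succ' (a + c) 1, Nat.choose_succ_succ' c 1, ih,
      Nat.choose_one_right, Nat.choose_one_right]
    ring

variable {R}

theorem RunOK.length_lt {a c : Cell} {xs ys : List Cell} (h : R.RunOK a c xs ys) :
    ys.length < xs.length := by
  induction h with
  | stop => simp
  | step a c s xs ys h ih => simp; omega

variable {m : ℕ} {hm : R.bound + 7 ≤ m} {c0 : Cell} {rest : List Cell}

/-- A run of the transition system yields a successful ring computation. -/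
theorem ring_forward (n : ℕ)
    (h : (R.mach m hm c0 rest).reach n .p0 (Pi.single 0 (-1))) :
    ∃ w s xs ys, IsRow R c0 rest w ∧ s :: xs = w ++ R.mark :: ys ∧ R.RunOK R.mark s xs ys := by
  obtain ⟨u1, u3, u2, n0, w, hrow, K, s, xs, ys, h1, h2, h3⟩ := reach_p0 n _ h (by simp)
  have e1 := congrFun h3 1
  have e2 := congrFun h3 2
  have e3 := congrFun h3 3
  have e4 := congrFun h3 4
  rw [vec_one] at e1
  rw [vec_two] at e2
  rw [vec_three] at e3
  rw [vec_four] at e4
  simp [Pi.single_apply] at e1 e2 e3 e4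
  have f1 : u1 = u2 + u3 := by omega
  have f2 : u2 = R.b ^ K := by exact_mod_cast e2
  have f3 : u3 = R.V (n0 - w.length) (s :: xs) := by exact_mod_cast e3
  have f4 : u2 * u3 = R.V n0 (w ++ R.mark :: ys) := by
    have := choose_add_two u2 u3
    rw [← f1] at this
    rw [this] at e4
    have e5 : ((u2 * u3 : ℕ) : ℤ) = (R.V n0 (w ++ R.mark :: ys) : ℕ) := by
      rw [← e4]; push_cast; ring
    exact_mod_cast e5
  have hlt := h2.length_lt
  have hl1 : (w ++ R.mark :: ys).length ≤ n0 := by simp; omega
  have hl2 : (s :: xs).length ≤ n0 - w.length := by simp; omega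
  rw [f2, f3, V_scale R _ _ hl1, V_scale R _ _ hl2, ← mul_assoc, ← pow_add] at f4
  refine ⟨w, s, xs, ys, hrow, ?_, h2⟩
  exact digits_unique R _ _ (by simp) (by simp) _ _ f4

/-- the description vector in the backward direction -/
def X (R : RingA Cell) (K : ℕ) (s : Cell) (xs ys : List Cell) (n : ℕ) (w : List Cell) :
    Fin 5 → ℤ := R.vec K (R.V (n - w.length) (s :: xs)) (R.V n (w ++ R.mark :: ys))

theorem X_step (K : ℕ) (s : Cell) (xs ys : List Cell) (n : ℕ) (a : Cell) (w : List Cell) :
    X R K s xs ys (n + 1) (a :: w) + gval R.b n (R.dig 4 a) = X R K s xs ys n w := by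
  rw [X, X, List.length_cons, Nat.add_sub_add_right]
  exact (R.vec_dig4 _ _ _ _ _ _).2 rfl

theorem back_chain_nil (K : ℕ) (s : Cell) (xs ys : List Cell) (hr : R.RunOK R.mark s xs ys)
    (n j : ℕ) (hn : K + j + xs.length + 2 < n) :
    (R.mach m hm c0 rest).reach n (.chain [])
      (X R K s xs ys n (List.replicate j R.blank)) := by
  induction j generalizing n with
  | zero =>
    obtain ⟨n, rfl⟩ : ∃ n', n = n' + 1 := ⟨n - 1, by omega⟩
    right
    refine ⟨(.run R.mark s, R.dig 3 s ++ R.dig 4 R.mark), ?_, ?_⟩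
    · simp only [mach, T, List.mem_cons, List.mem_map]
      right
      exact ⟨s, R.complete s, rfl⟩
    · have e : X R K s xs ys (n + 1) (List.replicate 0 R.blank) +
          gval R.b n (R.dig 3 s ++ R.dig 4 R.mark) = R.vec K (R.V n xs) (R.V n ys) := by
        rw [X]
        exact (R.vec_dig34 _ _ _ _ _ _ _).2 rfl
      change (R.mach m hm c0 rest).reach n (.run R.mark s)
        (X R K s xs ys (n + 1) (List.replicate 0 R.blank) +
          gval R.b n (R.dig 3 s ++ R.dig 4 R.mark))
      rw [e]
      exact back_run n K _ _ _ _ hr (by omega)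
  | succ j ih =>
    obtain ⟨n, rfl⟩ : ∃ n', n = n' + 1 := ⟨n - 1, by omega⟩
    right
    refine ⟨(.chain [], R.dig 4 R.blank), by simp [mach, T], ?_⟩
    change (R.mach m hm c0 rest).reach n (.chain [])
      (X R K s xs ys (n + 1) (List.replicate (j + 1) R.blank) + gval R.b n (R.dig 4 R.blank))
    rw [List.replicate_succ, X_step]
    exact ih n (by omega)

theorem back_chain (K : ℕ) (s : Cell) (xs ys : List Cell) (hr : R.RunOK R.mark s xs ys)
    (n j : ℕ) (l : List Cell) (hn : K + (l.length + j) + xs.length + 2 < n) :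
    (R.mach m hm c0 rest).reach n (.chain l)
      (X R K s xs ys n (l ++ List.replicate j R.blank)) := by
  induction l generalizing n with
  | nil => exact back_chain_nil K s xs ys hr n j (by simpa using hn)
  | cons a l ih =>
    obtain ⟨n, rfl⟩ : ∃ n', n = n' + 1 := ⟨n - 1, by omega⟩
    right
    refine ⟨(.chain l, R.dig 4 a), by simp [mach, T], ?_⟩
    change (R.mach m hm c0 rest).reach n (.chain l)
      (X R K s xs ys (n + 1) (a :: l ++ List.replicate j R.blank) + gval R.b n (R.dig 4 a))
    rw [List.cons_append, X_step]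
    exact ih n (by simp at hn; omega)

theorem back_initL (K : ℕ) (s : Cell) (xs ys : List Cell) (hr : R.RunOK R.mark s xs ys)
    (n i j : ℕ) (hn : K + (i + (1 + rest.length + j)) + xs.length + 2 < n) :
    (R.mach m hm c0 rest).reach n .initL
      (X R K s xs ys n (List.replicate i R.blank ++ (c0 :: rest ++ List.replicate j R.blank))) := by
  induction i generalizing n with
  | zero =>
    obtain ⟨n, rfl⟩ : ∃ n', n = n' + 1 := ⟨n - 1, by omega⟩
    right
    refine ⟨(.chain rest, R.dig 4 c0), by simp [mach, T], ?_⟩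
    change (R.mach m hm c0 rest).reach n (.chain rest)
      (X R K s xs ys (n + 1) (c0 :: (rest ++ List.replicate j R.blank)) +
        gval R.b n (R.dig 4 c0))
    rw [X_step]
    exact back_chain K s xs ys hr n j rest (by omega)
  | succ i ih =>
    obtain ⟨n, rfl⟩ : ∃ n', n = n' + 1 := ⟨n - 1, by omega⟩
    right
    refine ⟨(.initL, R.dig 4 R.blank), by simp [mach, T], ?_⟩
    change (R.mach m hm c0 rest).reach n .initL
      (X R K s xs ys (n + 1) (List.replicate (i + 1) R.blank ++
        (c0 :: rest ++ List.replicate j R.blank)) + gval R.b n (R.dig 4 R.blank))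
    rw [List.replicate_succ, List.cons_append, X_step]
    exact ih n (by omega)

theorem back_p3 (n n0 : ℕ) (O : Fin 5 → ℤ) (hn : n0 < n)
    (h : (R.mach m hm c0 rest).reach n0 .initL O) : (R.mach m hm c0 rest).reach n .p3 O := by
  induction n with
  | zero => omega
  | succ n ih =>
    right
    by_cases h1 : n0 = n
    · subst h1
      exact ⟨(.initL, []), by simp [mach, T], by rw [gval_nil, add_zero]; exact h⟩
    · exact ⟨(.p3, []), by simp [mach, T], by rw [gval_nil, add_zero]; exact ih (by omega)⟩

theorem back_p2 (n u : ℕ) (O : Fin 5 → ℤ) (hn : u < n)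
    (h : (R.mach m hm c0 rest).reach u .p3 (O + (Pi.single 1 (-(u : ℤ)) + Pi.single 2 (u : ℤ) +
        Pi.single 4 (-((u.choose 2 : ℕ) : ℤ))))) : (R.mach m hm c0 rest).reach n .p2 O := by
  induction n with
  | zero => omega
  | succ n ih =>
    right
    by_cases h1 : u = n
    · subst h1
      refine ⟨(.p3, [⟨.lin, 1, false⟩, ⟨.lin, 2, true⟩, ⟨.quad, 4, false⟩]),
        by simp [mach, T], ?_⟩
      have e : gval R.b u [⟨Kind.lin, 1, false⟩, ⟨Kind.lin, 2, true⟩, ⟨Kind.quad, 4, false⟩] =
            Pi.single 1 (-(u : ℤ)) + Pi.single 2 (u : ℤ) +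
              Pi.single 4 (-((u.choose 2 : ℕ) : ℤ)) := by
        simp [gval, Gen.val, Kind.val, sgnZ, add_assoc]
      change (R.mach m hm c0 rest).reach u .p3 (O + gval R.b u [⟨Kind.lin, 1, false⟩,
        ⟨Kind.lin, 2, true⟩, ⟨Kind.quad, 4, false⟩])
      rw [e]; exact h
    · exact ⟨(.p2, []), by simp [mach, T], by rw [gval_nil, add_zero]; exact ih (by omega)⟩

theorem back_p1 (n u : ℕ) (O : Fin 5 → ℤ) (hn : u < n)
    (h : (R.mach m hm c0 rest).reach u .p2 (O + (Pi.single 1 (-(u : ℤ)) + Pi.single 3 (u : ℤ) +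
        Pi.single 4 (-((u.choose 2 : ℕ) : ℤ))))) : (R.mach m hm c0 rest).reach n .p1 O := by
  induction n with
  | zero => omega
  | succ n ih =>
    right
    by_cases h1 : u = n
    · subst h1
      refine ⟨(.p2, [⟨.lin, 1, false⟩, ⟨.lin, 3, true⟩, ⟨.quad, 4, false⟩]),
        by simp [mach, T], ?_⟩
      have e : gval R.b u [⟨Kind.lin, 1, false⟩, ⟨Kind.lin, 3, true⟩, ⟨Kind.quad, 4, false⟩] =
            Pi.single 1 (-(u : ℤ)) + Pi.single 3 (u : ℤ) +
              Pi.single 4 (-((u.choose 2 : ℕ) : ℤ)) := by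
        simp [gval, Gen.val, Kind.val, sgnZ, add_assoc]
      change (R.mach m hm c0 rest).reach u .p2 (O + gval R.b u [⟨Kind.lin, 1, false⟩,
        ⟨Kind.lin, 3, true⟩, ⟨Kind.quad, 4, false⟩])
      rw [e]; exact h
    · exact ⟨(.p1, []), by simp [mach, T], by rw [gval_nil, add_zero]; exact ih (by omega)⟩

theorem back_p0 (n u : ℕ) (O : Fin 5 → ℤ) (hn : u < n)
    (h : (R.mach m hm c0 rest).reach u .p1 (O + (Pi.single 1 (u : ℤ) +
        Pi.single 4 ((u.choose 2 : ℕ) : ℤ)))) : (R.mach m hm c0 rest).reach n .p0 O := by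
  induction n with
  | zero => omega
  | succ n ih =>
    right
    by_cases h1 : u = n
    · subst h1
      refine ⟨(.p1, [⟨.lin, 1, true⟩, ⟨.quad, 4, true⟩]), by simp [mach, T], ?_⟩
      have e : gval R.b u [⟨Kind.lin, 1, true⟩, ⟨Kind.quad, 4, true⟩] =
            Pi.single 1 (u : ℤ) + Pi.single 4 ((u.choose 2 : ℕ) : ℤ) := by
        simp [gval, Gen.val, Kind.val, sgnZ]
      change (R.mach m hm c0 rest).reach u .p1 (O + gval R.b u [⟨Kind.lin, 1, true⟩,
        ⟨Kind.quad, 4, true⟩])
      rw [e]; exact h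
    · exact ⟨(.p0, []), by simp [mach, T], by rw [gval_nil, add_zero]; exact ih (by omega)⟩

/-- A successful ring computation with a long row yields a run of the transition system. -/
theorem ring_backward (w : List Cell) (s : Cell) (xs ys : List Cell) (hrow : IsRow R c0 rest w)
    (heq : s :: xs = w ++ R.mark :: ys) (hr : R.RunOK R.mark s xs ys)
    (hbig : 2 * w.length + xs.length + 3 < R.b ^ w.length) :
    ∃ n, R.b ^ w.length < n ∧ (R.mach m hm c0 rest).reach n .p0 (Pi.single 0 (-1)) := by
  have hb := R.one_lt_b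
  set K := w.length with hK
  set n0 := 2 * K + xs.length + 3 with hn0
  set u2 := R.b ^ K with hu2
  set u3 := R.V (n0 - K) (s :: xs) with hu3
  set u1 := u2 + u3 with hu1
  have hu2pos : 0 < u2 := pow_pos (by omega) K
  have hu23 : u2 < u3 := by
    obtain ⟨e, he⟩ : ∃ e, n0 - K = e + 1 := ⟨n0 - K - 1, by omega⟩
    rw [hu3, he, V_cons, hu2]
    have h1 : R.b ^ K < R.b ^ e := Nat.pow_lt_pow_right hb (by omega)
    have h2 : 1 * R.b ^ e ≤ R.code s * R.b ^ e := Nat.mul_le_mul_right _ (R.pos s)
    omega
  refine ⟨u1 + 1, by omega, ?_⟩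
  apply back_p0 (u1 + 1) u1 _ (by omega)
  apply back_p1 u1 u3 _ (by omega)
  apply back_p2 u3 u2 _ hu23
  apply back_p3 u2 n0 _ hbig
  obtain ⟨i, j, hij⟩ := hrow
  have hlen : K = i + (1 + rest.length + j) := by
    rw [hK, hij]; simp; omega
  have hback := back_initL (m := m) (hm := hm) (c0 := c0) (rest := rest) K s xs ys hr n0 i j
    (by omega)
  rw [← hij] at hback
  convert hback using 1
  -- numerical identity
  have hlt := hr.length_lt
  have hl1 : (w ++ R.mark :: ys).length ≤ n0 := by simp; omega
  have hl2 : (s :: xs).length ≤ n0 - K := by simp; omega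
  have hlen2 := congrArg List.length heq
  have hV : R.V n0 (w ++ R.mark :: ys) = u2 * u3 := by
    rw [hu2, hu3, V_scale R _ _ hl1, V_scale R _ _ hl2, ← mul_assoc, ← pow_add, ← heq]
    congr 2
    simp at hlen2 ⊢
    omega
  have hch : u1.choose 2 = u2.choose 2 + u3.choose 2 + u2 * u3 := choose_add_two u2 u3
  rw [X, vec, hV, ← hu2, ← hK, ← hu3]
  funext i
  fin_cases i
  · simp
  · simp [Pi.single_apply]; rw [hu1]; push_cast; ring
  · simp [Pi.single_apply]
  · simp [Pi.single_apply]
  · simp [Pi.single_apply]; rw [hch]; push_cast; ring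

end RingA

end Pool.Agent.AbPow
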