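import Pool.Agent.MP_e5f80e_lc.Block
import Pool.Agent.MP_e5f80e_lc.RingEq

/-!
Numeric encoding of the instances.
-/

set_option autoImplicit false

namespace Pool.Agent.AbPow

open Classical

namespace RingA

variable {Cell : Type} (R : RingA Cell) (m : ℕ) (hm : R.bound + 7 ≤ m) (c0 : Cell)
  (dc : Bool → Cell) (k : ℕ)

/-- all generators -/
def gens : List Gen :=
  [Kind.cst, Kind.lin, Kind.quad, Kind.expo].flatMap (fun kd =>
    (List.finRange 5).flatMap (fun i => [true, false].map (fun s => ⟨kd, i, s⟩)))

theorem gens_complete (x : Gen) : x ∈ gens := by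
  obtain ⟨kd, i, s⟩ := x
  rw [gens, List.mem_flatMap]
  refine ⟨kd, by cases kd <;> simp, ?_⟩
  rw [List.mem_flatMap]
  refine ⟨i, List.mem_finRange i, ?_⟩
  rw [List.mem_map]
  exact ⟨s, by cases s <;> simp, rfl⟩

/-- the states apart from `initL` and the chains -/
def sts : List (St Cell) :=
  [.p0, .p1, .p2, .p3, .p4, .cl, .sink] ++ R.cells.flatMap (fun a => R.cells.map (fun b => .run a b))

/-- the symbols apart from `main initL` and the chains -/
def syms : List (Sym (St Cell)) :=
  [.na, .nb, .g, .p0, .zp] ++ (gens.map .gen ++ (sts R).map .main)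

/-- the letters apart from the start letter, the separator, `initL` and the chains -/
def G : List (BL (Sym (St Cell))) := (syms R).map (.sy true) ++ (syms R).map (.sy false)

/-- number of letters apart from the chains -/
def N0 : ℕ := 4 + (G R).length

/-- bit of a sign -/
def bn (s : Bool) : ℕ := if s then 1 else 0

/-- codes, with placeholder `0` for the chains -/
noncomputable def e0 : BL (Sym (St Cell)) → ℕ
  | .c => 0
  | .dol => 1
  | .sy s (.main .initL) => 2 + bn s
  | .sy _ (.main (.chain _)) => 0
  | x => 4 + (G R).idxOf x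

/-- codes -/
noncomputable def e : BL (Sym (St Cell)) → ℕ
  | .sy s (.main (.chain l)) => N0 R + 2 * l.length + bn s
  | x => e0 R x

/-- replace the placeholder -/
def ins (N : ℕ) (t : List ℕ) : List ℕ := t.map (fun c => if c = 0 then N else c)

/-- replace the chains in a symbol -/
def sb (l : List Cell) : Sym (St Cell) → Sym (St Cell)
  | .main (.chain _) => .main (.chain l)
  | x => x

theorem ins_e0 (s : Bool) (l : List Cell) (z : Sym (St Cell)) :
    (if e0 R (.sy s z) = 0 then N0 R + 2 * l.length + bn s else e0 R (.sy s z)) =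
      e R (.sy s (sb l z)) := by
  rcases z with _ | _ | _ | x | q | _ | _
  · simp [e0, e, sb]
  · simp [e0, e, sb]
  · simp [e0, e, sb]
  · simp [e0, e, sb]
  · rcases q with _ | _ | _ | _ | _ | _ | _ | _ | l | ⟨a, c⟩
    all_goals simp [e0, e, sb]
  · simp [e0, e, sb]
  · simp [e0, e, sb]

theorem ins_map (s : Bool) (l : List Cell) (w : List (Sym (St Cell))) :
    ins (N0 R + 2 * l.length + bn s) ((w.map (BL.sy s)).map (e0 R)) =
      ((w.map (sb l)).map (BL.sy s)).map (e R) := by
  rw [ins]
  simp only [List.map_map]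
  apply List.map_congr_left
  intro z _
  exact ins_e0 R s l z

theorem mem_syms (z : Sym (St Cell)) (h1 : z ≠ .main .initL) (h2 : ∀ l, z ≠ .main (.chain l)) :
    z ∈ syms R := by
  rw [syms, List.mem_append, List.mem_append]
  rcases z with _ | _ | _ | x | q | _ | _
  · simp
  · simp
  · simp
  · right; left; rw [List.mem_map]; exact ⟨x, gens_complete x, rfl⟩
  · right; right; rw [List.mem_map]
    refine ⟨q, ?_, rfl⟩
    rw [sts, List.mem_append]
    rcases q with _ | _ | _ | _ | _ | _ | _ | _ | l | ⟨a, c⟩
    · simp
    · simp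
    · simp
    · simp
    · simp
    · exact absurd rfl h1
    · simp
    · simp
    · exact absurd rfl (h2 l)
    · right
      rw [List.mem_flatMap]
      exact ⟨a, R.complete a, List.mem_map.2 ⟨c, R.complete c, rfl⟩⟩
  · simp
  · simp

theorem mem_G (s : Bool) (z : Sym (St Cell)) (h1 : z ≠ .main .initL)
    (h2 : ∀ l, z ≠ .main (.chain l)) : BL.sy s z ∈ G R := by
  have := mem_syms R z h1 h2
  rw [G, List.mem_append]
  cases s
  · right; exact List.mem_map.2 ⟨z, this, rfl⟩
  · left; exact List.mem_map.2 ⟨z, this, rfl⟩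

theorem e0_G (s : Bool) (z : Sym (St Cell)) (h1 : z ≠ .main .initL)
    (h2 : ∀ l, z ≠ .main (.chain l)) : e0 R (.sy s z) = 4 + (G R).idxOf (.sy s z) := by
  rcases z with _ | _ | _ | x | q | _ | _
  · rfl
  · rfl
  · rfl
  · rfl
  · rcases q with _ | _ | _ | _ | _ | _ | _ | _ | l | ⟨a, c⟩
    · rfl
    · rfl
    · rfl
    · rfl
    · rfl
    · exact absurd rfl h1
    · rfl
    · rfl
    · exact absurd rfl (h2 l)
    · rfl
  · rfl
  · rfl

theorem e_G (s : Bool) (z : Sym (St Cell)) (h1 : z ≠ .main .initL)
    (h2 : ∀ l, z ≠ .main (.chain l)) : e R (.sy s z) = 4 + (G R).idxOf (.sy s z) := by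
  rw [← e0_G R s z h1 h2]
  rcases z with _ | _ | _ | x | q | _ | _
  · rfl
  · rfl
  · rfl
  · rfl
  · rcases q with _ | _ | _ | _ | _ | _ | _ | _ | l | ⟨a, c⟩
    · rfl
    · rfl
    · rfl
    · rfl
    · rfl
    · rfl
    · rfl
    · rfl
    · exact absurd rfl (h2 l)
    · rfl
  · rfl
  · rfl

theorem e0_lt (x : BL (Sym (St Cell))) : e0 R x < N0 R := by
  rcases x with _ | _ | ⟨s, z⟩
  · rw [e0, N0]; omega
  · rw [e0, N0]; omega
  · by_cases h1 : z = .main .initL
    · subst h1
      rw [e0, N0]
      have : bn s ≤ 1 := by cases s <;> simp [bn]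
      omega
    · by_cases h2 : ∃ l, z = .main (.chain l)
      · obtain ⟨l, rfl⟩ := h2
        rw [e0, N0]; omega
      · push Not at h2
        rw [e0_G R s z h1 h2, N0]
        have := List.idxOf_lt_length_iff.2 (mem_G R s z h1 h2)
        omega

/-- the machine for the input `u` -/
def Mu (u : List Bool) : Mach (St Cell) := R.mach m hm c0 (u.map dc)

/-- letter images for the input `u` -/
def hb (u : List Bool) : BL (Sym (St Cell)) → List (BL (Sym (St Cell))) :=
  (R.Mu m hm c0 dc u).toPSys.HB k

/-- image code of a letter, independent of the input -/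
noncomputable def img (x : BL (Sym (St Cell))) : List ℕ := (R.hb m hm c0 dc k [] x).map (e0 R)

/-- templates of the chain letters -/
noncomputable def tC (b s : Bool) : List ℕ :=
  R.img m hm c0 dc k (.sy s (.main (.chain [dc b])))

/-- chain part of the morphism -/
noncomputable def CP : List Bool → List (List ℕ)
  | [] => [ins (N0 R + 2 * 0 + bn false) (R.img m hm c0 dc k (.sy false (.main (.chain [])))),
           ins (N0 R + 2 * 0 + bn true) (R.img m hm c0 dc k (.sy true (.main (.chain []))))]
  | b :: u => CP u ++ [ins (N0 R + 2 * u.length + bn false) (R.tC m hm c0 dc k b false),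
      ins (N0 R + 2 * u.length + bn true) (R.tC m hm c0 dc k b true)]

/-- the morphism -/
noncomputable def hmL (u : List Bool) : List (List ℕ) :=
  [R.img m hm c0 dc k .c, R.img m hm c0 dc k .dol,
   ins (N0 R + 2 * u.length + bn false) (R.img m hm c0 dc k (.sy false (.main .initL))),
   ins (N0 R + 2 * u.length + bn true) (R.img m hm c0 dc k (.sy true (.main .initL)))] ++
  ((G R).map (R.img m hm c0 dc k) ++ R.CP m hm c0 dc k u)

theorem CP_length (u : List Bool) : (R.CP m hm c0 dc k u).length = 2 * u.length + 2 := by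
  induction u with
  | nil => rfl
  | cons b u ih => rw [CP, List.length_append, ih]; simp; omega

theorem hmL_length (u : List Bool) :
    (R.hmL m hm c0 dc k u).length = N0 R + (2 * u.length + 2) := by
  rw [hmL, List.length_append, List.length_append, CP_length, List.length_map, N0]
  simp; omega

/-- template of a chain letter -/
noncomputable def tV (s : Bool) : List Bool → List ℕ
  | [] => R.img m hm c0 dc k (.sy s (.main (.chain [])))
  | b :: _ => R.tC m hm c0 dc k b s

theorem CP_getElem (u v : List Bool) (h : v <:+ u) (s : Bool) :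
    (R.CP m hm c0 dc k u)[2 * v.length + bn s]? = some (ins (N0 R + 2 * (v.length - 1) + bn s)
      (R.tV m hm c0 dc k s v)) := by
  induction u with
  | nil =>
    obtain rfl : v = [] := List.suffix_nil.1 h
    cases s <;> rfl
  | cons b u ih =>
    rw [CP]
    rcases List.suffix_cons_iff.1 h with rfl | h
    · rw [List.getElem?_append_right (by rw [CP_length]; simp; omega), CP_length]
      rw [List.length_cons, show 2 * (u.length + 1) + bn s - (2 * u.length + 2) = bn s by omega]
      cases s <;> rfl
    · have hl := h.length_le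
      rw [List.getElem?_append_left (by rw [CP_length]; cases s <;> simp [bn] <;> omega)]
      exact ih h

/-- the coding -/
noncomputable def tauL (u : List Bool) : List ℕ :=
  [0, 1, tcode false (.main (.initL : St Cell)), tcode true (.main (.initL : St Cell))] ++
  ((G R).map (R.Mu m hm c0 dc []).toPSys.tB ++
    u.foldr (fun _ acc => acc ++ [tcode false (.main (.initL : St Cell)),
      tcode true (.main (.initL : St Cell))]) [tcode false (.main (.initL : St Cell)),
      tcode true (.main (.initL : St Cell))])

theorem tau_fold (x y : ℕ) (u : List Bool) :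
    (u.foldr (fun _ acc => acc ++ [x, y]) [x, y]).length = 2 * u.length + 2 ∧
    ∀ j ≤ u.length, (u.foldr (fun _ acc => acc ++ [x, y]) [x, y])[2 * j]? = some x ∧
      (u.foldr (fun _ acc => acc ++ [x, y]) [x, y])[2 * j + 1]? = some y := by
  induction u with
  | nil =>
    refine ⟨rfl, ?_⟩
    intro j hj
    obtain rfl : j = 0 := by simpa using hj
    exact ⟨rfl, rfl⟩
  | cons b u ih =>
    obtain ⟨h1, h2⟩ := ih
    rw [List.foldr_cons]
    refine ⟨by rw [List.length_append, h1]; simp; omega, ?_⟩
    intro j hj
    rcases Nat.lt_or_ge u.length j with h3 | h3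
    · obtain rfl : j = u.length + 1 := by rw [List.length_cons] at hj; omega
      rw [List.getElem?_append_right (by rw [h1]; omega), List.getElem?_append_right (by rw [h1]; omega),
        h1, show 2 * (u.length + 1) - (2 * u.length + 2) = 0 by omega,
        show 2 * (u.length + 1) + 1 - (2 * u.length + 2) = 1 by omega]
      exact ⟨rfl, rfl⟩
    · rw [List.getElem?_append_left (by rw [h1]; omega), List.getElem?_append_left (by rw [h1]; omega)]
      exact h2 j h3

theorem tauL_length (u : List Bool) :
    (R.tauL m hm c0 dc u).length = (R.hmL m hm c0 dc k u).length := by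
  rw [hmL_length, tauL, List.length_append, List.length_append, (tau_fold _ _ u).1,
    List.length_map, N0]
  simp; omega

/-- the symbol is not a chain -/
def nch (z : Sym (St Cell)) : Prop := ∀ l, z ≠ .main (.chain l)

theorem e_nch (s : Bool) (z : Sym (St Cell)) (h : nch z) : e R (.sy s z) = e0 R (.sy s z) := by
  rcases z with _ | _ | _ | x | q | _ | _
  · rfl
  · rfl
  · rfl
  · rfl
  · rcases q with _ | _ | _ | _ | _ | _ | _ | _ | l | ⟨a, c⟩
    · rfl
    · rfl
    · rfl
    · rfl
    · rfl
    · rfl
    · rfl
    · rfl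
    · exact absurd rfl (h l)
    · rfl
  · rfl
  · rfl

theorem T_nch (rest : List Cell) (q : St Cell) (h1 : q ≠ .initL) (h2 : ∀ l, q ≠ .chain l) :
    ∀ x ∈ R.T c0 rest q, ∀ l, x.1 ≠ .chain l := by
  intro x hx l
  rcases q with _ | _ | _ | _ | _ | _ | _ | _ | l | ⟨a, c⟩
  · simp [T] at hx; rcases hx with rfl | rfl <;> simp
  · simp [T] at hx; rcases hx with rfl | rfl <;> simp
  · simp [T] at hx; rcases hx with rfl | rfl <;> simp
  · simp [T] at hx; rcases hx with rfl | rfl <;> simp
  · simp [T] at hx; rcases hx with rfl | rfl <;> simp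
  · exact absurd rfl h1
  · simp [T] at hx; rcases hx with ⟨a, _, rfl⟩ | rfl <;> simp
  · simp [T] at hx
  · exact absurd rfl (h2 l)
  · simp only [T, List.mem_append, List.mem_map] at hx
    rcases hx with ⟨s, _, rfl⟩ | hx
    · simp
    · split_ifs at hx
      · simp at hx
        obtain ⟨a, _, rfl⟩ := hx
        simp
      · simp at hx

theorem H_nch (u : List Bool) (y : Sym (St Cell)) (h1 : y ≠ .main .initL) (h2 : nch y) :
    ∀ z ∈ (R.Mu m hm c0 dc u).H y, nch z := by
  intro z hz
  rcases y with _ | _ | _ | ⟨⟨kd, i, s⟩⟩ | q | _ | _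
  · simp [Mach.H] at hz; rcases hz with rfl | rfl | ⟨_, rfl⟩ <;> intro l <;> simp
  · simp [Mach.H] at hz; rcases hz with rfl | rfl | ⟨_, rfl⟩ <;> intro l <;> simp
  · simp [Mach.H] at hz; rcases hz with rfl | rfl | ⟨_, rfl⟩ | rfl <;> intro l <;> simp
  · cases kd
    · simp [Mach.H] at hz; rcases hz with rfl | rfl | rfl | ⟨_, rfl⟩ <;> intro l <;> simp
    · simp [Mach.H] at hz; rcases hz with rfl | rfl | rfl | rfl | ⟨_, rfl⟩ <;> intro l <;> simp
    · simp [Mach.H] at hz; rcases hz with rfl | rfl | rfl | rfl | ⟨_, rfl⟩ <;> intro l <;> simp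
    · simp [Mach.H] at hz; rcases hz with rfl | rfl | ⟨_, rfl⟩ | ⟨_, rfl⟩ <;> intro l <;> simp
  · simp only [Mach.H, List.mem_append, List.mem_cons, List.not_mem_nil, or_false,
      List.mem_flatMap, List.mem_replicate] at hz
    rcases hz with (rfl | rfl) | ⟨x, hx, hz⟩ | ⟨_, rfl⟩
    · intro l; simp [Mu, mach]
    · intro l; simp
    · simp only [packet, List.mem_append, List.mem_map, List.mem_cons, List.not_mem_nil,
        or_false] at hz
      rcases hz with ⟨x, _, rfl⟩ | (rfl | rfl) | ⟨x, _, rfl⟩
      · intro l; simp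
      · intro l; simp
      · intro l hl
        have := R.T_nch c0 (u.map dc) q (fun h => h1 (by rw [h])) (fun l h => h2 l (by rw [h]))
          x hx l
        rw [Sym.main.injEq] at hl
        exact this hl
      · intro l; simp
    · intro l; simp
  · simp [Mach.H] at hz
    rcases hz with rfl | rfl | rfl | ⟨_, rfl⟩ | rfl <;> intro l <;> simp [Mu, mach]
  · simp [Mach.H] at hz
    rcases hz with rfl | rfl | ⟨_, rfl⟩ <;> intro l <;> simp [Mu, mach]

theorem H_indep (u : List Bool) (y : Sym (St Cell)) (h1 : y ≠ .main .initL) :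
    (R.Mu m hm c0 dc u).H y = (R.Mu m hm c0 dc []).H y := by
  rcases y with _ | _ | _ | ⟨⟨kd, i, s⟩⟩ | q | _ | _
  · rfl
  · rfl
  · rfl
  · cases kd <;> rfl
  · rcases q with _ | _ | _ | _ | _ | _ | _ | _ | l | ⟨a, c⟩
    · rfl
    · rfl
    · rfl
    · rfl
    · rfl
    · exact absurd rfl h1
    · rfl
    · rfl
    · cases l <;> rfl
    · rfl
  · rfl
  · rfl

theorem H_initL (u : List Bool) :
    (R.Mu m hm c0 dc u).H (.main .initL) =
      ((R.Mu m hm c0 dc []).H (.main .initL)).map (sb (u.map dc)) := by
  simp [Mach.H, Mu, mach, T, packet, sb, Function.comp_def]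

theorem H_chain (u : List Bool) (b : Bool) (l : List Cell) :
    (R.Mu m hm c0 dc u).H (.main (.chain (dc b :: l))) =
      ((R.Mu m hm c0 dc []).H (.main (.chain [dc b]))).map (sb l) := by
  simp [Mach.H, Mu, mach, T, packet, sb, Function.comp_def]

theorem H_chain_nil (u : List Bool) :
    (R.Mu m hm c0 dc u).H (.main (.chain [])) =
      ((R.Mu m hm c0 dc []).H (.main (.chain []))).map (sb []) := by
  simp [Mach.H, Mu, mach, T, packet, sb, Function.comp_def, List.map_flatMap, List.flatMap_map]

/-- the letters in use -/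
def RB (u : List Bool) : BL (Sym (St Cell)) → Prop
  | .sy _ x => RS (R.Mu m hm c0 dc u) x
  | _ => True

theorem RB_closed (u : List Bool) (x : BL (Sym (St Cell))) (hx : R.RB m hm c0 dc u x) :
    ∀ y ∈ R.hb m hm c0 dc k u x, R.RB m hm c0 dc u y := by
  intro y hy
  rcases x with _ | _ | ⟨s, x⟩
  · simp only [hb, PSys.HB, PSys.G0, List.mem_cons, List.mem_append, List.mem_replicate,
      List.not_mem_nil, or_false] at hy
    rcases hy with rfl | (rfl | ⟨_, rfl⟩ | rfl) | rfl <;> trivial
  · simp only [hb, PSys.HB, List.mem_cons, List.not_mem_nil, or_false] at hy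
    subst hy; trivial
  · simp only [hb, PSys.HB, List.mem_map] at hy
    obtain ⟨z, hz, rfl⟩ := hy
    exact RS_closed _ x hx z hz

theorem hmL_spec (u : List Bool) (x : BL (Sym (St Cell))) (hx : R.RB m hm c0 dc u x) :
    (R.hmL m hm c0 dc k u).getD (e R x) [] = (R.hb m hm c0 dc k u x).map (e R) := by
  rw [List.getD_eq_getElem?_getD]
  rcases x with _ | _ | ⟨s, x⟩
  · -- start letter
    show R.img m hm c0 dc k .c = _
    rw [img, hb, hb, PSys.HB, PSys.HB, PSys.G0, PSys.G0]
    simp only [List.map_cons, List.map_append, List.map_replicate, List.map_nil]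
    rfl
  · rfl
  · have hHB : ∀ v, R.hb m hm c0 dc k v (.sy s x) = ((R.Mu m hm c0 dc v).H x).map (.sy s) :=
      fun _ => rfl
    by_cases h1 : x = .main .initL
    · subst h1
      rw [hHB, H_initL, ← ins_map R s (u.map dc), List.length_map]
      cases s <;> rfl
    · by_cases h2 : nch x
      · have h3 : e R (.sy s x) = 4 + (G R).idxOf (.sy s x) := e_G R s x h1 h2
        have h4 := List.idxOf_lt_length_iff.2 (mem_G R s x h1 h2)
        rw [h3, hmL, List.getElem?_append_right (by simp)]
        simp only [List.length_cons, List.length_nil, Nat.zero_add, Nat.reduceAdd,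
          Nat.add_sub_cancel_left]
        rw [List.getElem?_append_left (by rw [List.length_map]; exact h4), List.getElem?_map,
          List.getElem?_eq_getElem h4, List.getElem_idxOf]
        show R.img m hm c0 dc k (.sy s x) = _
        rw [img]
        show (((R.Mu m hm c0 dc []).H x).map (BL.sy s)).map (e0 R) = _
        rw [hHB, H_indep R m hm c0 dc u x h1]
        simp only [List.map_map]
        apply List.map_congr_left
        intro z hz
        exact (e_nch R s z (R.H_nch m hm c0 dc [] x h1 h2 z hz)).symm
      · -- chains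
        rw [nch] at h2
        push Not at h2
        obtain ⟨l, rfl⟩ := h2
        have hl : l <:+ u.map dc := hx
        obtain ⟨v, hv, rfl⟩ : ∃ v, v <:+ u ∧ v.map dc = l := by
          obtain ⟨t, ht⟩ := hl
          obtain ⟨t', v, h5, h6, h7⟩ := List.map_eq_append_iff.1 ht.symm
          exact ⟨v, ⟨t', h5.symm⟩, h7⟩
        have h8 : e R (.sy s (.main (.chain (v.map dc)))) = N0 R + (2 * v.length + bn s) := by
          show N0 R + 2 * (v.map dc).length + bn s = _
          rw [List.length_map]; ring
        have h9 : (R.hmL m hm c0 dc k u)[N0 R + (2 * v.length + bn s)]? =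
            (R.CP m hm c0 dc k u)[2 * v.length + bn s]? := by
          rw [hmL, ← List.append_assoc, List.getElem?_append_right (by simp [N0]; omega)]
          congr 1
          simp [N0]; omega
        rw [h8, h9, CP_getElem R m hm c0 dc k u v hv s]
        rw [hHB]
        show ins _ _ = _
        rcases v with _ | ⟨b, v⟩
        · rw [List.map_nil, H_chain_nil, ← ins_map R s []]
          rfl
        · rw [List.map_cons, H_chain, ← ins_map R s (v.map dc), List.length_map]
          rfl

theorem tauL_spec (u : List Bool) (x : BL (Sym (St Cell))) (hx : R.RB m hm c0 dc u x) :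
    (R.tauL m hm c0 dc u).getD (e R x) 0 = (R.Mu m hm c0 dc u).toPSys.tB x := by
  rw [List.getD_eq_getElem?_getD]
  rcases x with _ | _ | ⟨s, x⟩
  · rfl
  · rfl
  · by_cases h1 : x = .main .initL
    · subst h1
      cases s <;> rfl
    · by_cases h2 : nch x
      · have h3 : e R (.sy s x) = 4 + (G R).idxOf (.sy s x) := e_G R s x h1 h2
        have h4 := List.idxOf_lt_length_iff.2 (mem_G R s x h1 h2)
        rw [h3, tauL, List.getElem?_append_right (by simp)]
        simp only [List.length_cons, List.length_nil, Nat.zero_add, Nat.reduceAdd,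
          Nat.add_sub_cancel_left]
        rw [List.getElem?_append_left (by rw [List.length_map]; exact h4), List.getElem?_map,
          List.getElem?_eq_getElem h4, List.getElem_idxOf]
        cases s <;> rfl
      · rw [nch] at h2
        push Not at h2
        obtain ⟨l, rfl⟩ := h2
        have hl : l <:+ u.map dc := hx
        have hl2 : l.length ≤ u.length := by simpa using hl.length_le
        have h8 : e R (.sy s (.main (.chain l))) = N0 R + (2 * l.length + bn s) := by
          show N0 R + 2 * l.length + bn s = _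
          ring
        rw [h8, tauL, ← List.append_assoc, List.getElem?_append_right (by simp [N0]; omega)]
        have h10 : N0 R + (2 * l.length + bn s) - ([0, 1, tcode false (.main (.initL : St Cell)),
            tcode true (.main (.initL : St Cell))] ++
            (G R).map (R.Mu m hm c0 dc []).toPSys.tB).length = 2 * l.length + bn s := by
          simp [N0]; omega
        rw [h10]
        have h11 := (tau_fold (tcode false (.main (.initL : St Cell)))
          (tcode true (.main (.initL : St Cell))) u).2 l.length hl2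
        cases s
        · show (List.foldr _ _ u)[2 * l.length]?.getD 0 = _
          rw [h11.1]; rfl
        · show (List.foldr _ _ u)[2 * l.length + 1]?.getD 0 = _
          rw [h11.2]; rfl

/-- iterates of the numeric morphism -/
theorem hmL_It (u : List Bool) (n : ℕ) (w : List (BL (Sym (St Cell))))
    (hw : ∀ x ∈ w, R.RB m hm c0 dc u x) :
    It (fun c => (R.hmL m hm c0 dc k u).getD c []) n (w.map (e R)) =
      (It (R.hb m hm c0 dc k u) n w).map (e R) :=
  It_map _ _ (e R) (R.RB m hm c0 dc u) (R.RB_closed m hm c0 dc k u)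
    (R.hmL_spec m hm c0 dc k u) n w hw

theorem word_C (u : List Bool) (n : ℕ) :
    (It (fun c => (R.hmL m hm c0 dc k u).getD c []) n [0]).map
      (fun c => (R.tauL m hm c0 dc u).getD c 0) = (R.Mu m hm c0 dc u).toPSys.C k n := by
  have h1 := R.hmL_It m hm c0 dc k u n [.c] (by simp [RB])
  have h2 : [BL.c].map (e R) = [0] := rfl
  rw [h2] at h1
  rw [h1, ← (R.Mu m hm c0 dc u).toPSys.It_c k n, List.map_map]
  apply List.map_congr_left
  intro x hx
  exact R.tauL_spec m hm c0 dc u x
    (It_closed _ (R.RB m hm c0 dc u) (R.RB_closed m hm c0 dc k u) n [.c] (by simp [RB]) x hx)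

end RingA

end Pool.Agent.AbPow
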