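import Pool.Agent.MP_e5f80e_lc.Code

/-!
Computability of the encoding and validity of the instances.
-/

set_option autoImplicit false

namespace Pool.Agent.AbPow

theorem primrec_ins : Primrec₂ RingA.ins := by
  have h : Primrec (fun p : ℕ × List ℕ => p.2.map (fun c => if c = 0 then p.1 else c)) := by
    apply Primrec.list_map Primrec.snd
    exact Primrec.ite (PrimrecRel.comp Primrec.eq Primrec.snd (Primrec.const 0))
      (Primrec.fst.comp Primrec.fst) Primrec.snd
  exact h

/-- the bits of a number -/
theorem primrec_bits : Primrec Nat.bits := by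
  have h : Primrec₂ (fun (_ : Unit) (n : ℕ) => Nat.bits n) := by
    apply Primrec.nat_strong_rec (fun (_ : Unit) (n : ℕ) => Nat.bits n)
      (g := fun _ L => some (if L.length = 0 then [] else
        Nat.bodd L.length :: L.getD (L.length / 2) []))
    · have hl : Primrec (fun p : Unit × List (List Bool) => p.2.length) :=
        Primrec.list_length.comp Primrec.snd
      apply Primrec.option_some.comp
      exact Primrec.ite (PrimrecRel.comp Primrec.eq hl (Primrec.const 0)) (Primrec.const [])
        (Primrec.list_cons.comp (Primrec.nat_bodd.comp hl)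
          ((Primrec.list_getD ([] : List Bool)).comp Primrec.snd
            (Primrec.nat_div.comp hl (Primrec.const 2))))
    · intro _ n
      simp only [List.length_map, List.length_range]
      congr 1
      split_ifs with h
      · subst h; simp
      · have h1 : n / 2 < n := by omega
        rw [List.getD_eq_getElem?_getD, List.getElem?_map, List.getElem?_range h1]
        simp only [Option.map_some, Option.getD_some]
        have h2 := Nat.bits_append_bit (n / 2) (Nat.bodd n) (by
          intro h3
          have : n = 1 := by omega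
          subst this; rfl)
        rw [← h2]
        congr 1
        rw [← Nat.div2_val, Nat.bit_bodd_div2]
  exact h.comp (Primrec.const ()) Primrec.id

namespace RingA

variable {Cell : Type} (R : RingA Cell) (m : ℕ) (hm : R.bound + 7 ≤ m) (c0 : Cell)
  (dc : Bool → Cell) (k : ℕ)

theorem primrec_len2 (s : Bool) {α : Type*} [Primcodable α] {f : α → List Bool} (hf : Primrec f) :
    Primrec (fun a => N0 R + 2 * (f a).length + bn s) :=
  Primrec.nat_add.comp (Primrec.nat_add.comp (Primrec.const _)
    (Primrec.nat_mul.comp (Primrec.const 2) (Primrec.list_length.comp hf))) (Primrec.const _)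

theorem primrec_CP : Primrec (R.CP m hm c0 dc k) := by
  have key : Primrec (fun u : List Bool => List.recOn (motive := fun _ => List (List ℕ)) u
      (R.CP m hm c0 dc k [])
      (fun b l IH => IH ++ [ins (N0 R + 2 * l.length + bn false) (R.tC m hm c0 dc k b false),
        ins (N0 R + 2 * l.length + bn true) (R.tC m hm c0 dc k b true)])) := by
    apply Primrec.list_rec (f := fun u : List Bool => u) (g := fun _ => R.CP m hm c0 dc k [])
      (h := fun _ (x : Bool × List Bool × List (List ℕ)) => x.2.2 ++
        [ins (N0 R + 2 * x.2.1.length + bn false) (R.tC m hm c0 dc k x.1 false),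
        ins (N0 R + 2 * x.2.1.length + bn true) (R.tC m hm c0 dc k x.1 true)])
    · exact Primrec.id
    · exact Primrec.const _
    · have hb : Primrec (fun p : List Bool × (Bool × List Bool × List (List ℕ)) => p.2.1) :=
        Primrec.fst.comp Primrec.snd
      have hl : Primrec (fun p : List Bool × (Bool × List Bool × List (List ℕ)) => p.2.2.1) :=
        Primrec.fst.comp (Primrec.snd.comp Primrec.snd)
      have hI : Primrec (fun p : List Bool × (Bool × List Bool × List (List ℕ)) => p.2.2.2) :=
        Primrec.snd.comp (Primrec.snd.comp Primrec.snd)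
      exact Primrec.list_append.comp hI (Primrec.list_cons.comp
        (primrec_ins.comp (R.primrec_len2 false hl)
          ((Primrec.dom_bool (fun b => R.tC m hm c0 dc k b false)).comp hb))
        (Primrec.list_cons.comp (primrec_ins.comp (R.primrec_len2 true hl)
          ((Primrec.dom_bool (fun b => R.tC m hm c0 dc k b true)).comp hb)) (Primrec.const [])))
  refine key.of_eq ?_
  intro u
  induction u with
  | nil => rfl
  | cons b u ih =>
    show List.recOn (motive := fun _ => List (List ℕ)) u _ _ ++ _ = _
    rw [ih]; rfl

theorem primrec_hmL : Primrec (R.hmL m hm c0 dc k) := by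
  unfold hmL
  have h1 : ∀ s, Primrec (fun u : List Bool => ins (N0 R + 2 * u.length + bn s)
      (R.img m hm c0 dc k (.sy s (.main .initL)))) := fun s =>
    primrec_ins.comp (R.primrec_len2 s Primrec.id) (Primrec.const _)
  exact Primrec.list_append.comp (Primrec.list_cons.comp (Primrec.const _)
    (Primrec.list_cons.comp (Primrec.const _) (Primrec.list_cons.comp (h1 false)
      (Primrec.list_cons.comp (h1 true) (Primrec.const [])))))
    (Primrec.list_append.comp (Primrec.const _) (R.primrec_CP m hm c0 dc k))

theorem primrec_tauL : Primrec (R.tauL m hm c0 dc) := by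
  unfold tauL
  refine Primrec.list_append.comp (Primrec.const _) (Primrec.list_append.comp (Primrec.const _) ?_)
  apply Primrec.list_foldr (f := fun u : List Bool => u)
    (g := fun _ => [tcode false (.main (.initL : St Cell)), tcode true (.main (.initL : St Cell))])
    (h := fun _ (x : Bool × List ℕ) => x.2 ++ [tcode false (.main (.initL : St Cell)),
      tcode true (.main (.initL : St Cell))])
  · exact Primrec.id
  · exact Primrec.const _
  · exact Primrec.list_append.comp (Primrec.snd.comp Primrec.snd) (Primrec.const _)

theorem img_lt (x : BL (Sym (St Cell))) : ∀ c ∈ R.img m hm c0 dc k x, c < N0 R := by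
  intro c hc
  rw [img, List.mem_map] at hc
  obtain ⟨y, _, rfl⟩ := hc
  exact e0_lt R y

theorem ins_lt (N B : ℕ) (t : List ℕ) (h1 : N < B) (h2 : ∀ c ∈ t, c < B) :
    ∀ c ∈ ins N t, c < B := by
  intro c hc
  rw [ins, List.mem_map] at hc
  obtain ⟨y, hy, rfl⟩ := hc
  split_ifs
  · exact h1
  · exact h2 y hy

theorem CP_lt (u : List Bool) (B : ℕ) (hB : N0 R + 2 * u.length + 2 ≤ B) :
    ∀ w ∈ R.CP m hm c0 dc k u, ∀ c ∈ w, c < B := by
  have hN : ∀ x, ∀ c ∈ R.img m hm c0 dc k x, c < B := fun x c hc => by
    have := R.img_lt m hm c0 dc k x c hc; omega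
  induction u with
  | nil =>
    intro w hw
    rw [CP] at hw
    simp only [List.mem_cons, List.not_mem_nil, or_false] at hw
    rcases hw with rfl | rfl
    · exact ins_lt _ _ _ (by simp [bn] at *; omega) (hN _)
    · exact ins_lt _ _ _ (by simp [bn] at *; omega) (hN _)
  | cons b u ih =>
    intro w hw
    rw [List.length_cons] at hB
    rw [CP, List.mem_append] at hw
    rcases hw with hw | hw
    · exact ih (by omega) w hw
    · simp only [List.mem_cons, List.not_mem_nil, or_false] at hw
      rcases hw with rfl | rfl
      · exact ins_lt _ _ _ (by simp only [bn] at *; simp; omega) (hN _)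
      · exact ins_lt _ _ _ (by simp only [bn] at *; simp; omega) (hN _)

theorem hmL_lt (u : List Bool) :
    ∀ w ∈ R.hmL m hm c0 dc k u, ∀ c ∈ w, c < (R.hmL m hm c0 dc k u).length := by
  rw [hmL_length]
  have hN : ∀ x, ∀ c ∈ R.img m hm c0 dc k x, c < N0 R + (2 * u.length + 2) := fun x c hc => by
    have := R.img_lt m hm c0 dc k x c hc; omega
  intro w hw
  rw [hmL] at hw
  simp only [List.mem_append, List.mem_cons, List.not_mem_nil, or_false, List.mem_map] at hw
  rcases hw with (rfl | rfl | rfl | rfl) | ⟨x, _, rfl⟩ | hw
  · exact hN _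
  · exact hN _
  · exact ins_lt _ _ _ (by simp [bn]) (hN _)
  · exact ins_lt _ _ _ (by simp [bn]; omega) (hN _)
  · exact hN _
  · exact R.CP_lt m hm c0 dc k u _ (by omega) w hw

/-- the image of the start letter -/
theorem hmL_zero (u : List Bool) :
    (R.hmL m hm c0 dc k u).getD 0 [] =
      0 :: (((R.Mu m hm c0 dc u).toPSys.G0 k ++ [BL.dol]).map (e R)) := by
  have h := R.hmL_spec m hm c0 dc k u .c trivial
  have h2 : e R BL.c = 0 := rfl
  rw [h2] at h
  rw [h]
  rfl

theorem G0_RB (u : List Bool) :
    ∀ x ∈ (R.Mu m hm c0 dc u).toPSys.G0 k ++ [BL.dol], R.RB m hm c0 dc u x := by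
  intro y hy
  simp only [PSys.G0, List.mem_cons, List.mem_append, List.mem_replicate,
      List.not_mem_nil, or_false] at hy
  rcases hy with (rfl | ⟨_, rfl⟩ | rfl) | rfl <;> trivial

theorem hmL_nonempty (u : List Bool) (n : ℕ) :
    (fun w : List ℕ => w.flatMap (fun c => (R.hmL m hm c0 dc k u).getD c []))^[n]
      ((R.hmL m hm c0 dc k u).getD 0 []).tail ≠ [] := by
  rw [hmL_zero, List.tail_cons]
  have h := R.hmL_It m hm c0 dc k u n _ (R.G0_RB m hm c0 dc k u)
  rw [It] at h
  rw [h, It_append]
  have h2 := (R.Mu m hm c0 dc u).toPSys.It_dol k n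
  rw [hb, h2]
  simp

end RingA

end Pool.Agent.AbPow
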