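import Pool.Agent.MP_e5f80e_lc.TM

/-!
A Turing machine with finitely many symbols and states whose halting problem is undecidable.
-/

set_option autoImplicit false

open Turing

namespace Pool.Agent.AbPow

namespace TMsim

section

variable {Γ Λ : Type} [Inhabited Γ] [Inhabited Λ]

theorem halts_iff_dom (M : TM0.Machine Γ Λ) (c : TM0.Cfg Γ Λ) :
    Halts M c ↔ (StateTransition.eval (TM0.step M) c).Dom := by
  rw [Part.dom_iff_mem]
  constructor
  · rintro ⟨c', h1, h2⟩
    exact ⟨c', StateTransition.mem_eval.2 ⟨h1, h2⟩⟩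
  · rintro ⟨c', h⟩
    have := StateTransition.mem_eval.1 h
    exact ⟨c', this.1, this.2⟩

/-- restriction to a finite set of states -/
theorem finite_states (M : TM0.Machine Γ Λ) (S : Finset Λ) (ss : TM0.Supports M (S : Set Λ)) :
    ∃ (Λ2 : Type) (_ : Fintype Λ2) (_ : Inhabited Λ2) (M2 : TM0.Machine Γ Λ2),
      ∀ l : List Γ, Halts M2 (TM0.init l) ↔ Halts M (TM0.init l) := by
  classical
  have hd : (default : Λ) ∈ S := ss.1
  let Λ2 := {q : Λ // q ∈ S}
  letI : Inhabited Λ2 := ⟨⟨default, hd⟩⟩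
  let g₁ : PointedMap Λ Λ2 := ⟨fun q => if h : q ∈ S then ⟨q, h⟩ else default, by
    show (if h : (default : Λ) ∈ S then (⟨default, h⟩ : Λ2) else default) = default
    rw [dif_pos hd]; rfl⟩
  let f₁ : PointedMap Γ Γ := ⟨id, rfl⟩
  let g₂ : Λ2 → Λ := Subtype.val
  refine ⟨Λ2, inferInstance, inferInstance, TM0.Machine.map M f₁ f₁ g₁ g₂, ?_⟩
  intro l
  rw [halts_iff_dom, halts_iff_dom]
  apply StateTransition.tr_eval_dom
    (TM0.Machine.map_respects M f₁ f₁ g₁ g₂ ss (fun _ => rfl) (fun q hq => by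
      show ((if h : q ∈ S then (⟨q, h⟩ : Λ2) else default) : Λ2).1 = q
      rw [dif_pos (by exact hq)]))
  refine ⟨ss.1, ?_⟩
  have := TM0.map_init (Γ := Γ) (Γ' := Γ) f₁ g₁ l
  rw [this]
  congr 1
  exact List.map_id l

end

open PartrecToTM2

/-- letters of the input -/
def inp (a : PartrecToTM2.Γ') : TM2to1.Γ' K' (fun _ => PartrecToTM2.Γ') :=
  (false, Function.update (fun _ ↦ none) K'.main (some a))

theorem machine_of_code (c : ToPartrec.Code) :
    ∃ (Λ : Type) (_ : Fintype Λ) (_ : Inhabited Λ)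
      (M : TM0.Machine (TM2to1.Γ' K' (fun _ => PartrecToTM2.Γ')) Λ),
      ∀ v : List ℕ, Halts M (TM0.init (TM2to1.trInit K'.main (trList v))) ↔ (c.eval v).Dom := by
  letI hinh : Inhabited Λ' := ⟨trNormal c Cont'.halt⟩
  have hs := PartrecToTM2.tr_supports c Cont'.halt
  have hs1 := TM2to1.tr_supports (M := PartrecToTM2.tr) hs
  have hs0 := TM1to0.tr_supports _ hs1
  obtain ⟨Λ2, hf, hi, M2, hM2⟩ := finite_states _ _ hs0
  refine ⟨Λ2, hf, hi, M2, ?_⟩
  intro v
  rw [hM2, halts_iff_dom]
  have e1 := TM1to0.tr_eval (TM2to1.tr PartrecToTM2.tr) (TM2to1.trInit K'.main (trList v))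
  have e2 := TM2to1.tr_eval_dom (M := PartrecToTM2.tr) K'.main (trList v)
  have e3 := PartrecToTM2.tr_eval c v
  have e4 : (TM2.init K'.main (trList v) : TM2.Cfg (fun _ : K' => PartrecToTM2.Γ') Λ' (Option PartrecToTM2.Γ')) =
      PartrecToTM2.init c v := by
    unfold TM2.init PartrecToTM2.init
    congr 1
    funext k
    cases k <;> rfl
  have h1 : (StateTransition.eval (TM0.step (TM1to0.tr (TM2to1.tr PartrecToTM2.tr)))
      (TM0.init (TM2to1.trInit K'.main (trList v)))).Dom ↔
      (TM0.eval (TM1to0.tr (TM2to1.tr PartrecToTM2.tr)) (TM2to1.trInit K'.main (trList v))).Dom :=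
    Iff.rfl
  rw [h1, e1, e2]
  have h2 : (TM2.eval PartrecToTM2.tr K'.main (trList v)).Dom ↔
      (StateTransition.eval (TM2.step PartrecToTM2.tr)
        (TM2.init K'.main (trList v))).Dom := Iff.rfl
  rw [h2, e4, e3]
  exact Iff.rfl

/-- the universal function used -/
def univF (n : ℕ) : Part ℕ := Nat.Partrec.Code.eval (Denumerable.ofNat Nat.Partrec.Code n) 0

theorem univ_code : ∃ c : ToPartrec.Code, ∀ n : ℕ, (c.eval [n]).Dom ↔ (univF n).Dom := by
  have h1 : Partrec univF :=
    Nat.Partrec.Code.eval_part.comp (Computable.ofNat Nat.Partrec.Code) (Computable.const 0)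
  have h2 : Nat.Partrec univF := Partrec.nat_iff.1 h1
  have h3 : Nat.Partrec' (fun v : List.Vector ℕ 1 => univF v.head) := Nat.Partrec'.part_iff₁.2 h1
  obtain ⟨c, hc⟩ := ToPartrec.Code.exists_code h3
  refine ⟨c, fun n => ?_⟩
  have := hc ⟨[n], rfl⟩
  have h4 : c.eval [n] = pure <$> univF n := this
  rw [h4]
  exact Iff.rfl

theorem univ_undecidable : ¬ ComputablePred (fun n => (univF n).Dom) := by
  intro h
  apply ComputablePred.halting_problem 0
  have h2 : ComputablePred (fun c : Nat.Partrec.Code => (univF (Encodable.encode c)).Dom) := by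
    obtain ⟨f, hf, he⟩ := ComputablePred.computable_iff.1 h
    refine ComputablePred.computable_iff.2 ⟨fun c => f (Encodable.encode c),
      hf.comp Computable.encode, ?_⟩
    funext c
    exact congrFun he (Encodable.encode c)
  refine h2.of_eq ?_
  intro c
  rw [univF, Denumerable.ofNat_encode]

end TMsim

end Pool.Agent.AbPow
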