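import Pool.Agent.MP_e5f80e_lc.Comp
import Pool.Agent.MP_e5f80e_lc.Univ

/-!
The reduction from the halting problem.
-/

set_option autoImplicit false

open Turing

namespace Pool.Agent.AbPow

/-- the coded fixed point contains an abelian `k`-th power of period at least `p` -/
def HasPow (hm : List (List ℕ)) (τ : List ℕ) (a k p : ℕ) : Prop :=
  ∃ i ℓ : ℕ, p ≤ ℓ ∧ ∀ j < k, ∀ b : ℕ,
    ((Finset.range ℓ).filter (fun t =>
        τ.getD (((fun w : List ℕ => w.flatMap (fun c => hm.getD c []))^[i + j * ℓ + t + 1]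
          [a]).getD (i + j * ℓ + t) 0) 0 = b)).card =
    ((Finset.range ℓ).filter (fun t =>
        τ.getD (((fun w : List ℕ => w.flatMap (fun c => hm.getD c []))^[i + t + 1]
          [a]).getD (i + t) 0) 0 = b)).card

/-- binary digits -/
def dg (b : Bool) : PartrecToTM2.Γ' := if b then PartrecToTM2.Γ'.bit1 else PartrecToTM2.Γ'.bit0

theorem trPosNum_bits (p : PosNum) :
    PartrecToTM2.trPosNum p = (Nat.bits (p : ℕ)).map dg := by
  induction p with
  | one => simp [PartrecToTM2.trPosNum, dg]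
  | bit1 p ih =>
    rw [PartrecToTM2.trPosNum, ih, PosNum.cast_bit1]
    have h := Nat.bits_append_bit (p : ℕ) true (fun h => rfl)
    have h2 : Nat.bit true (p : ℕ) = (p : ℕ) + (p : ℕ) + 1 := by rw [Nat.bit_true_apply]; ring
    rw [← h2, h]; rfl
  | bit0 p ih =>
    rw [PartrecToTM2.trPosNum, ih, PosNum.cast_bit0]
    have hp : 0 < (p : ℕ) := PosNum.cast_pos _
    have h := Nat.bits_append_bit (p : ℕ) false (fun h => by omega)
    have h2 : Nat.bit false (p : ℕ) = (p : ℕ) + (p : ℕ) := by rw [Nat.bit_false_apply]; ring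
    rw [← h2, h]; rfl

theorem trNat_bits (n : ℕ) : PartrecToTM2.trNat n = (Nat.bits n).map dg := by
  rw [PartrecToTM2.trNat]
  rcases h : (n : Num) with _ | p
  · have h2 : n = 0 := by
      have := congrArg (fun x : Num => (x : ℕ)) h
      simpa using this
    subst h2
    rfl
  · have h2 : n = (p : ℕ) := by
      have := congrArg (fun x : Num => (x : ℕ)) h
      simpa using this
    rw [PartrecToTM2.trNum, trPosNum_bits, ← h2]

instance fintypeK : Fintype PartrecToTM2.K' :=
  ⟨{PartrecToTM2.K'.main, PartrecToTM2.K'.rev, PartrecToTM2.K'.aux, PartrecToTM2.K'.stack}, by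
    intro x; cases x <;> simp⟩

section

open TMsim

theorem reduction_ring {Cell : Type} (R : RingA Cell) (m : ℕ) (hm : R.bound + 7 ≤ m)
    (hp : m.Prime) (k : ℕ) (hk : m ≤ k) (c0 : Cell) (dc : Bool → Cell) (u : List Bool) (p : ℕ)
    (hp1 : 1 ≤ p) (Hlt : Prop)
    (h1 : ∀ w s xs ys, R.IsRow c0 (u.map dc) w → s :: xs = w ++ R.mark :: ys →
      R.RunOK R.mark s xs ys → Hlt)
    (h2 : Hlt → ∀ B, ∃ w s xs ys, B ≤ w.length ∧ R.IsRow c0 (u.map dc) w ∧
      s :: xs = w ++ R.mark :: ys ∧ R.RunOK R.mark s xs ys ∧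
      2 * w.length + xs.length + 3 < R.b ^ w.length) :
    HasPow (R.hmL m hm c0 dc k u) (R.tauL m hm c0 dc u) 0 k p ↔ Hlt := by
  have hw : ∀ j : ℕ, (R.tauL m hm c0 dc u).getD
      (((fun w : List ℕ => w.flatMap (fun c => (R.hmL m hm c0 dc k u).getD c []))^[j + 1]
        [0]).getD j 0) 0 = (R.Mu m hm c0 dc u).toPSys.om k j := by
    intro j
    have e1 := R.word_C m hm c0 dc k u (j + 1)
    have e2 := (R.Mu m hm c0 dc u).toPSys.C_length_gt k (j + 1)
    have key : ∀ (L X : List ℕ) (f : ℕ → ℕ), L.map f = X → j + 1 < X.length →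
        f (L.getD j 0) = X.getD j 0 := by
      rintro L _ f rfl h
      rw [List.length_map] at h
      rw [List.getD_eq_getElem?_getD, List.getD_eq_getElem?_getD, List.getElem?_map,
        List.getElem?_eq_getElem (by omega)]
      rfl
    exact key _ _ _ e1 e2
  have hpow : HasPow (R.hmL m hm c0 dc k u) (R.tauL m hm c0 dc u) 0 k p ↔
      (∃ N i l, p ≤ l ∧ i + k * l ≤ ((R.Mu m hm c0 dc u).toPSys.C k N).length ∧
      ∀ j < k, (win ((R.Mu m hm c0 dc u).toPSys.C k N) (i + j * l) l).Perm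
        (win ((R.Mu m hm c0 dc u).toPSys.C k N) i l)) := by
    rw [← (R.Mu m hm c0 dc u).toPSys.power_iff k (by omega) p, HasPow]
    simp only [hw]
  rw [hpow]
  constructor
  · rintro ⟨N, i, l, hl, hlen, hperm⟩
    obtain ⟨n, hn⟩ := (R.Mu m hm c0 dc u).forward hp k (Nat.le_succ_of_le hk) N i l (by omega) hlen hperm
    obtain ⟨w, s, xs, ys, g1, g2, g3⟩ := RingA.ring_forward n hn
    exact h1 w s xs ys g1 g2 g3
  · intro h
    obtain ⟨w, s, xs, ys, g0, g1, g2, g3, g4⟩ := h2 h p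
    obtain ⟨n, hn1, hn2⟩ := RingA.ring_backward (hm := hm) w s xs ys g1 g2 g3 g4
    obtain ⟨N, i, l, q1, q2, q3⟩ := (R.Mu m hm c0 dc u).backward k (by omega) n hn2
    refine ⟨N, i, l, ?_, q2, q3⟩
    have : w.length < R.b ^ w.length := Nat.lt_pow_self R.one_lt_b
    omega

/-- The reduction. -/
theorem reduction : ∃ K : ℕ, 2 ≤ K ∧ ∀ k, K ≤ k →
    ∃ (hmF : ℕ → List (List ℕ)) (tF : ℕ → List ℕ), Primrec hmF ∧ Primrec tF ∧ ∀ n,
      (∀ w ∈ hmF n, ∀ c ∈ w, c < (hmF n).length) ∧ (tF n).length = (hmF n).length ∧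
      0 < (hmF n).length ∧ ((hmF n).getD 0 []).head? = some 0 ∧
      2 ≤ ((hmF n).getD 0 []).length ∧
      (∀ m : ℕ, (fun w : List ℕ => w.flatMap (fun c => (hmF n).getD c []))^[m]
        ((hmF n).getD 0 []).tail ≠ []) ∧
      ∀ p, 1 ≤ p → (HasPow (hmF n) (tF n) 0 k p ↔ (univF n).Dom) := by
  obtain ⟨c, hc⟩ := univ_code
  obtain ⟨Λ, hf, hi, M, hM⟩ := machine_of_code c
  set R := ring M with hR
  obtain ⟨m, hm, hp⟩ := Nat.exists_infinite_primes (R.bound + 7)
  let c0 : TCell (TM2to1.Γ' PartrecToTM2.K' (fun _ => PartrecToTM2.Γ')) Λ :=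
    some ((true, Function.update (fun _ ↦ none) PartrecToTM2.K'.main
      (some PartrecToTM2.Γ'.cons)), some default)
  let dc : Bool → TCell (TM2to1.Γ' PartrecToTM2.K' (fun _ => PartrecToTM2.Γ')) Λ :=
    fun b => some (inp (dg b), none)
  have hrow : ∀ n : ℕ, icell (Λ := Λ) (TM2to1.trInit PartrecToTM2.K'.main
      (PartrecToTM2.trList [n])) = c0 ∧ irest (TM2to1.trInit PartrecToTM2.K'.main
      (PartrecToTM2.trList [n])) = ((Nat.bits n).reverse).map dc := by
    intro n
    have e1 : PartrecToTM2.trList [n] = PartrecToTM2.trNat n ++ [PartrecToTM2.Γ'.cons] := rfl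
    rw [e1, trNat_bits]
    constructor
    · rw [icell, TM2to1.trInit, List.reverse_append]
      rfl
    · rw [irest, TM2to1.trInit, List.reverse_append]
      simp only [List.reverse_cons, List.reverse_nil, List.nil_append, List.cons_append,
        List.map_cons, List.tail_cons, List.map_map, ← List.map_reverse]
      rfl
  refine ⟨m, hp.two_le, ?_⟩
  intro k hk
  refine ⟨fun n => R.hmL m hm c0 dc k (Nat.bits n).reverse,
    fun n => R.tauL m hm c0 dc (Nat.bits n).reverse,
    (R.primrec_hmL m hm c0 dc k).comp (Primrec.list_reverse.comp primrec_bits),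
    (R.primrec_tauL m hm c0 dc).comp (Primrec.list_reverse.comp primrec_bits), ?_⟩
  intro n
  refine ⟨R.hmL_lt m hm c0 dc k _, R.tauL_length m hm c0 dc k _, ?_, ?_, ?_,
    R.hmL_nonempty m hm c0 dc k _, ?_⟩
  · rw [R.hmL_length]; omega
  · rw [R.hmL_zero]; rfl
  · rw [R.hmL_zero, PSys.G0]; simp
  · intro p hp1
    apply reduction_ring R m hm hp k hk c0 dc _ p hp1
    · intro w s xs ys g1 g2 g3
      rw [← (hrow n).1, ← (hrow n).2] at g1
      have := ring_halt_of_success M _ w s xs ys g1 g2 g3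
      exact (hc n).1 ((hM [n]).1 this)
    · intro hd B
      have := ring_success_of_halt M _ ((hM [n]).2 ((hc n).2 hd)) B
      rw [(hrow n).1, (hrow n).2] at this
      exact this

end

end Pool.Agent.AbPow
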