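import Pool.Agent.MP_e5f80e_lc.Sys

/-!
The pair system attached to a weighted transition system.
-/

set_option autoImplicit false

namespace Pool.Agent.AbPow

variable {Q : Type}

/-- code of a coordinate -/
def ccode : Coord → ℕ
  | none => 4
  | some i => 5 + i.val

theorem ccode_inj : Function.Injective ccode := by
  intro a b h
  rcases a with _ | a <;> rcases b with _ | b
  · rfl
  · simp only [ccode] at h; omega
  · simp only [ccode] at h; omega
  · simp only [ccode] at h
    congr 1
    apply Fin.ext
    omega

theorem ccode_ge (c : Coord) : 4 ≤ ccode c := by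
  rcases c with _ | a <;> simp [ccode]; omega

/-- coding of one copy: the sign `s` selects which units are visible -/
def tcode (s : Bool) (x : Sym Q) : ℕ :=
  if swt x = 2 then 3 else
    match sg x with
    | some (c, s') => if s' = s then ccode c else 2
    | none => 2

theorem swt_cases (x : Sym Q) : swt x = 1 ∨ swt x = 2 := by
  rcases x with _ | _ | _ | _ | _ | _ | _ <;> simp [swt]

theorem sg_heavy (x : Sym Q) (h : swt x = 2) : sg x = none := by
  rcases x with _ | _ | _ | _ | _ | _ | _ <;> simp [swt, sg] at *

theorem tcode_heavy (s : Bool) (x : Sym Q) (h : swt x = 2) : tcode s x = 3 := by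
  rw [tcode, if_pos h]

theorem tcode_none (s : Bool) (x : Sym Q) (h : swt x = 1) (h2 : sg x = none) :
    tcode s x = 2 := by
  rw [tcode, if_neg (by omega), h2]

theorem tcode_some (s : Bool) (x : Sym Q) (h : swt x = 1) (c : Coord) (s' : Bool)
    (h2 : sg x = some (c, s')) : tcode s x = if s' = s then ccode c else 2 := by
  rw [tcode, if_neg (by omega), h2]

theorem wc_tcode (s : Bool) (x : Sym Q) : wc (tcode s x) = swt x := by
  rcases swt_cases x with h | h
  · rcases hsg : sg x with _ | ⟨c, s'⟩
    · rw [tcode_none s x h hsg, h]; rfl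
    · rw [tcode_some s x h c s' hsg, h]
      have := ccode_ge c
      split_ifs
      · rw [wc, if_neg (by omega)]
      · rfl
  · rw [tcode_heavy s x h, h]; rfl

theorem tcode_ge (s : Bool) (x : Sym Q) : 2 ≤ tcode s x := by
  rcases swt_cases x with h | h
  · rcases hsg : sg x with _ | ⟨c, s'⟩
    · rw [tcode_none s x h hsg]
    · rw [tcode_some s x h c s' hsg]
      have := ccode_ge c
      split_ifs <;> omega
  · rw [tcode_heavy s x h]; omega

/-- indicator difference -/
def idiff (a : ℕ) (x : Sym Q) : ℤ :=
  (if tcode true x = a then 1 else 0) - (if tcode false x = a then 1 else 0)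

theorem count_diff (a : ℕ) (w : List (Sym Q)) :
    ((List.count a (w.map (tcode true)) : ℕ) : ℤ) - (List.count a (w.map (tcode false)) : ℕ) =
      (w.map (idiff a)).sum := by
  induction w with
  | nil => simp
  | cons x w ih =>
    rw [List.map_cons, List.map_cons, List.map_cons, List.sum_cons, ← ih, List.count_cons,
      List.count_cons, idiff]
    push_cast
    simp only [beq_iff_eq]
    ring

theorem idiff_heavy (a : ℕ) (x : Sym Q) (h : swt x = 2) : idiff a x = 0 := by
  rw [idiff, tcode_heavy true x h, tcode_heavy false x h]; simp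

theorem idiff_none (a : ℕ) (x : Sym Q) (h : swt x = 1) (h2 : sg x = none) : idiff a x = 0 := by
  rw [idiff, tcode_none true x h h2, tcode_none false x h h2]; simp

theorem idiff_some (a : ℕ) (x : Sym Q) (h : swt x = 1) (c : Coord) (s' : Bool)
    (h2 : sg x = some (c, s')) :
    idiff a x = sgnZ s' * ((if ccode c = a then 1 else 0) - (if 2 = a then 1 else 0)) := by
  rw [idiff, tcode_some true x h c s' h2, tcode_some false x h c s' h2]
  cases s' <;> simp [sgnZ]

theorem idiff_ccode (c : Coord) (x : Sym Q) : idiff (ccode c) x = dl x c := by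
  have h4 := ccode_ge c
  rcases swt_cases x with h | h
  · rcases hsg : sg x with _ | ⟨c', s'⟩
    · rw [idiff_none _ x h hsg, dl, hsg]; rfl
    · rw [idiff_some _ x h c' s' hsg, dl, hsg, if_neg (by omega : ¬ (2 = ccode c)), sub_zero]
      by_cases hc : c' = c
      · subst hc; simp
      · have hne : ¬ ccode c' = ccode c := fun h => hc (ccode_inj h)
        rw [if_neg hne, mul_zero]
        simp only
        rw [Pi.single_eq_of_ne (fun h => hc h.symm)]
  · rw [idiff_heavy _ x h, dl, sg_heavy x h]; rfl

theorem idiff_other (a : ℕ) (h2 : a ≠ 2) (hc : ∀ c, a ≠ ccode c) (x : Sym Q) : idiff a x = 0 := by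
  rcases swt_cases x with h | h
  · rcases hsg : sg x with _ | ⟨c', s'⟩
    · rw [idiff_none _ x h hsg]
    · rw [idiff_some _ x h c' s' hsg, if_neg (fun h => hc c' h.symm), if_neg (fun h => h2 h.symm)]
      simp
  · rw [idiff_heavy _ x h]

theorem idiff_two (x : Sym Q) : idiff 2 x = - ∑ c : Coord, dl x c := by
  rcases swt_cases x with h | h
  · rcases hsg : sg x with _ | ⟨c', s'⟩
    · rw [idiff_none _ x h hsg]
      simp [dl, hsg]
    · have h4 := ccode_ge c'
      rw [idiff_some _ x h c' s' hsg, dl, hsg, if_neg (by omega : ¬ (ccode c' = 2))]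
      simp only
      rw [Finset.sum_eq_single c' (fun b _ hb => Pi.single_eq_of_ne hb _) (by simp)]
      simp
  · rw [idiff_heavy _ x h]
    simp [dl, sg_heavy x h]

theorem Dl_apply (w : List (Sym Q)) (c : Coord) : Dl w c = (w.map (fun x => dl x c)).sum := by
  induction w with
  | nil => rfl
  | cons x w ih => rw [Dl_cons, Pi.add_apply, ih]; simp

theorem perm_iff_Dl (w : List (Sym Q)) :
    (w.map (tcode true)).Perm (w.map (tcode false)) ↔ Dl w = 0 := by
  rw [List.perm_iff_count]
  constructor
  · intro h
    funext c
    have h1 := count_diff (ccode c) w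
    rw [h (ccode c), sub_self] at h1
    rw [Dl_apply, Pi.zero_apply, h1]
    congr 1
    apply List.map_congr_left
    intro x _
    exact (idiff_ccode c x).symm
  · intro h a
    have key : (w.map (idiff a)).sum = 0 := by
      by_cases h2 : a = 2
      · subst h2
        have e : w.map (idiff 2) = w.map (fun x => - ∑ c : Coord, dl x c) :=
          List.map_congr_left (fun x _ => idiff_two x)
        rw [e]
        have e2 : ∀ v : List (Sym Q), (v.map (fun x => - ∑ c : Coord, dl x c)).sum =
            - ∑ c : Coord, Dl v c := by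
          intro v
          induction v with
          | nil => simp
          | cons x v ih =>
            rw [List.map_cons, List.sum_cons, ih, Dl_cons]
            simp only [Pi.add_apply]
            rw [Finset.sum_add_distrib]; ring
        rw [e2, h]; simp
      · by_cases hc : ∃ c, a = ccode c
        · obtain ⟨c, rfl⟩ := hc
          have e : w.map (idiff (ccode c)) = w.map (fun x => dl x c) :=
            List.map_congr_left (fun x _ => idiff_ccode c x)
          rw [e, ← Dl_apply, h]; rfl
        · push Not at hc
          have e : w.map (idiff a) = w.map (fun _ => (0 : ℤ)) :=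
            List.map_congr_left (fun x _ => idiff_other a h2 hc x)
          rw [e]; simp
    have h1 := count_diff a w
    rw [key] at h1
    have : ((List.count a (w.map (tcode true)) : ℕ) : ℤ) = (List.count a (w.map (tcode false)) : ℕ)
      := by omega
    exact_mod_cast this

/-- symbols in use -/
def RS (M : Mach Q) : Sym Q → Prop
  | .main q => M.RQ q
  | _ => True

theorem map_swt_light (w : List (Sym Q)) (hw : ∀ x ∈ w, swt x = 1) :
    w.map swt = List.replicate w.length 1 := by
  induction w with
  | nil => rfl
  | cons a w ih =>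
    rw [List.map_cons, ih (fun x hx => hw x (by simp [hx])), hw a (by simp), List.length_cons,
      List.replicate_succ]

theorem packet_light (x : Q × List Gen) : ∀ y ∈ packet x, swt y = 1 := by
  intro y hy
  simp only [packet, List.mem_append, List.mem_map, List.mem_cons, List.not_mem_nil, or_false] at hy
  rcases hy with ⟨z, _, rfl⟩ | (rfl | rfl) | ⟨z, _, rfl⟩ <;> rfl

theorem map_swt_H (M : Mach Q) (x : Sym Q) (hx : RS M x) : (M.H x).map swt = gs M.m (swt x) := by
  have hm := M.hm
  have hb := M.hb
  rcases x with _ | _ | _ | ⟨⟨kd, i, s⟩⟩ | q | _ | _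
  · simp [Mach.H, swt, gs]
  · simp [Mach.H, swt, gs]
  · simp [Mach.H, swt, gs]
    rw [← List.replicate_succ']; congr 1; omega
  · cases kd
    · simp [Mach.H, swt, gs]
      rw [← List.replicate_succ]; congr 1; omega
    · simp [Mach.H, swt, gs]
      rw [← List.replicate_succ, ← List.replicate_succ]; congr 1; omega
    · simp [Mach.H, swt, gs]
      rw [← List.replicate_succ, ← List.replicate_succ]; congr 1; omega
    · simp [Mach.H, swt, gs]
      omega
  · have hf := M.fits q hx
    rw [Mach.H, List.map_append, List.map_append,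
      map_swt_light ((M.T q).flatMap packet) (by
        intro y hy
        rw [List.mem_flatMap] at hy
        obtain ⟨z, _, hz⟩ := hy
        exact packet_light z y hz)]
    simp only [List.map_replicate, swt]
    rw [← List.replicate_add]
    simp [swt, gs]
    simp only [List.length_flatMap] at hf
    omega
  · simp [Mach.H, swt, gs]
    rw [← List.replicate_succ', ← List.replicate_succ]; congr 1; omega
  · simp [Mach.H, swt, gs]

theorem RS_closed (M : Mach Q) (x : Sym Q) (hx : RS M x) : ∀ y ∈ M.H x, RS M y := by
  intro y hy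
  rcases x with _ | _ | _ | ⟨⟨kd, i, s⟩⟩ | q | _ | _
  · simp [Mach.H] at hy; rcases hy with rfl | rfl | ⟨_, rfl⟩ <;> trivial
  · simp [Mach.H] at hy; rcases hy with rfl | rfl | ⟨_, rfl⟩ <;> trivial
  · simp [Mach.H] at hy; rcases hy with rfl | rfl | ⟨_, rfl⟩ | rfl <;> trivial
  · cases kd
    · simp [Mach.H] at hy; rcases hy with rfl | rfl | rfl | ⟨_, rfl⟩ <;> trivial
    · simp [Mach.H] at hy; rcases hy with rfl | rfl | rfl | rfl | ⟨_, rfl⟩ <;> trivial
    · simp [Mach.H] at hy; rcases hy with rfl | rfl | rfl | rfl | ⟨_, rfl⟩ <;> trivial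
    · simp [Mach.H] at hy; rcases hy with rfl | rfl | ⟨_, rfl⟩ | ⟨_, rfl⟩ <;> trivial
  · simp only [Mach.H, List.mem_append, List.mem_cons, List.not_mem_nil, or_false,
      List.mem_flatMap, List.mem_replicate] at hy
    rcases hy with (rfl | rfl) | ⟨z, hz, hy⟩ | ⟨_, rfl⟩
    · exact M.RQ_sink
    · trivial
    · simp only [packet, List.mem_append, List.mem_map, List.mem_cons, List.not_mem_nil,
        or_false] at hy
      rcases hy with ⟨z, _, rfl⟩ | (rfl | rfl) | ⟨z, _, rfl⟩
      · trivial
      · trivial
      · exact M.RQ_closed q hx z hz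
      · trivial
    · trivial
  · simp [Mach.H] at hy
    rcases hy with rfl | rfl | rfl | ⟨_, rfl⟩ | rfl
    · exact M.RQ_start
    · trivial
    · trivial
    · trivial
    · trivial
  · simp [Mach.H] at hy
    rcases hy with rfl | rfl | ⟨_, rfl⟩
    · exact M.RQ_start
    · trivial
    · trivial

/-- the pair system of a weighted transition system -/
def Mach.toPSys (M : Mach Q) : PSys (Sym Q) M.m where
  H := M.H
  tx := tcode true
  tz := tcode false
  wt := swt
  R := RS M
  p0 := .p0
  zp := .zp
  s0 := .main M.start
  closed := RS_closed M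
  wt_H := map_swt_H M
  wt12 := fun x _ => swt_cases x
  wtx := fun x _ => wc_tcode true x
  wtz := fun x _ => wc_tcode false x
  tx_ge := fun x _ => tcode_ge true x
  tz_ge := fun x _ => tcode_ge false x
  R_p0 := trivial
  R_zp := trivial
  wt_p0 := rfl
  wt_zp := rfl
  H_p0 := ⟨_, rfl⟩
  H_zp := ⟨_, rfl⟩

/-- Abelian powers of the coded word force a run of the transition system. -/
theorem Mach.forward (M : Mach Q) (hp : M.m.Prime) (k : ℕ) (hk : M.m ≤ k + 1) (N i l : ℕ)
    (hl : 1 ≤ l) (hlen : i + k * l ≤ (M.toPSys.C k N).length)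
    (hperm : ∀ j < k, (win (M.toPSys.C k N) (i + j * l) l).Perm (win (M.toPSys.C k N) i l)) :
    ∃ n, M.reach n M.start (Pi.single 0 (-1)) := by
  obtain ⟨n, o, h1, h2⟩ := M.toPSys.forward k M.hm hp hk N i l hl hlen hperm
  change o < (It M.H n [.p0]).length at h1
  change (((It M.H n [.p0]).drop o).map (tcode true)).Perm
    (((It M.H n [.p0]).drop o).map (tcode false)) at h2
  rw [perm_iff_Dl] at h2
  have hsol : M.Sol n [.p0] 0 := by
    refine ⟨(It M.H n [.p0]).take o, (It M.H n [.p0]).drop o,
      (List.take_append_drop o _).symm, ?_, by rw [zero_add]; exact h2⟩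
    intro h
    have := congrArg List.length h
    simp at this
    omega
  rcases n with _ | n
  · rw [Mach.Sol_zero] at hsol
    have := congrFun hsol none
    simp [dl, sg, sgnZ] at this
  · exact ⟨n, (M.Sol_p0 n).1 hsol⟩

/-- A run of the transition system gives abelian powers of the coded word. -/
theorem Mach.backward (M : Mach Q) (k : ℕ) (hk : 3 ≤ k) (n : ℕ)
    (h : M.reach n M.start (Pi.single 0 (-1))) :
    ∃ N i l, n < l ∧ i + k * l ≤ (M.toPSys.C k N).length ∧
      ∀ j < k, (win (M.toPSys.C k N) (i + j * l) l).Perm (win (M.toPSys.C k N) i l) := by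
  obtain ⟨u, v, h1, h2, h3⟩ := M.Sol_p0_slot n h
  have hd : (It M.H (n + 1) [.p0]).drop u.length = v := by rw [h1, List.drop_left]
  obtain ⟨h4, h5⟩ := M.toPSys.backward k hk n u.length h2 (by
    change (((It M.H (n + 1) [.p0]).drop u.length).map (tcode true)).Perm
      (((It M.H (n + 1) [.p0]).drop u.length).map (tcode false))
    rw [hd, perm_iff_Dl]; exact h3)
  refine ⟨n + 2, _, _, ?_, h4, h5⟩
  have := M.toPSys.It_p0_len_gt M.hm (n + 1)
  omega

end Pool.Agent.AbPow
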