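import Mathlib

/-!
Basic facts about the extension of a letter map to words and its iterates.
-/

set_option autoImplicit false

namespace Pool.Agent.AbPow

variable {α β : Type*}

/-- `It H n w` is the `n`-fold application of the morphism with letter images `H` to the word `w`. -/
def It (H : α → List α) (n : ℕ) (w : List α) : List α := (fun v : List α => v.flatMap H)^[n] w

@[simp] theorem It_zero (H : α → List α) (w : List α) : It H 0 w = w := rfl

theorem It_succ (H : α → List α) (n : ℕ) (w : List α) : It H (n + 1) w = It H n (w.flatMap H) := by
  simp [It, Function.iterate_succ_apply]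

theorem It_succ' (H : α → List α) (n : ℕ) (w : List α) :
    It H (n + 1) w = (It H n w).flatMap H := by
  simp [It, Function.iterate_succ_apply']

@[simp] theorem It_nil (H : α → List α) (n : ℕ) : It H n [] = [] := by
  induction n with
  | zero => rfl
  | succ n ih => rw [It_succ]; simpa using ih

theorem It_append (H : α → List α) (n : ℕ) (u v : List α) :
    It H n (u ++ v) = It H n u ++ It H n v := by
  induction n generalizing u v with
  | zero => rfl
  | succ n ih => rw [It_succ, It_succ, It_succ, List.flatMap_append, ih]

theorem It_cons (H : α → List α) (n : ℕ) (x : α) (v : List α) :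
    It H n (x :: v) = It H n [x] ++ It H n v := by
  rw [← List.singleton_append, It_append]

theorem It_single_succ (H : α → List α) (n : ℕ) (x : α) : It H (n + 1) [x] = It H n (H x) := by
  rw [It_succ]; simp

theorem It_replicate (H : α → List α) (n k : ℕ) (x : α) :
    It H n (List.replicate k x) = (List.replicate k (It H n [x])).flatten := by
  induction k with
  | zero => simp
  | succ k ih => rw [List.replicate_succ, It_cons, ih, List.replicate_succ, List.flatten_cons]

/-- All letters of the iterates stay inside a closed set. -/
theorem It_closed (H : α → List α) (P : α → Prop) (hP : ∀ x, P x → ∀ y ∈ H x, P y) (n : ℕ)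
    (w : List α) (hw : ∀ x ∈ w, P x) : ∀ x ∈ It H n w, P x := by
  induction n generalizing w with
  | zero => simpa using hw
  | succ n ih =>
    rw [It_succ]
    apply ih
    intro x hx
    rw [List.mem_flatMap] at hx
    obtain ⟨a, ha, hx⟩ := hx
    exact hP a (hw a ha) x hx

/-- Transport of iterates along a letter map, on a closed set. -/
theorem It_map (H : α → List α) (H' : β → List β) (f : α → β) (P : α → Prop)
    (hP : ∀ x, P x → ∀ y ∈ H x, P y) (hH : ∀ x, P x → H' (f x) = (H x).map f) (n : ℕ)
    (w : List α) (hw : ∀ x ∈ w, P x) : It H' n (w.map f) = (It H n w).map f := by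
  induction n generalizing w with
  | zero => rfl
  | succ n ih =>
    rw [It_succ, It_succ, ← ih]
    · congr 1
      clear ih
      induction w with
      | nil => rfl
      | cons a w ihw =>
        rw [List.map_cons, List.flatMap_cons, List.flatMap_cons, List.map_append, ihw, hH a]
        · exact hw a (by simp)
        · intro x hx; exact hw x (by simp [hx])
    · intro x hx
      rw [List.mem_flatMap] at hx
      obtain ⟨a, ha, hx⟩ := hx
      exact hP a (hw a ha) x hx

theorem It_length_ge (H : α → List α) (P : α → Prop) (hP : ∀ x, P x → ∀ y ∈ H x, P y) (c : ℕ)
    (hc : ∀ x, P x → c ≤ (H x).length) (n : ℕ)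
    (w : List α) (hw : ∀ x ∈ w, P x) : c * (It H n w).length ≤ (It H (n + 1) w).length := by
  rw [It_succ']
  have h := It_closed H P hP n w hw
  generalize It H n w = v at h
  induction v with
  | nil => simp
  | cons a v ih =>
    rw [List.flatMap_cons, List.length_append, List.length_cons]
    have h1 := hc a (h a (by simp))
    have h2 := ih (fun x hx => h x (by simp [hx]))
    nlinarith

end Pool.Agent.AbPow
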