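import Pool.Agent.MP_e5f80e_lc.Inst

/-!
The concrete transition system: it guesses three unary numbers and a history of a ring
computation; the weights force the history to be a shift of itself.
-/

set_option autoImplicit false

namespace Pool.Agent.AbPow

/-- A ring automaton: cells, a local rule, a blank, a mark, halting cells. -/
structure RingA (Cell : Type) where
  /-- all cells -/
  cells : List Cell
  complete : ∀ c, c ∈ cells
  /-- digit of a cell -/
  code : Cell → ℕ
  /-- base -/
  b : ℕ
  inj : Function.Injective code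
  pos : ∀ c, 1 ≤ code c
  lt : ∀ c, code c < b
  /-- blank cell -/
  blank : Cell
  /-- mark -/
  mark : Cell
  /-- local rule -/
  f : Cell → Cell → Cell → Cell
  /-- halting cells -/
  hlt : Cell → Bool

/-- states of the transition system -/
inductive St (Cell : Type)
  | p0 | p1 | p2 | p3 | p4 | initL | cl | sink
  | chain (l : List Cell)
  | run (a b : Cell)

namespace RingA

variable {Cell : Type} (R : RingA Cell)

/-- weight of writing the digit of `c` in coordinate `i` -/
def dig (i : Fin 5) (c : Cell) : List Gen := List.replicate (R.code c) ⟨.expo, i, false⟩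

/-- transitions -/
def T (c0 : Cell) (rest : List Cell) : St Cell → List (St Cell × List Gen)
  | .p0 => [(.p0, []), (.p1, [⟨.lin, 1, true⟩, ⟨.quad, 4, true⟩])]
  | .p1 => [(.p1, []), (.p2, [⟨.lin, 1, false⟩, ⟨.lin, 3, true⟩, ⟨.quad, 4, false⟩])]
  | .p2 => [(.p2, []), (.p3, [⟨.lin, 1, false⟩, ⟨.lin, 2, true⟩, ⟨.quad, 4, false⟩])]
  | .p3 => [(.p3, []), (.initL, [])]
  | .initL => [(.initL, R.dig 4 R.blank), (.chain rest, R.dig 4 c0)]
  | .chain [] => (.chain [], R.dig 4 R.blank) ::
      R.cells.map (fun s => (.run R.mark s, R.dig 3 s ++ R.dig 4 R.mark))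
  | .chain (a :: l) => [(.chain l, R.dig 4 a)]
  | .run a c => R.cells.map (fun s => (.run c s, R.dig 3 s ++ R.dig 4 (R.f a c s))) ++
      (if R.hlt c then R.cells.map (fun s => (.cl, R.dig 3 s)) else [])
  | .cl => R.cells.map (fun s => (.cl, R.dig 3 s)) ++ [(.p4, [])]
  | .p4 => [(.p4, []), (.sink, [⟨.expo, 2, false⟩, ⟨.cst, 0, true⟩])]
  | .sink => []

/-- the states in use for a given input -/
def RQ (rest : List Cell) : St Cell → Prop
  | .chain l => l <:+ rest
  | _ => True

theorem RQ_closed (c0 : Cell) (rest : List Cell) (q : St Cell) (hq : RQ rest q) :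
    ∀ x ∈ R.T c0 rest q, RQ rest x.1 := by
  intro x hx
  rcases q with _ | _ | _ | _ | _ | _ | _ | _ | l | ⟨a, c⟩
  · simp [T] at hx; rcases hx with rfl | rfl <;> trivial
  · simp [T] at hx; rcases hx with rfl | rfl <;> trivial
  · simp [T] at hx; rcases hx with rfl | rfl <;> trivial
  · simp [T] at hx; rcases hx with rfl | rfl <;> trivial
  · simp [T] at hx; rcases hx with rfl | rfl <;> trivial
  · simp [T] at hx
    rcases hx with rfl | rfl
    · trivial
    · exact List.suffix_rfl
  · simp [T] at hx
    rcases hx with ⟨a, _, rfl⟩ | rfl <;> trivial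
  · simp [T] at hx
  · rcases l with _ | ⟨a, l⟩
    · simp [T] at hx
      rcases hx with rfl | ⟨a, _, rfl⟩
      · exact List.nil_suffix
      · trivial
    · simp [T] at hx
      subst hx
      exact (List.suffix_cons a l).trans hq
  · simp only [T, List.mem_append, List.mem_map] at hx
    rcases hx with ⟨s, _, rfl⟩ | hx
    · trivial
    · split_ifs at hx
      · simp at hx
        obtain ⟨a, _, rfl⟩ := hx
        trivial
      · simp at hx

/-- size bound for the packets -/
def bound (R : RingA Cell) : ℕ := (2 * R.cells.length + 2) * (4 * R.b + 10)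

theorem flatMap_len_le {α β : Type*} (l : List α) (g : α → List β) (c : ℕ)
    (h : ∀ x ∈ l, (g x).length ≤ c) : (l.flatMap g).length ≤ l.length * c := by
  induction l with
  | nil => simp
  | cons a l ih =>
    rw [List.flatMap_cons, List.length_append, List.length_cons, add_mul, one_mul]
    have h1 := h a (by simp)
    have h2 := ih (fun x hx => h x (by simp [hx]))
    omega

theorem T_len (c0 : Cell) (rest : List Cell) (q : St Cell) :
    ((R.T c0 rest q).flatMap packet).length ≤ R.bound := by
  have hb : 1 < R.b := lt_of_le_of_lt (R.pos R.blank) (R.lt R.blank)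
  have hG : ∀ x ∈ R.T c0 rest q, (packet x).length ≤ 4 * R.b + 10 := by
    intro x hx
    rw [packet_length]
    have hc : ∀ c, R.code c ≤ R.b := fun c => (R.lt c).le
    have hx2 : x.2.length ≤ 2 * R.b + 3 := by
      rcases q with _ | _ | _ | _ | _ | _ | _ | _ | l | ⟨a, c⟩
      · simp [T] at hx; rcases hx with rfl | rfl <;> simp
      · simp [T] at hx; rcases hx with rfl | rfl <;> simp
      · simp [T] at hx; rcases hx with rfl | rfl <;> simp
      · simp [T] at hx; rcases hx with rfl | rfl <;> simp
      · simp [T] at hx; rcases hx with rfl | rfl <;> simp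
      · simp [T] at hx
        rcases hx with rfl | rfl
        · simp [dig]; have := hc R.blank; omega
        · simp [dig]; have := hc c0; omega
      · simp [T] at hx
        rcases hx with ⟨a, _, rfl⟩ | rfl
        · simp [dig]; have := hc a; omega
        · simp
      · simp [T] at hx
      · rcases l with _ | ⟨a, l⟩
        · simp [T] at hx
          rcases hx with rfl | ⟨a, _, rfl⟩
          · simp [dig]; have := hc R.blank; omega
          · simp [dig]; have := hc R.mark; have := hc a; omega
        · simp [T] at hx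
          subst hx
          simp [dig]; have := hc a; omega
      · simp only [T, List.mem_append, List.mem_map] at hx
        rcases hx with ⟨s, _, rfl⟩ | hx
        · simp [dig]; have := hc s; have := hc (R.f a c s); omega
        · split_ifs at hx
          · simp at hx
            obtain ⟨a, _, rfl⟩ := hx
            simp [dig]; have := hc a; omega
          · simp at hx
    omega
  refine (flatMap_len_le _ _ _ hG).trans ?_
  rw [bound]
  apply Nat.mul_le_mul_right
  have hne : 1 ≤ R.cells.length := List.length_pos_of_mem (R.complete R.blank)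
  rcases q with _ | _ | _ | _ | _ | _ | _ | _ | l | ⟨a, c⟩
  · simp [T]
  · simp [T]
  · simp [T]
  · simp [T]
  · simp [T]
  · simp [T]
  · simp [T]; omega
  · simp [T]
  · rcases l with _ | ⟨a, l⟩
    · simp [T]; omega
    · simp [T]
  · simp only [T, List.length_append, List.length_map]
    split_ifs <;> simp <;> omega

/-- the transition system of a ring automaton with input row `c0 :: rest` -/
def mach (m : ℕ) (hm : R.bound + 7 ≤ m) (c0 : Cell) (rest : List Cell) : Mach (St Cell) where
  T := R.T c0 rest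
  sink := .sink
  start := .p0
  m := m
  b := R.b
  RQ := RQ rest
  T_sink := rfl
  RQ_sink := trivial
  RQ_start := trivial
  RQ_closed := R.RQ_closed c0 rest
  fits := fun q _ => by have := R.T_len c0 rest q; omega
  hb := by
    have : R.b ≤ R.bound := by
      rw [bound]; nlinarith
    omega
  hm := by omega

/-- value of a digit string whose first digit has level `n - 1` -/
def V : ℕ → List Cell → ℕ
  | _, [] => 0
  | 0, _ :: _ => 0
  | n + 1, c :: l => R.code c * R.b ^ n + V n l

@[simp] theorem V_nil (n : ℕ) : R.V n [] = 0 := by cases n <;> rfl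

theorem V_cons (n : ℕ) (c : Cell) (l : List Cell) :
    R.V (n + 1) (c :: l) = R.code c * R.b ^ n + R.V n l := rfl

/-- A successful run of the local rule: reading `xs` and producing `ys`. -/
inductive RunOK : Cell → Cell → List Cell → List Cell → Prop
  | stop (a c x : Cell) (xs : List Cell) (h : R.hlt c = true) : RunOK a c (x :: xs) []
  | step (a c s : Cell) (xs ys : List Cell) (h : RunOK c s xs ys) :
      RunOK a c (s :: xs) (R.f a c s :: ys)

theorem gval_dig (n : ℕ) (i : Fin 5) (c : Cell) :
    gval R.b n (R.dig i c) = Pi.single i (-((R.code c * R.b ^ n : ℕ) : ℤ)) := by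
  rw [dig]
  generalize R.code c = k
  induction k with
  | zero => simp
  | succ k ih =>
    rw [List.replicate_succ, gval_cons, ih, Gen.val, ← Pi.single_add]
    congr 1
    simp [sgnZ, Kind.val]
    ring

/-- the description vector -/
def vec (K X Y : ℕ) : Fin 5 → ℤ :=
  Pi.single 0 (-1) + Pi.single 2 ((R.b ^ K : ℕ) : ℤ) + Pi.single 3 (X : ℤ) + Pi.single 4 (Y : ℤ)

theorem vec_zero (K X Y : ℕ) : R.vec K X Y 0 = -1 := by simp [vec]
theorem vec_one (K X Y : ℕ) : R.vec K X Y 1 = 0 := by simp [vec]
theorem vec_two (K X Y : ℕ) : R.vec K X Y 2 = ((R.b ^ K : ℕ) : ℤ) := by simp [vec]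
theorem vec_three (K X Y : ℕ) : R.vec K X Y 3 = X := by simp [vec]
theorem vec_four (K X Y : ℕ) : R.vec K X Y 4 = Y := by simp [vec]

theorem vec_dig3 (K X Y n : ℕ) (c : Cell) (O : Fin 5 → ℤ) :
    O + gval R.b n (R.dig 3 c) = R.vec K X Y ↔ O = R.vec K (R.code c * R.b ^ n + X) Y := by
  rw [gval_dig, vec, vec]
  constructor
  · intro h
    rw [← sub_eq_zero] at h ⊢
    rw [← h]
    funext i
    fin_cases i <;> simp [Pi.single_apply] <;> ring
  · intro h
    rw [← sub_eq_zero] at h ⊢
    rw [← h]
    funext i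
    fin_cases i <;> simp [Pi.single_apply] <;> ring

theorem vec_dig4 (K X Y n : ℕ) (c : Cell) (O : Fin 5 → ℤ) :
    O + gval R.b n (R.dig 4 c) = R.vec K X Y ↔ O = R.vec K X (R.code c * R.b ^ n + Y) := by
  rw [gval_dig, vec, vec]
  constructor
  · intro h
    rw [← sub_eq_zero] at h ⊢
    rw [← h]
    funext i
    fin_cases i <;> simp [Pi.single_apply] <;> ring
  · intro h
    rw [← sub_eq_zero] at h ⊢
    rw [← h]
    funext i
    fin_cases i <;> simp [Pi.single_apply] <;> ring

theorem vec_dig34 (K X Y n : ℕ) (c d : Cell) (O : Fin 5 → ℤ) :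
    O + gval R.b n (R.dig 3 c ++ R.dig 4 d) = R.vec K X Y ↔
      O = R.vec K (R.code c * R.b ^ n + X) (R.code d * R.b ^ n + Y) := by
  rw [gval_append, ← add_assoc, vec_dig4, vec_dig3]

variable {R} {m : ℕ} {hm : R.bound + 7 ≤ m} {c0 : Cell} {rest : List Cell}

theorem zero_ne {O : Fin 5 → ℤ} (h : O 0 = -1) : O ≠ 0 := by
  rintro rfl; simp at h

theorem reach_p4 (n : ℕ) (O : Fin 5 → ℤ) (h : (R.mach m hm c0 rest).reach n .p4 O)
    (h0 : O 0 = -1) : ∃ K < n, O = R.vec K 0 0 := by
  induction n generalizing O with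
  | zero => exact absurd h (zero_ne h0)
  | succ n ih =>
    rcases h with h | ⟨x, hx, h⟩
    · exact absurd h (zero_ne h0)
    · simp only [mach, T, List.mem_cons, List.not_mem_nil, or_false] at hx
      rcases hx with rfl | rfl
      · rw [gval_nil, add_zero] at h
        obtain ⟨K, hK, hO⟩ := ih O h h0
        exact ⟨K, by omega, hO⟩
      · have h1 := ((R.mach m hm c0 rest).reach_sink n _).1 h
        refine ⟨n, by omega, ?_⟩
        have h2 : O = - gval R.b n [⟨.expo, 2, false⟩, ⟨.cst, 0, true⟩] := by
          rw [eq_neg_iff_add_eq_zero]; exact h1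
        rw [h2, vec]
        funext i
        fin_cases i <;> simp [gval, Gen.val, Kind.val, sgnZ, Pi.single_apply]

theorem back_p4 (n K : ℕ) (h : K < n) : (R.mach m hm c0 rest).reach n .p4 (R.vec K 0 0) := by
  induction n with
  | zero => omega
  | succ n ih =>
    right
    by_cases hK : K < n
    · exact ⟨(.p4, []), by simp [mach, T], by rw [gval_nil, add_zero]; exact ih hK⟩
    · obtain rfl : K = n := by omega
      refine ⟨(.sink, [⟨.expo, 2, false⟩, ⟨.cst, 0, true⟩]), by simp [mach, T], ?_⟩
      apply ((R.mach m hm c0 rest).reach_sink K _).2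
      change R.vec K 0 0 + gval R.b K [⟨.expo, 2, false⟩, ⟨.cst, 0, true⟩] = 0
      rw [vec]
      funext i
      fin_cases i <;> simp [gval, Gen.val, Kind.val, sgnZ, Pi.single_apply]

theorem O_dig (n : ℕ) (O : Fin 5 → ℤ) (G : List Gen) (hG : ∀ x ∈ G, x.i ≠ 0) :
    (O + gval R.b n G) 0 = O 0 := by
  rw [Pi.add_apply]
  have : gval R.b n G 0 = 0 := by
    induction G with
    | nil => rfl
    | cons x G ih =>
      rw [gval_cons, Pi.add_apply, ih (fun y hy => hG y (by simp [hy])), Gen.val,
        Pi.single_eq_of_ne (fun h => hG x (by simp) h.symm)]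
      rfl
  rw [this, add_zero]

theorem dig_ne (i : Fin 5) (hi : i ≠ 0) (c : Cell) : ∀ x ∈ R.dig i c, x.i ≠ 0 := by
  intro x hx
  rw [dig, List.mem_replicate] at hx
  rw [hx.2]; exact hi

theorem reach_cl (n : ℕ) (O : Fin 5 → ℤ) (h : (R.mach m hm c0 rest).reach n .cl O)
    (h0 : O 0 = -1) : ∃ K xs, K + xs.length < n ∧ O = R.vec K (R.V n xs) 0 := by
  induction n generalizing O with
  | zero => exact absurd h (zero_ne h0)
  | succ n ih =>
    rcases h with h | ⟨x, hx, h⟩
    · exact absurd h (zero_ne h0)
    · simp only [mach, T, List.mem_append, List.mem_map, List.mem_cons, List.not_mem_nil,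
        or_false] at hx
      rcases hx with ⟨s, _, rfl⟩ | rfl
      · obtain ⟨K, xs, h1, h2⟩ := ih _ h (by
          change (O + gval R.b n (R.dig 3 s)) 0 = -1
          rw [O_dig n O _ (dig_ne 3 (by decide) s)]; exact h0)
        refine ⟨K, s :: xs, by simp; omega, ?_⟩
        exact (R.vec_dig3 _ _ _ _ _ _).1 h2
      · rw [gval_nil, add_zero] at h
        obtain ⟨K, hK, hO⟩ := reach_p4 n O h h0
        exact ⟨K, [], by simp; omega, by simpa using hO⟩

theorem back_cl (n K : ℕ) (xs : List Cell) (h : K + xs.length + 1 < n) :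
    (R.mach m hm c0 rest).reach n .cl (R.vec K (R.V n xs) 0) := by
  induction n generalizing xs with
  | zero => omega
  | succ n ih =>
    right
    rcases xs with _ | ⟨s, xs⟩
    · refine ⟨(.p4, []), by simp [mach, T], ?_⟩
      rw [gval_nil, add_zero, V_nil]
      apply back_p4
      simp at h; omega
    · refine ⟨(.cl, R.dig 3 s), ?_, ?_⟩
      · simp only [mach, T, List.mem_append, List.mem_map]
        left
        exact ⟨s, R.complete s, rfl⟩
      have := ih xs (by simp at h; omega)
      have e : R.vec K (R.V (n + 1) (s :: xs)) 0 + gval R.b n (R.dig 3 s) =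
          R.vec K (R.V n xs) 0 := (R.vec_dig3 _ _ _ _ _ _).2 rfl
      change (R.mach m hm c0 rest).reach n .cl
        (R.vec K (R.V (n + 1) (s :: xs)) 0 + gval R.b n (R.dig 3 s))
      rw [e]; exact this

theorem reach_run (n : ℕ) (a c : Cell) (O : Fin 5 → ℤ)
    (h : (R.mach m hm c0 rest).reach n (.run a c) O)
    (h0 : O 0 = -1) : ∃ K xs ys, K + xs.length < n ∧ R.RunOK a c xs ys ∧
      O = R.vec K (R.V n xs) (R.V n ys) := by
  induction n generalizing a c O with
  | zero => exact absurd h (zero_ne h0)
  | succ n ih =>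
    rcases h with h | ⟨x, hx, h⟩
    · exact absurd h (zero_ne h0)
    · simp only [mach, T, List.mem_append, List.mem_map] at hx
      rcases hx with ⟨s, _, rfl⟩ | hx
      · obtain ⟨K, xs, ys, h1, h2, h3⟩ := ih _ _ _ h (by
          change (O + gval R.b n (R.dig 3 s ++ R.dig 4 _)) 0 = -1
          rw [O_dig n O]
          · exact h0
          · intro x hx
            rw [List.mem_append] at hx
            rcases hx with hx | hx
            · exact dig_ne 3 (by decide) _ x hx
            · exact dig_ne 4 (by decide) _ x hx)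
        refine ⟨K, s :: xs, R.f a c s :: ys, by simp; omega, RunOK.step a c s xs ys h2, ?_⟩
        exact (R.vec_dig34 _ _ _ _ _ _ _).1 h3
      · split_ifs at hx with hc
        · rw [List.mem_map] at hx
          obtain ⟨s, _, rfl⟩ := hx
          obtain ⟨K, xs, h1, h2⟩ := reach_cl n _ h (by
            change (O + gval R.b n (R.dig 3 s)) 0 = -1
            rw [O_dig n O _ (dig_ne 3 (by decide) s)]; exact h0)
          refine ⟨K, s :: xs, [], by simp; omega, RunOK.stop a c s xs hc, ?_⟩
          exact (R.vec_dig3 _ _ _ _ _ _).1 h2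
        · simp at hx

theorem back_run (n K : ℕ) (a c : Cell) (xs ys : List Cell) (hr : R.RunOK a c xs ys)
    (h : K + xs.length + 1 < n) :
    (R.mach m hm c0 rest).reach n (.run a c) (R.vec K (R.V n xs) (R.V n ys)) := by
  induction hr generalizing n with
  | stop a c x xs hc =>
    obtain ⟨n, rfl⟩ : ∃ n', n = n' + 1 := ⟨n - 1, by omega⟩
    right
    refine ⟨(.cl, R.dig 3 x), ?_, ?_⟩
    · simp only [mach, T, List.mem_append, List.mem_map]
      right
      rw [if_pos hc, List.mem_map]
      exact ⟨x, R.complete x, rfl⟩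
    · have e : R.vec K (R.V (n + 1) (x :: xs)) (R.V (n + 1) []) + gval R.b n (R.dig 3 x) =
          R.vec K (R.V n xs) 0 := by
        rw [V_nil]; exact (R.vec_dig3 _ _ _ _ _ _).2 rfl
      change (R.mach m hm c0 rest).reach n .cl (R.vec K (R.V (n + 1) (x :: xs))
        (R.V (n + 1) []) + gval R.b n (R.dig 3 x))
      rw [e]
      apply back_cl
      simp at h; omega
  | step a c s xs ys hr ih =>
    obtain ⟨n, rfl⟩ : ∃ n', n = n' + 1 := ⟨n - 1, by omega⟩
    right
    refine ⟨(.run c s, R.dig 3 s ++ R.dig 4 (R.f a c s)), ?_, ?_⟩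
    · simp only [mach, T, List.mem_append, List.mem_map]
      left
      exact ⟨s, R.complete s, rfl⟩
    · have e : R.vec K (R.V (n + 1) (s :: xs)) (R.V (n + 1) (R.f a c s :: ys)) +
          gval R.b n (R.dig 3 s ++ R.dig 4 (R.f a c s)) = R.vec K (R.V n xs) (R.V n ys) :=
        (R.vec_dig34 _ _ _ _ _ _ _).2 rfl
      change (R.mach m hm c0 rest).reach n (.run c s) (R.vec K (R.V (n + 1) (s :: xs))
        (R.V (n + 1) (R.f a c s :: ys)) + gval R.b n (R.dig 3 s ++ R.dig 4 (R.f a c s)))
      rw [e]
      apply ih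
      simp at h; omega

/-- Description of what happens from a state which still has to output the row `w`. -/
def DescW (R : RingA Cell) (n : ℕ) (w : List Cell) (O : Fin 5 → ℤ) : Prop :=
  ∃ K s xs ys, K + w.length + 1 + xs.length < n ∧ R.RunOK R.mark s xs ys ∧
    O = R.vec K (R.V (n - w.length) (s :: xs)) (R.V n (w ++ R.mark :: ys))

theorem DescW_cons (n : ℕ) (a : Cell) (w : List Cell) (O : Fin 5 → ℤ)
    (h : DescW R n w (O + gval R.b n (R.dig 4 a))) : DescW R (n + 1) (a :: w) O := by
  obtain ⟨K, s, xs, ys, h1, h2, h3⟩ := h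
  refine ⟨K, s, xs, ys, by simp; omega, h2, ?_⟩
  rw [List.length_cons, Nat.add_sub_add_right]
  exact (R.vec_dig4 _ _ _ _ _ _).1 h3

theorem reach_chain_nil (n : ℕ) (O : Fin 5 → ℤ)
    (h : (R.mach m hm c0 rest).reach n (.chain []) O)
    (h0 : O 0 = -1) : ∃ j, DescW R n (List.replicate j R.blank) O := by
  induction n generalizing O with
  | zero => exact absurd h (zero_ne h0)
  | succ n ih =>
    rcases h with h | ⟨x, hx, h⟩
    · exact absurd h (zero_ne h0)
    · simp only [mach, T, List.mem_cons, List.mem_map] at hx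
      rcases hx with rfl | ⟨s, _, rfl⟩
      · obtain ⟨j, hj⟩ := ih _ h (by
          change (O + gval R.b n (R.dig 4 R.blank)) 0 = -1
          rw [O_dig n O _ (dig_ne 4 (by decide) R.blank)]; exact h0)
        exact ⟨j + 1, DescW_cons n R.blank _ O hj⟩
      · refine ⟨0, ?_⟩
        obtain ⟨K, xs, ys, h1, h2, h3⟩ := reach_run n _ _ _ h (by
          change (O + gval R.b n (R.dig 3 s ++ R.dig 4 _)) 0 = -1
          rw [O_dig n O]
          · exact h0
          · intro x hx
            rw [List.mem_append] at hx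
            rcases hx with hx | hx
            · exact dig_ne 3 (by decide) _ x hx
            · exact dig_ne 4 (by decide) _ x hx)
        refine ⟨K, s, xs, ys, by simp; omega, h2, ?_⟩
        exact (R.vec_dig34 _ _ _ _ _ _ _).1 h3

theorem reach_chain (n : ℕ) (l : List Cell) (O : Fin 5 → ℤ)
    (h : (R.mach m hm c0 rest).reach n (.chain l) O)
    (h0 : O 0 = -1) : ∃ j, DescW R n (l ++ List.replicate j R.blank) O := by
  induction l generalizing n O with
  | nil => exact reach_chain_nil n O h h0
  | cons a l ih =>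
    rcases n with _ | n
    · exact absurd h (zero_ne h0)
    rcases h with h | ⟨x, hx, h⟩
    · exact absurd h (zero_ne h0)
    · simp only [mach, T, List.mem_cons, List.not_mem_nil, or_false] at hx
      subst hx
      obtain ⟨j, hj⟩ := ih n _ h (by
          change (O + gval R.b n (R.dig 4 a)) 0 = -1
          rw [O_dig n O _ (dig_ne 4 (by decide) a)]; exact h0)
      exact ⟨j, DescW_cons n a _ O hj⟩

theorem reach_initL (n : ℕ) (O : Fin 5 → ℤ)
    (h : (R.mach m hm c0 rest).reach n .initL O)
    (h0 : O 0 = -1) : ∃ i j, DescW R n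
      (List.replicate i R.blank ++ (c0 :: rest ++ List.replicate j R.blank)) O := by
  induction n generalizing O with
  | zero => exact absurd h (zero_ne h0)
  | succ n ih =>
    rcases h with h | ⟨x, hx, h⟩
    · exact absurd h (zero_ne h0)
    · simp only [mach, T, List.mem_cons, List.not_mem_nil, or_false] at hx
      rcases hx with rfl | rfl
      · obtain ⟨i, j, hj⟩ := ih _ h (by
          change (O + gval R.b n (R.dig 4 R.blank)) 0 = -1
          rw [O_dig n O _ (dig_ne 4 (by decide) R.blank)]; exact h0)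
        exact ⟨i + 1, j, DescW_cons n R.blank _ O hj⟩
      · obtain ⟨j, hj⟩ := reach_chain n rest _ h (by
          change (O + gval R.b n (R.dig 4 c0)) 0 = -1
          rw [O_dig n O _ (dig_ne 4 (by decide) c0)]; exact h0)
        exact ⟨0, j, DescW_cons n c0 _ O hj⟩

/-- rows -/
def IsRow (R : RingA Cell) (c0 : Cell) (rest : List Cell) (w : List Cell) : Prop :=
  ∃ i j, w = List.replicate i R.blank ++ (c0 :: rest ++ List.replicate j R.blank)

theorem reach_p3 (n : ℕ) (O : Fin 5 → ℤ)
    (h : (R.mach m hm c0 rest).reach n .p3 O)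
    (h0 : O 0 = -1) : ∃ n0 w, n0 < n ∧ IsRow R c0 rest w ∧ DescW R n0 w O := by
  induction n generalizing O with
  | zero => exact absurd h (zero_ne h0)
  | succ n ih =>
    rcases h with h | ⟨x, hx, h⟩
    · exact absurd h (zero_ne h0)
    · simp only [mach, T, List.mem_cons, List.not_mem_nil, or_false] at hx
      rcases hx with rfl | rfl
      · rw [gval_nil, add_zero] at h
        obtain ⟨n0, w, h1, h2⟩ := ih O h h0
        exact ⟨n0, w, by omega, h2⟩
      · rw [gval_nil, add_zero] at h
        obtain ⟨i, j, hj⟩ := reach_initL n O h h0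
        exact ⟨n, _, by omega, ⟨i, j, rfl⟩, hj⟩

theorem reach_p2 (n : ℕ) (O : Fin 5 → ℤ)
    (h : (R.mach m hm c0 rest).reach n .p2 O)
    (h0 : O 0 = -1) : ∃ (u2 n0 : ℕ) (w : List Cell), u2 < n ∧ IsRow R c0 rest w ∧ DescW R n0 w
      (O + (Pi.single 1 (-(u2 : ℤ)) + Pi.single 2 (u2 : ℤ) +
        Pi.single 4 (-((u2.choose 2 : ℕ) : ℤ)))) := by
  induction n generalizing O with
  | zero => exact absurd h (zero_ne h0)
  | succ n ih =>
    rcases h with h | ⟨x, hx, h⟩
    · exact absurd h (zero_ne h0)
    · simp only [mach, T, List.mem_cons, List.not_mem_nil, or_false] at hx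
      rcases hx with rfl | rfl
      · rw [gval_nil, add_zero] at h
        obtain ⟨u2, n0, w, h1, h2⟩ := ih O h h0
        exact ⟨u2, n0, w, by omega, h2⟩
      · obtain ⟨n0, w, h1, h2, h3⟩ := reach_p3 n _ h (by
          change (O + gval R.b n _) 0 = -1
          rw [O_dig n O _ (by simp)]; exact h0)
        refine ⟨n, n0, w, by omega, h2, ?_⟩
        have e : gval R.b n [⟨Kind.lin, 1, false⟩, ⟨Kind.lin, 2, true⟩, ⟨Kind.quad, 4, false⟩] =
            Pi.single 1 (-(n : ℤ)) + Pi.single 2 (n : ℤ) +
              Pi.single 4 (-((n.choose 2 : ℕ) : ℤ)) := by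
          simp [gval, Gen.val, Kind.val, sgnZ, add_assoc]
        rw [← e]; exact h3

theorem reach_p1 (n : ℕ) (O : Fin 5 → ℤ)
    (h : (R.mach m hm c0 rest).reach n .p1 O)
    (h0 : O 0 = -1) : ∃ (u3 u2 n0 : ℕ) (w : List Cell), u3 < n ∧ IsRow R c0 rest w ∧ DescW R n0 w
      (O + (Pi.single 1 (-(u3 : ℤ)) + Pi.single 3 (u3 : ℤ) +
        Pi.single 4 (-((u3.choose 2 : ℕ) : ℤ))) + (Pi.single 1 (-(u2 : ℤ)) + Pi.single 2 (u2 : ℤ) +
        Pi.single 4 (-((u2.choose 2 : ℕ) : ℤ)))) := by
  induction n generalizing O with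
  | zero => exact absurd h (zero_ne h0)
  | succ n ih =>
    rcases h with h | ⟨x, hx, h⟩
    · exact absurd h (zero_ne h0)
    · simp only [mach, T, List.mem_cons, List.not_mem_nil, or_false] at hx
      rcases hx with rfl | rfl
      · rw [gval_nil, add_zero] at h
        obtain ⟨u3, u2, n0, w, h1, h2⟩ := ih O h h0
        exact ⟨u3, u2, n0, w, by omega, h2⟩
      · obtain ⟨u2, n0, w, h1, h2, h3⟩ := reach_p2 n _ h (by
          change (O + gval R.b n _) 0 = -1
          rw [O_dig n O _ (by simp)]; exact h0)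
        refine ⟨n, u2, n0, w, by omega, h2, ?_⟩
        have e : gval R.b n [⟨Kind.lin, 1, false⟩, ⟨Kind.lin, 3, true⟩, ⟨Kind.quad, 4, false⟩] =
            Pi.single 1 (-(n : ℤ)) + Pi.single 3 (n : ℤ) +
              Pi.single 4 (-((n.choose 2 : ℕ) : ℤ)) := by
          simp [gval, Gen.val, Kind.val, sgnZ, add_assoc]
        rw [← e]; exact h3

theorem reach_p0 (n : ℕ) (O : Fin 5 → ℤ)
    (h : (R.mach m hm c0 rest).reach n .p0 O)
    (h0 : O 0 = -1) : ∃ (u1 u3 u2 n0 : ℕ) (w : List Cell), IsRow R c0 rest w ∧ DescW R n0 w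
      (O + (Pi.single 1 (u1 : ℤ) + Pi.single 4 ((u1.choose 2 : ℕ) : ℤ)) +
        (Pi.single 1 (-(u3 : ℤ)) + Pi.single 3 (u3 : ℤ) +
        Pi.single 4 (-((u3.choose 2 : ℕ) : ℤ))) + (Pi.single 1 (-(u2 : ℤ)) + Pi.single 2 (u2 : ℤ) +
        Pi.single 4 (-((u2.choose 2 : ℕ) : ℤ)))) := by
  induction n generalizing O with
  | zero => exact absurd h (zero_ne h0)
  | succ n ih =>
    rcases h with h | ⟨x, hx, h⟩
    · exact absurd h (zero_ne h0)
    · simp only [mach, T, List.mem_cons, List.not_mem_nil, or_false] at hx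
      rcases hx with rfl | rfl
      · rw [gval_nil, add_zero] at h
        exact ih O h h0
      · obtain ⟨u3, u2, n0, w, h1, h2, h3⟩ := reach_p1 n _ h (by
          change (O + gval R.b n _) 0 = -1
          rw [O_dig n O _ (by simp)]; exact h0)
        refine ⟨n, u3, u2, n0, w, h2, ?_⟩
        have e : gval R.b n [⟨Kind.lin, 1, true⟩, ⟨Kind.quad, 4, true⟩] =
            Pi.single 1 (n : ℤ) + Pi.single 4 ((n.choose 2 : ℕ) : ℤ) := by
          simp [gval, Gen.val, Kind.val, sgnZ]
        rw [← e]; exact h3

end RingA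

end Pool.Agent.AbPow
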