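import Pool.Agent.MP_e5f80e_lc.RingEq

/-!
Successful ring computations and the evolution of rows.
-/

set_option autoImplicit false

namespace Pool.Agent.AbPow

namespace RingA

variable {Cell : Type} (R : RingA Cell)

/-- evolution of the row `w`; everything outside `1..|w|` is the mark -/
def rows (w : List Cell) : ℕ → ℤ → Cell
  | 0, i => if i ≤ 0 then R.mark else (w[(i - 1).toNat]?).getD R.mark
  | r + 1, i => R.f (rows w r (i - 1)) (rows w r i) (rows w r (i + 1))

theorem rows_out (hmark : ∀ l r, R.f l R.mark r = R.mark) (w : List Cell) (r : ℕ) (i : ℤ)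
    (h : i ≤ 0 ∨ (w.length : ℤ) < i) : R.rows w r i = R.mark := by
  induction r with
  | zero =>
    rw [rows]
    split_ifs with h1
    · rfl
    · rw [List.getElem?_eq_none (by omega)]; rfl
  | succ r ih => rw [rows, ih, hmark]

/-- the rows written one after the other, each preceded by the mark -/
def sq (w : List Cell) (t : ℕ) : Cell :=
  R.rows w (t / (w.length + 1)) ((t % (w.length + 1) : ℕ) : ℤ)

theorem sq_eq (w : List Cell) (r i : ℕ) (hi : i ≤ w.length) :
    R.sq w (r * (w.length + 1) + i) = R.rows w r i := by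
  rw [sq]
  have h1 : (r * (w.length + 1) + i) / (w.length + 1) = r := by
    rw [mul_comm, Nat.mul_add_div (by omega), Nat.div_eq_of_lt (by omega), add_zero]
  have h2 : (r * (w.length + 1) + i) % (w.length + 1) = i := by
    rw [mul_comm, Nat.mul_add_mod, Nat.mod_eq_of_lt (by omega)]
  rw [h1, h2]

theorem sq_rec (hmark : ∀ l r, R.f l R.mark r = R.mark) (w : List Cell) (hw : w ≠ []) (t : ℕ) :
    R.f (R.sq w t) (R.sq w (t + 1)) (R.sq w (t + 2)) = R.sq w (t + 2 + w.length) := by
  have hK : 1 ≤ w.length := List.length_pos_of_ne_nil hw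
  set K := w.length with hKdef
  obtain ⟨r, i, hi, ht⟩ : ∃ r i, i ≤ K ∧ t + 1 = r * (K + 1) + i := by
    refine ⟨(t + 1) / (K + 1), (t + 1) % (K + 1), ?_, ?_⟩
    · have := Nat.mod_lt (t + 1) (show 0 < K + 1 by omega)
      omega
    · rw [mul_comm]; exact (Nat.div_add_mod _ _).symm
  have e1 : R.sq w (t + 1) = R.rows w r i := by rw [ht]; exact R.sq_eq w r i hi
  have e2 : R.sq w (t + 2 + K) = R.rows w (r + 1) i := by
    rw [show t + 2 + K = (r + 1) * (K + 1) + i by
      have : (r + 1) * (K + 1) = r * (K + 1) + (K + 1) := by ring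
      omega]
    exact R.sq_eq w (r + 1) i hi
  rw [e1, e2]
  rcases Nat.eq_zero_or_pos i with h0 | h0
  · subst h0
    rw [R.rows_out hmark w r _ (Or.inl (by simp)), hmark,
      R.rows_out hmark w (r + 1) _ (Or.inl (by simp))]
  · rw [rows]
    have e3 : R.sq w t = R.rows w r ((i : ℤ) - 1) := by
      rw [show t = r * (K + 1) + (i - 1) by omega, hKdef, R.sq_eq w r (i - 1) (by omega)]
      congr 1
      omega
    have e4 : R.sq w (t + 2) = R.rows w r ((i : ℤ) + 1) := by
      rcases Nat.lt_or_ge i K with h1 | h1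
      · rw [show t + 2 = r * (K + 1) + (i + 1) by omega, hKdef, R.sq_eq w r (i + 1) (by omega)]
        congr 1
      · have hiK : i = K := by omega
        rw [show t + 2 = (r + 1) * (K + 1) + 0 by
          have : (r + 1) * (K + 1) = r * (K + 1) + (K + 1) := by ring
          omega, hKdef, R.sq_eq w (r + 1) 0 (by omega),
          R.rows_out hmark w (r + 1) _ (Or.inl (by simp)),
          R.rows_out hmark w r _ (Or.inr (by omega))]
    rw [e3, e4]

/-- the word `sq (t+1), ..., sq (t+n)` -/
def seg (w : List Cell) (t n : ℕ) : List Cell := (List.range n).map (fun j => R.sq w (t + 1 + j))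

theorem seg_succ (w : List Cell) (t n : ℕ) :
    R.seg w t (n + 1) = R.sq w (t + 1) :: R.seg w (t + 1) n := by
  rw [seg, List.range_succ_eq_map, List.map_cons, List.map_map, seg]
  congr 1
  apply List.map_congr_left
  intro j _
  simp only [Function.comp, Nat.succ_eq_add_one]
  congr 1
  omega

theorem seg_length (w : List Cell) (t n : ℕ) : (R.seg w t n).length = n := by simp [seg]

theorem seg_add (w : List Cell) (t n k : ℕ) :
    R.seg w t (n + k) = R.seg w t n ++ R.seg w (t + n) k := by
  induction n generalizing t with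
  | zero => simp [seg]
  | succ n ih =>
    rw [show n + 1 + k = (n + k) + 1 by omega, seg_succ, seg_succ, ih, List.cons_append,
      show t + 1 + n = t + (n + 1) by omega]

theorem seg_first (w : List Cell) : R.seg w 0 w.length = w := by
  apply List.ext_getElem
  · simp [seg]
  · intro n h1 h2
    simp only [seg, List.getElem_map, List.getElem_range]
    have := R.sq_eq w 0 (0 + 1 + n) (by omega)
    rw [zero_mul, zero_add] at this
    rw [this, rows, if_neg (by omega)]
    rw [show ((((0 + 1 + n : ℕ)) : ℤ) - 1).toNat = n by omega, List.getElem?_eq_getElem h2]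
    rfl

theorem sq_mark (hmark : ∀ l r, R.f l R.mark r = R.mark) (w : List Cell) :
    R.sq w 0 = R.mark ∧ R.sq w (w.length + 1) = R.mark := by
  constructor
  · have := R.sq_eq w 0 0 (by omega)
    rw [zero_mul, zero_add] at this
    rw [this, R.rows_out hmark w 0 _ (Or.inl (by simp))]
  · have := R.sq_eq w 1 0 (by omega)
    rw [one_mul, add_zero] at this
    rw [this, R.rows_out hmark w 1 _ (Or.inl (by simp))]

/-- from a halting cell in the evolution to a successful run -/
theorem runOK_of_halt (hmark : ∀ l r, R.f l R.mark r = R.mark) (w : List Cell) (hw : w ≠ [])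
    (d t : ℕ) (hh : R.hlt (R.sq w (t + 1 + d)) = true) :
    R.RunOK (R.sq w t) (R.sq w (t + 1)) (R.seg w (t + 1) (w.length + d))
      (R.seg w (t + 1 + w.length) d) := by
  induction d generalizing t with
  | zero =>
    have hK : 1 ≤ w.length := List.length_pos_of_ne_nil hw
    obtain ⟨K, hK⟩ : ∃ K, w.length = K + 1 := ⟨w.length - 1, by omega⟩
    rw [add_zero, hK, seg_succ]
    have : R.seg w (t + 1 + (K + 1)) 0 = [] := by simp [seg]
    rw [this]
    exact RunOK.stop _ _ _ _ hh
  | succ d ih =>
    rw [show w.length + (d + 1) = (w.length + d) + 1 by omega, seg_succ, seg_succ]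
    have h1 := ih (t + 1) (by rw [← hh]; congr 2; omega)
    have e : R.sq w (t + 1 + w.length + 1) =
        R.f (R.sq w t) (R.sq w (t + 1)) (R.sq w (t + 1 + 1)) := by
      rw [show t + 1 + 1 = t + 2 by omega, R.sq_rec hmark w hw t]
      congr 1; omega
    rw [e]
    have h2 := RunOK.step (R := R) (R.sq w t) _ _ _ _ h1
    rw [show t + 1 + w.length + 1 = t + 1 + 1 + w.length by omega]
    exact h2

/-- from a successful run to a halting cell -/
theorem halt_of_runOK (hmark : ∀ l r, R.f l R.mark r = R.mark) (w : List Cell) (hw : w ≠ [])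
    (a c : Cell) (xs ys : List Cell) (h : R.RunOK a c xs ys) (t : ℕ)
    (ha : a = R.sq w t) (hc : c :: xs = R.seg w t (w.length + 1) ++ ys) :
    ∃ t', R.hlt (R.sq w t') = true := by
  have hK : 1 ≤ w.length := List.length_pos_of_ne_nil hw
  induction h generalizing t with
  | stop a c x xs hh =>
    rw [seg_succ, List.cons_append, List.cons.injEq] at hc
    exact ⟨t + 1, by rw [← hc.1]; exact hh⟩
  | step a c s xs ys h ih =>
    have hc' := hc
    obtain ⟨K, hK⟩ : ∃ K, w.length = K + 1 := ⟨w.length - 1, by omega⟩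
    rw [hK, seg_succ, seg_succ, List.cons_append, List.cons_append, List.cons.injEq,
      List.cons.injEq] at hc
    obtain ⟨h1, h2, h3⟩ := hc
    apply ih (t + 1) h1
    rw [hK, show K + 1 + 1 = 1 + (K + 1) by omega]
    have e : R.f a c s = R.sq w (t + 1 + w.length + 1) := by
      rw [ha, h1, h2, show t + 1 + 1 = t + 2 by omega, R.sq_rec hmark w hw t]
      congr 1; omega
    rw [e, hK] at h3
    rw [show 1 + (K + 1) = (K + 1) + 1 by omega, seg_add, h2, h3]
    rw [show R.seg w (t + 1) (K + 1) = R.sq w (t + 1 + 1) :: R.seg w (t + 1 + 1) K from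
      seg_succ _ _ _ _]
    simp [seg]

/-- Successful ring computations are exactly evolutions reaching a halting cell. -/
theorem success_iff (hmark : ∀ l r, R.f l R.mark r = R.mark) (hmk : R.hlt R.mark = false)
    (w : List Cell) (hw : w ≠ []) :
    (∃ s xs ys, s :: xs = w ++ R.mark :: ys ∧ R.RunOK R.mark s xs ys) ↔
      ∃ t, R.hlt (R.sq w t) = true := by
  constructor
  · rintro ⟨s, xs, ys, h1, h2⟩
    apply R.halt_of_runOK hmark w hw _ _ _ _ h2 0 (R.sq_mark hmark w).1.symm
    rw [h1, seg_add, seg_first, zero_add]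
    have : R.seg w w.length 1 = [R.mark] := by
      rw [seg_succ, (R.sq_mark hmark w).2]; simp [seg]
    rw [this]; simp
  · rintro ⟨t, ht⟩
    have ht0 : t ≠ 0 := by
      rintro rfl
      rw [(R.sq_mark hmark w).1, hmk] at ht
      cases ht
    obtain ⟨d, rfl⟩ : ∃ d, t = 0 + 1 + d := ⟨t - 1, by omega⟩
    have h1 := R.runOK_of_halt hmark w hw d 0 ht
    rw [(R.sq_mark hmark w).1] at h1
    refine ⟨_, _, _, ?_, h1⟩
    rw [← seg_succ, show w.length + d + 1 = w.length + (1 + d) by omega, seg_add, seg_add,
      seg_first, zero_add]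
    have : R.seg w w.length 1 = [R.mark] := by
      rw [seg_succ, (R.sq_mark hmark w).2]; simp [seg]
    rw [this, show 0 + 1 + w.length = w.length + 1 by omega]; simp

/-- quantitative form of one direction -/
theorem success_of_halt (hmark : ∀ l r, R.f l R.mark r = R.mark) (hmk : R.hlt R.mark = false)
    (w : List Cell) (hw : w ≠ []) (t : ℕ) (ht : R.hlt (R.sq w t) = true) :
    ∃ s xs ys, s :: xs = w ++ R.mark :: ys ∧ R.RunOK R.mark s xs ys ∧
      xs.length ≤ w.length + t := by
  have ht0 : t ≠ 0 := by
    rintro rfl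
    rw [(R.sq_mark hmark w).1, hmk] at ht
    cases ht
  obtain ⟨d, rfl⟩ : ∃ d, t = 0 + 1 + d := ⟨t - 1, by omega⟩
  have h1 := R.runOK_of_halt hmark w hw d 0 ht
  rw [(R.sq_mark hmark w).1] at h1
  refine ⟨_, _, _, ?_, h1, ?_⟩
  · rw [← seg_succ, show w.length + d + 1 = w.length + (1 + d) by omega, seg_add, seg_add,
      seg_first, zero_add]
    have : R.seg w w.length 1 = [R.mark] := by
      rw [seg_succ, (R.sq_mark hmark w).2]; simp [seg]
    rw [this, show 0 + 1 + w.length = w.length + 1 by omega]; simp
  · rw [seg_length]; omega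

end RingA

end Pool.Agent.AbPow
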