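import Pool.Agent.MP_e5f80e_lc.Morph

/-!
The skeleton morphism `1 ↦ 1 2 1^(m-3)`, `2 ↦ 1 2 2 1^(m-5)` on the letters (weights) `1, 2`,
for a prime `m`, and the analysis of additive powers (equal length and equal sum) in the words
`g^n (1^k 2)`.
-/

set_option autoImplicit false

namespace Pool.Agent.AbPow

/-- the skeleton morphism -/
def gs (m : ℕ) (x : ℕ) : List ℕ :=
  if x = 1 then 1 :: 2 :: List.replicate (m - 3) 1 else 1 :: 2 :: 2 :: List.replicate (m - 5) 1

theorem gs_one (m : ℕ) : gs m 1 = 1 :: 2 :: List.replicate (m - 3) 1 := by simp [gs]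
theorem gs_two (m : ℕ) : gs m 2 = 1 :: 2 :: 2 :: List.replicate (m - 5) 1 := by simp [gs]

theorem gs_length (m : ℕ) (hm : 7 ≤ m) (x : ℕ) (hx : x = 1 ∨ x = 2) :
    (gs m x).length + x = m := by
  rcases hx with rfl | rfl
  · rw [gs_one]; simp; omega
  · rw [gs_two]; simp; omega

theorem gs_sum (m : ℕ) (hm : 7 ≤ m) (x : ℕ) (hx : x = 1 ∨ x = 2) :
    (gs m x).sum = m := by
  rcases hx with rfl | rfl
  · rw [gs_one]; simp; omega
  · rw [gs_two]; simp; omega

theorem gs_closed (m : ℕ) (x : ℕ) : ∀ y ∈ gs m x, y = 1 ∨ y = 2 := by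
  intro y hy
  unfold gs at hy
  split_ifs at hy <;> simp at hy <;> omega

theorem flatMap_gs_length (m : ℕ) (hm : 7 ≤ m) (L : List ℕ) (hL : ∀ x ∈ L, x = 1 ∨ x = 2) :
    (L.flatMap (gs m)).length + L.sum = m * L.length := by
  induction L with
  | nil => simp
  | cons a L ih =>
    have h1 := gs_length m hm a (hL a (by simp))
    have h2 := ih (fun x hx => hL x (by simp [hx]))
    rw [List.flatMap_cons, List.length_append, List.sum_cons, List.length_cons, mul_add, mul_one]
    omega

theorem flatMap_gs_sum (m : ℕ) (hm : 7 ≤ m) (L : List ℕ) (hL : ∀ x ∈ L, x = 1 ∨ x = 2) :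
    (L.flatMap (gs m)).sum = m * L.length := by
  induction L with
  | nil => simp
  | cons a L ih =>
    have h1 := gs_sum m hm a (hL a (by simp))
    have h2 := ih (fun x hx => hL x (by simp [hx]))
    rw [List.flatMap_cons, List.sum_append, List.length_cons, mul_add, mul_one]
    omega

theorem decomp (m : ℕ) (hm : 7 ≤ m) (L : List ℕ) (hL : ∀ x ∈ L, x = 1 ∨ x = 2) (i : ℕ)
    (hi : i ≤ (L.flatMap (gs m)).length) :
    ∃ l v, ((L.flatMap (gs m)).take i).sum = m * l + v ∧ v < m ∧ v ≠ 2 ∧
      ((v ≤ 1 ∧ l ≤ L.length ∧ ((L.flatMap (gs m)).take i).sum = i + (L.take l).sum) ∨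
       (v = 3 ∧ l < L.length ∧ ((L.flatMap (gs m)).take i).sum = i + (L.take l).sum + 1) ∨
       (4 ≤ v ∧ l < L.length ∧ ((L.flatMap (gs m)).take i).sum = i + (L.take (l + 1)).sum)) ∧
      (l < L.length → i < ((L.take (l + 1)).flatMap (gs m)).length) := by
  induction L generalizing i with
  | nil =>
    simp at hi
    subst hi
    exact ⟨0, 0, by simp, by omega, by omega, Or.inl ⟨by omega, by simp, by simp⟩, by simp⟩
  | cons a L ih =>
    have ha := hL a (by simp)
    have hL' : ∀ x ∈ L, x = 1 ∨ x = 2 := fun x hx => hL x (by simp [hx])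
    have hlen := gs_length m hm a ha
    have hsum := gs_sum m hm a ha
    by_cases hlt : i < (gs m a).length
    · -- the position is inside the first image
      have htake : ((List.flatMap (gs m) (a :: L)).take i) = (gs m a).take i := by
        rw [List.flatMap_cons, List.take_append_of_le_length hlt.le]
      rw [htake]
      have hlast : i < (((a :: L).take (0 + 1)).flatMap (gs m)).length := by
        simpa using hlt
      rcases ha with rfl | rfl
      · rw [gs_one] at hlt ⊢
        simp at hlt
        match i with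
        | 0 => exact ⟨0, 0, by simp, by omega, by omega, Or.inl ⟨by omega, by simp, by simp⟩,
            fun _ => hlast⟩
        | 1 => exact ⟨0, 1, by simp, by omega, by omega, Or.inl ⟨by omega, by simp, by simp⟩,
            fun _ => hlast⟩
        | j + 2 =>
          have hj : min j (m - 3) = j := by omega
          refine ⟨0, 3 + j, ?_, by omega, by omega, ?_, fun _ => hlast⟩
          · simp [hj]; omega
          · by_cases hj0 : j = 0
            · right; left
              subst hj0
              simp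
            · right; right
              refine ⟨by omega, by simp, ?_⟩
              simp [hj]; omega
      · rw [gs_two] at hlt ⊢
        simp at hlt
        match i with
        | 0 => exact ⟨0, 0, by simp, by omega, by omega, Or.inl ⟨by omega, by simp, by simp⟩,
            fun _ => hlast⟩
        | 1 => exact ⟨0, 1, by simp, by omega, by omega, Or.inl ⟨by omega, by simp, by simp⟩,
            fun _ => hlast⟩
        | 2 => exact ⟨0, 3, by simp, by omega, by omega,
            Or.inr (Or.inl ⟨by omega, by simp, by simp⟩), fun _ => hlast⟩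
        | j + 3 =>
          have hj : min j (m - 5) = j := by omega
          refine ⟨0, 5 + j, ?_, by omega, by omega, ?_, fun _ => hlast⟩
          · simp [hj]; omega
          · right; right
            refine ⟨by omega, by simp, ?_⟩
            simp [hj]; omega
    · obtain ⟨i2, rfl⟩ : ∃ i2, i = (gs m a).length + i2 := ⟨i - (gs m a).length, by omega⟩
      have htake : ((List.flatMap (gs m) (a :: L)).take ((gs m a).length + i2)) =
          gs m a ++ (L.flatMap (gs m)).take i2 := by
        rw [List.flatMap_cons, List.take_append, List.take_of_length_le (by omega),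
          Nat.add_sub_cancel_left]
      rw [htake, List.sum_append, hsum]
      have hi2 : i2 ≤ (L.flatMap (gs m)).length := by
        rw [List.flatMap_cons, List.length_append] at hi; omega
      obtain ⟨l, v, h1, h2, h3, h4, h5⟩ := ih hL' i2 hi2
      refine ⟨l + 1, v, ?_, h2, h3, ?_, ?_⟩
      · rw [h1]; ring
      · rcases h4 with ⟨hv, hl, hs⟩ | ⟨hv, hl, hs⟩ | ⟨hv, hl, hs⟩
        · left
          refine ⟨hv, by simpa using hl, ?_⟩
          rw [hs, List.take_succ_cons, List.sum_cons]; omega
        · right; left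
          refine ⟨hv, by simpa using hl, ?_⟩
          rw [hs, List.take_succ_cons, List.sum_cons]; omega
        · right; right
          refine ⟨hv, by simpa using hl, ?_⟩
          rw [hs, List.take_succ_cons, List.sum_cons]; omega
      · intro hl
        have := h5 (by simpa using hl)
        rw [List.take_succ_cons, List.flatMap_cons, List.length_append]
        omega

/-- prefix sums grow at least as fast as positions -/
theorem sum_take_mono (L : List ℕ) (hL : ∀ x ∈ L, 1 ≤ x) (i l : ℕ) (h : i + l ≤ L.length) :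
    (L.take i).sum + l ≤ (L.take (i + l)).sum := by
  induction l with
  | zero => simp
  | succ l ih =>
    have h1 := ih (by omega)
    have hlt : i + l < L.length := by omega
    rw [show i + (l + 1) = i + l + 1 by ring, List.take_succ_eq_append_getElem hlt,
      List.sum_append]
    have := hL _ (List.getElem_mem hlt)
    simp
    omega

/-- pulling back an additive power through the skeleton morphism -/
theorem pull_back (m : ℕ) (hm : 7 ≤ m) (hp : m.Prime) (k : ℕ) (hk : m ≤ k + 1)
    (L : List ℕ) (hL : ∀ x ∈ L, x = 1 ∨ x = 2) (o l D : ℕ) (hl : 1 ≤ l)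
    (hlen : o + k * l ≤ (L.flatMap (gs m)).length)
    (hAP : ∀ j ≤ k, ((L.flatMap (gs m)).take (o + j * l)).sum =
      ((L.flatMap (gs m)).take o).sum + j * D) :
    ∃ o1 l1 D1, 1 ≤ l1 ∧ o1 + k * l1 ≤ L.length ∧
      (∀ j ≤ k, (L.take (o1 + j * l1)).sum = (L.take o1).sum + j * D1) ∧
      D = m * l1 ∧ D = D1 + l ∧ o < ((L.take (o1 + 1)).flatMap (gs m)).length := by
  classical
  set L' := L.flatMap (gs m) with hL'
  have hpos : ∀ x ∈ L', 1 ≤ x := by
    intro x hx
    rw [hL', List.mem_flatMap] at hx
    obtain ⟨a, _, hx⟩ := hx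
    rcases gs_closed m a x hx with h | h <;> omega
  have hdec : ∀ j ≤ k, ∃ lj v, (L'.take (o + j * l)).sum = m * lj + v ∧ v < m ∧ v ≠ 2 ∧
      ((v ≤ 1 ∧ lj ≤ L.length ∧ (L'.take (o + j * l)).sum = (o + j * l) + (L.take lj).sum) ∨
       (v = 3 ∧ lj < L.length ∧
          (L'.take (o + j * l)).sum = (o + j * l) + (L.take lj).sum + 1) ∨
       (4 ≤ v ∧ lj < L.length ∧
          (L'.take (o + j * l)).sum = (o + j * l) + (L.take (lj + 1)).sum)) ∧
      (lj < L.length → (o + j * l) < ((L.take (lj + 1)).flatMap (gs m)).length) := by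
    intro j hj
    apply decomp m hm L hL
    rw [← hL']
    have : j * l ≤ k * l := Nat.mul_le_mul_right l hj
    omega
  have hk1 : 1 ≤ k := by omega
  -- D ≥ l ≥ 1
  have hDl : l ≤ D := by
    have h1 := hAP 1 hk1
    have h2 := sum_take_mono L' hpos o l (by
      have : 1 * l ≤ k * l := Nat.mul_le_mul_right l hk1
      omega)
    rw [one_mul, one_mul] at h1
    omega
  -- m divides D
  have hmD : m ∣ D := by
    by_contra hnd
    have : Fact m.Prime := ⟨hp⟩
    have hD0 : (D : ZMod m) ≠ 0 := by
      rw [Ne, ZMod.natCast_eq_zero_iff]; exact hnd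
    -- find j < m with s0 + j D = 2 mod m
    set s0 : ℕ := (L'.take o).sum with hs0
    set x : ZMod m := (2 - (s0 : ZMod m)) / D with hx
    have hxv : ((x.val : ℕ) : ZMod m) = x := ZMod.natCast_zmod_val x
    have hxlt : x.val < m := ZMod.val_lt x
    obtain ⟨lj, v, h1, h2, h3, _, _⟩ := hdec x.val (by omega)
    rw [hAP x.val (by omega)] at h1
    have h4 : ((s0 + x.val * D : ℕ) : ZMod m) = ((m * lj + v : ℕ) : ZMod m) := by rw [h1]
    push_cast at h4
    rw [hxv, hx, div_mul_cancel₀ _ hD0, ZMod.natCast_self] at h4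
    have h5 : ((2 : ℕ) : ZMod m) = ((v : ℕ) : ZMod m) := by
      push_cast
      linear_combination h4
    rw [ZMod.natCast_eq_natCast_iff', Nat.mod_eq_of_lt (by omega : 2 < m),
      Nat.mod_eq_of_lt h2] at h5
    exact h3 h5.symm
  obtain ⟨l1, rfl⟩ := hmD
  have hl1 : 1 ≤ l1 := by
    rcases Nat.eq_zero_or_pos l1 with h | h
    · subst h; omega
    · exact h
  obtain ⟨l0, v, h1, h2, h3, h4, h5⟩ := hdec 0 (by omega)
  simp only [zero_mul, add_zero] at h1 h4 h5
  -- the quotient and remainder at j
  have hq : ∀ j ≤ k, ∀ lj v', (L'.take (o + j * l)).sum = m * lj + v' → v' < m →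
      lj = l0 + j * l1 ∧ v' = v := by
    intro j hj lj v' hjs hv'
    rw [hAP j hj, h1] at hjs
    have e1 : m * (l0 + j * l1) + v = m * lj + v' := by
      rw [← hjs]; ring
    have e2 : (m * (l0 + j * l1) + v) / m = l0 + j * l1 := by
      rw [Nat.mul_add_div (by omega), Nat.div_eq_of_lt h2, add_zero]
    have e3 : (m * lj + v') / m = lj := by
      rw [Nat.mul_add_div (by omega), Nat.div_eq_of_lt hv', add_zero]
    have e4 : lj = l0 + j * l1 := by rw [← e3, ← e1, e2]
    subst e4
    exact ⟨rfl, by omega⟩
  have hjl : ∀ j, j * (m * l1) = j * (m * l1 - l) + j * l := by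
    intro j
    rw [← mul_add]; congr 1; omega
  rcases h4 with ⟨hv, hl0, hs⟩ | ⟨hv, hl0, hs⟩ | ⟨hv, hl0, hs⟩
  · -- v ≤ 1
    have key : ∀ j ≤ k, l0 + j * l1 ≤ L.length ∧
        (L.take (l0 + j * l1)).sum = (L.take l0).sum + j * (m * l1 - l) := by
      intro j hj
      obtain ⟨lj, v', g1, g2, g3, g4, g5⟩ := hdec j hj
      obtain ⟨rfl, rfl⟩ := hq j hj lj v' g1 g2
      rcases g4 with ⟨_, gl, gs'⟩ | ⟨gv, _, _⟩ | ⟨gv, _, _⟩
      · refine ⟨gl, ?_⟩
        rw [hAP j hj, hs, hjl] at gs'
        omega
      · omega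
      · omega
    refine ⟨l0, l1, m * l1 - l, hl1, (key k le_rfl).1, fun j hj => (key j hj).2, rfl, by omega, ?_⟩
    apply h5
    have := (key k le_rfl).1
    have : 1 ≤ k * l1 := Nat.mul_pos hk1 hl1
    omega
  · -- v = 3
    have key : ∀ j ≤ k, l0 + j * l1 ≤ L.length ∧
        (L.take (l0 + j * l1)).sum = (L.take l0).sum + j * (m * l1 - l) := by
      intro j hj
      obtain ⟨lj, v', g1, g2, g3, g4, g5⟩ := hdec j hj
      obtain ⟨rfl, rfl⟩ := hq j hj lj v' g1 g2
      rcases g4 with ⟨gv, _, _⟩ | ⟨_, gl, gs'⟩ | ⟨gv, _, _⟩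
      · omega
      · refine ⟨gl.le, ?_⟩
        rw [hAP j hj, hs, hjl] at gs'
        omega
      · omega
    refine ⟨l0, l1, m * l1 - l, hl1, (key k le_rfl).1, fun j hj => (key j hj).2, rfl, by omega, ?_⟩
    exact h5 hl0
  · -- v ≥ 4
    have key : ∀ j ≤ k, l0 + 1 + j * l1 ≤ L.length ∧
        (L.take (l0 + 1 + j * l1)).sum = (L.take (l0 + 1)).sum + j * (m * l1 - l) := by
      intro j hj
      obtain ⟨lj, v', g1, g2, g3, g4, g5⟩ := hdec j hj
      obtain ⟨rfl, rfl⟩ := hq j hj lj v' g1 g2
      rcases g4 with ⟨gv, _, _⟩ | ⟨gv, _, _⟩ | ⟨_, gl, gs'⟩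
      · omega
      · omega
      · refine ⟨by omega, ?_⟩
        rw [hAP j hj, hs, hjl, show l0 + j * l1 + 1 = l0 + 1 + j * l1 by ring] at gs'
        omega
    refine ⟨l0 + 1, l1, m * l1 - l, hl1, (key k le_rfl).1, fun j hj => (key j hj).2, rfl, by omega,
      ?_⟩
    refine lt_of_lt_of_le (h5 hl0) ?_
    have hle : L.take (l0 + 1) = (L.take (l0 + 1 + 1)).take (l0 + 1) := by
      rw [List.take_take]; congr 1; omega
    rw [hle]
    generalize L.take (l0 + 1 + 1) = W
    conv_rhs => rw [← List.take_append_drop (l0 + 1) W]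
    rw [List.flatMap_append, List.length_append]
    omega

/-- In `g^n (1^k 2)` the only additive `k`-th powers have period `|g^n(1)|`. -/
theorem skeleton (m : ℕ) (hm : 7 ≤ m) (hp : m.Prime) (k : ℕ) (hk : m ≤ k + 1) (n : ℕ)
    (o l D : ℕ) (hl : 1 ≤ l)
    (hlen : o + k * l ≤ (It (gs m) n (List.replicate k 1 ++ [2])).length)
    (hAP : ∀ j ≤ k, ((It (gs m) n (List.replicate k 1 ++ [2])).take (o + j * l)).sum =
      ((It (gs m) n (List.replicate k 1 ++ [2])).take o).sum + j * D) :
    l = (It (gs m) n [1]).length ∧ D = (It (gs m) n [1]).sum ∧ o < l := by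
  induction n generalizing o l D with
  | zero =>
    simp only [It_zero, List.length_append, List.length_replicate, List.length_singleton] at hlen
    have hl1 : l = 1 := by
      by_contra hne
      have h2 : 2 ≤ l := by omega
      have : k * 2 ≤ k * l := Nat.mul_le_mul_left k h2
      omega
    subst hl1
    simp only [It_zero, mul_one] at hAP hlen ⊢
    have ho : o = 0 := by
      by_contra hne
      have ho : o = 1 := by omega
      subst ho
      have h1 := hAP 1 (by omega)
      have hk' := hAP k le_rfl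
      have e1 : (List.take 1 (List.replicate k 1 ++ [2])).sum = 1 := by
        rw [List.take_append_of_le_length (by simp; omega), List.take_replicate]
        simp; omega
      have e2 : (List.take (1 + 1) (List.replicate k 1 ++ [2])).sum = 2 := by
        rw [List.take_append_of_le_length (by simp; omega), List.take_replicate]
        simp; omega
      have e3 : (List.take (1 + k) (List.replicate k 1 ++ [2])).sum = k + 2 := by
        rw [List.take_of_length_le (by simp)]
        simp
      rw [e1, e2] at h1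
      rw [e1, e3] at hk'
      have : D = 1 := by omega
      subst this
      omega
    subst ho
    have h1 := hAP 1 (by omega)
    have e2 : (List.take (0 + 1) (List.replicate k 1 ++ [2])).sum = 1 := by
      rw [List.take_append_of_le_length (by simp; omega), List.take_replicate]
      simp; omega
    rw [e2] at h1
    simp at h1 ⊢
    omega
  | succ n ih =>
    have hcl : ∀ w : List ℕ, (∀ x ∈ w, x = 1 ∨ x = 2) → ∀ x ∈ It (gs m) n w, x = 1 ∨ x = 2 :=
      fun w hw => It_closed (gs m) (fun x => x = 1 ∨ x = 2) (fun x _ => gs_closed m x) n w hw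
    have hw : ∀ x ∈ List.replicate k 1 ++ [2], x = 1 ∨ x = 2 := by
      intro x hx; simp at hx; rcases hx with h | h
      · left; exact h.2
      · right; exact h
    have h1' : ∀ x ∈ [1], x = 1 ∨ x = 2 := by simp
    rw [It_succ'] at hlen
    simp only [It_succ'] at hAP
    obtain ⟨o1, l1, D1, g1, g2, g3, g4, g5, g6⟩ :=
      pull_back m hm hp k hk _ (hcl _ hw) o l D hl hlen hAP
    obtain ⟨r1, r2, r3⟩ := ih o1 l1 D1 g1 g2 g3
    have hlen1 := flatMap_gs_length m hm _ (hcl _ h1')
    have hsum1 := flatMap_gs_sum m hm _ (hcl _ h1')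
    rw [← r1, ← r2] at hlen1
    rw [← r1] at hsum1
    have hl' : l = (It (gs m) (n + 1) [1]).length := by
      rw [It_succ']; omega
    refine ⟨hl', ?_, ?_⟩
    · rw [It_succ', hsum1]; exact g4
    · rw [hl', It_succ']
      refine lt_of_lt_of_le g6 ?_
      -- take (o1+1) is a take of It n [1]
      have hk1 : 1 ≤ k := by omega
      obtain ⟨k', rfl⟩ : ∃ k', k = k' + 1 := ⟨k - 1, by omega⟩
      rw [List.replicate_succ, List.cons_append, It_cons]
      rw [List.take_append_of_le_length (by omega)]
      generalize It (gs m) n [1] = W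
      conv_rhs => rw [← List.take_append_drop (o1 + 1) W]
      rw [List.flatMap_append, List.length_append]
      omega

end Pool.Agent.AbPow
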