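import Pool.Agent.MP_e5f80e_lc.Words

/-!
Weighted transition systems and the symbols which realise them; the suffix sums of the words
`H^n(p0)` are described by weighted runs of the system.
-/

set_option autoImplicit false

namespace Pool.Agent.AbPow

/-- kinds of weight functions: `1`, `n`, `n(n-1)/2`, `b^n` -/
inductive Kind
  | cst | lin | quad | expo
  deriving DecidableEq

/-- the weight function of a kind -/
def Kind.val (b : ℕ) : Kind → ℕ → ℕ
  | .cst, _ => 1
  | .lin, n => n
  | .quad, n => n.choose 2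
  | .expo, n => b ^ n

/-- generator: kind, coordinate, sign (`true` is plus) -/
structure Gen where
  /-- kind -/
  kd : Kind
  /-- coordinate -/
  i : Fin 5
  /-- sign -/
  s : Bool
  deriving DecidableEq

/-- opposite generator -/
def Gen.neg (x : Gen) : Gen := ⟨x.kd, x.i, !x.s⟩

/-- sign as an integer -/
def sgnZ (s : Bool) : ℤ := if s then 1 else -1

/-- value of a generator at level `n` -/
def Gen.val (b : ℕ) (x : Gen) (n : ℕ) : Fin 5 → ℤ :=
  Pi.single x.i (sgnZ x.s * (x.kd.val b n : ℤ))

/-- value of a list of generators -/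
def gval (b n : ℕ) (G : List Gen) : Fin 5 → ℤ := (G.map (fun x => x.val b n)).sum

@[simp] theorem gval_nil (b n : ℕ) : gval b n [] = 0 := rfl

theorem gval_cons (b n : ℕ) (x : Gen) (G : List Gen) :
    gval b n (x :: G) = x.val b n + gval b n G := by
  simp [gval]

theorem gval_append (b n : ℕ) (G G' : List Gen) :
    gval b n (G ++ G') = gval b n G + gval b n G' := by
  simp [gval]

/-- the symbols -/
inductive Sym (Q : Type)
  | na | nb | g | gen (x : Gen) | main (q : Q) | p0 | zp

variable {Q : Type}

/-- the packet of a transition -/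
def packet (x : Q × List Gen) : List (Sym Q) :=
  x.2.map (fun y => Sym.gen y.neg) ++ ([Sym.g, Sym.main x.1] ++ x.2.map Sym.gen)

theorem packet_length (x : Q × List Gen) : (packet x).length = 2 * x.2.length + 2 := by
  simp [packet]; omega

/-- A weighted transition system. -/
structure Mach (Q : Type) where
  /-- transitions with their weights -/
  T : Q → List (Q × List Gen)
  /-- the sink -/
  sink : Q
  /-- the start -/
  start : Q
  /-- the modulus -/
  m : ℕ
  /-- the base -/
  b : ℕ
  /-- the states in use -/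
  RQ : Q → Prop
  T_sink : T sink = []
  RQ_sink : RQ sink
  RQ_start : RQ start
  RQ_closed : ∀ q, RQ q → ∀ x ∈ T q, RQ x.1
  fits : ∀ q, RQ q → ((T q).flatMap packet).length + 3 ≤ m
  hb : b + 3 ≤ m
  hm : 7 ≤ m

/-- coordinates: `none` is the guard coordinate -/
abbrev Coord := Option (Fin 5)

/-- signed unit carried by a symbol -/
def sg : Sym Q → Option (Coord × Bool)
  | .na => none
  | .nb => none
  | .zp => none
  | .g => some (none, false)
  | .gen ⟨.cst, i, s⟩ => some (some i, s)
  | .gen ⟨.lin, _, _⟩ => none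
  | .gen ⟨.quad, _, _⟩ => none
  | .gen ⟨.expo, i, s⟩ => some (some i, s)
  | .main _ => some (none, true)
  | .p0 => some (none, true)

/-- weight of a symbol -/
def swt : Sym Q → ℕ
  | .nb => 2
  | .zp => 2
  | _ => 1

/-- vector of a symbol -/
def dl (x : Sym Q) : Coord → ℤ :=
  match sg x with
  | none => 0
  | some (c, s) => Pi.single c (sgnZ s)

/-- vector of a word -/
def Dl (w : List (Sym Q)) : Coord → ℤ := (w.map dl).sum

@[simp] theorem Dl_nil : Dl ([] : List (Sym Q)) = 0 := rfl
theorem Dl_cons (x : Sym Q) (w : List (Sym Q)) : Dl (x :: w) = dl x + Dl w := by simp [Dl]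
theorem Dl_append (v w : List (Sym Q)) : Dl (v ++ w) = Dl v + Dl w := by simp [Dl]

namespace Mach

variable (M : Mach Q)

/-- letter images of the symbols -/
def H : Sym Q → List (Sym Q)
  | .na => [.na, .nb] ++ List.replicate (M.m - 3) .na
  | .nb => [.na, .nb, .nb] ++ List.replicate (M.m - 5) .na
  | .g => [.na, .nb] ++ (List.replicate (M.m - 4) .na ++ [.g])
  | .gen ⟨.cst, i, s⟩ => [.na, .nb, .gen ⟨.cst, i, s⟩] ++ List.replicate (M.m - 4) .na
  | .gen ⟨.lin, i, s⟩ =>
      [.na, .nb, .gen ⟨.lin, i, s⟩, .gen ⟨.cst, i, s⟩] ++ List.replicate (M.m - 5) .na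
  | .gen ⟨.quad, i, s⟩ =>
      [.na, .nb, .gen ⟨.quad, i, s⟩, .gen ⟨.lin, i, s⟩] ++ List.replicate (M.m - 5) .na
  | .gen ⟨.expo, i, s⟩ =>
      [.na, .nb] ++ (List.replicate M.b (.gen ⟨.expo, i, s⟩) ++ List.replicate (M.m - 3 - M.b) .na)
  | .main q => [.main M.sink, .nb] ++ ((M.T q).flatMap packet ++
      List.replicate (M.m - 3 - ((M.T q).flatMap packet).length) .na)
  | .p0 => [.main M.start, .nb, .gen ⟨.cst, 0, false⟩] ++ (List.replicate (M.m - 5) .na ++ [.g])
  | .zp => [.main M.start, .nb, .nb] ++ List.replicate (M.m - 5) .na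

/-- total vector of the `n`-th image of a word -/
def Tot (n : ℕ) (w : List (Sym Q)) : Coord → ℤ := Dl (It M.H n w)

theorem Tot_append (n : ℕ) (v w : List (Sym Q)) : M.Tot n (v ++ w) = M.Tot n v + M.Tot n w := by
  rw [Tot, It_append, Dl_append]; rfl

theorem Tot_cons (n : ℕ) (x : Sym Q) (w : List (Sym Q)) :
    M.Tot n (x :: w) = M.Tot n [x] + M.Tot n w := by
  rw [← List.singleton_append, Tot_append]

@[simp] theorem Tot_nil (n : ℕ) : M.Tot n [] = 0 := by rw [Tot, It_nil]; rfl

theorem Tot_succ (n : ℕ) (x : Sym Q) : M.Tot (n + 1) [x] = M.Tot n (M.H x) := by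
  rw [Tot, It_single_succ]; rfl

theorem Tot_zero (x : Sym Q) : M.Tot 0 [x] = dl x := by
  simp [Tot, Dl]

theorem Tot_replicate (n k : ℕ) (x : Sym Q) :
    M.Tot n (List.replicate k x) = k • M.Tot n [x] := by
  induction k with
  | zero => simp
  | succ k ih => rw [List.replicate_succ, Tot_cons, ih, succ_nsmul']

/-- symbols with no guard contribution -/
def Free : Sym Q → Prop
  | .na => True
  | .nb => True
  | .gen _ => True
  | _ => False

theorem free_closed (x : Sym Q) (hx : Free x) : ∀ y ∈ M.H x, Free y := by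
  intro y hy
  rcases x with _ | _ | _ | ⟨⟨kd, i, s⟩⟩ | _ | _ | _
  · simp [H] at hy; rcases hy with rfl | rfl | ⟨_, rfl⟩ <;> trivial
  · simp [H] at hy; rcases hy with rfl | rfl | ⟨_, rfl⟩ <;> trivial
  · exact hx.elim
  · cases kd
    · simp [H] at hy; rcases hy with rfl | rfl | rfl | ⟨_, rfl⟩ <;> trivial
    · simp [H] at hy; rcases hy with rfl | rfl | rfl | rfl | ⟨_, rfl⟩ <;> trivial
    · simp [H] at hy; rcases hy with rfl | rfl | rfl | rfl | ⟨_, rfl⟩ <;> trivial
    · simp [H] at hy; rcases hy with rfl | rfl | ⟨_, rfl⟩ | ⟨_, rfl⟩ <;> trivial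
  · exact hx.elim
  · exact hx.elim
  · exact hx.elim

theorem dl_free (x : Sym Q) (hx : Free x) : dl x none = 0 := by
  rcases x with _ | _ | _ | ⟨⟨kd, i, s⟩⟩ | _ | _ | _
  · rfl
  · rfl
  · exact hx.elim
  · cases kd <;> simp [dl, sg]
  · exact hx.elim
  · exact hx.elim
  · exact hx.elim

theorem Dl_free (w : List (Sym Q)) (hw : ∀ x ∈ w, Free x) : Dl w none = 0 := by
  induction w with
  | nil => rfl
  | cons a w ih =>
    rw [Dl_cons, Pi.add_apply, dl_free a (hw a (by simp)), ih (fun x hx => hw x (by simp [hx]))]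
    rfl

theorem Tot_cc (n : ℕ) (x y : Sym Q) (w : List (Sym Q)) :
    M.Tot n (x :: y :: w) = M.Tot n [x] + M.Tot n (y :: w) := M.Tot_cons n x (y :: w)

theorem Tot_nanb (n : ℕ) : M.Tot n [.na] = 0 ∧ M.Tot n [.nb] = 0 := by
  induction n with
  | zero => constructor <;> simp [Tot_zero, dl, sg]
  | succ n ih =>
    constructor
    · rw [Tot_succ, H]
      simp only [Tot_append, Tot_cc, Tot_replicate, ih.1, ih.2, smul_zero, add_zero]
    · rw [Tot_succ, H]
      simp only [Tot_append, Tot_cc, Tot_replicate, ih.1, ih.2, smul_zero, add_zero]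

theorem Tot_na (n : ℕ) : M.Tot n [.na] = 0 := (M.Tot_nanb n).1
theorem Tot_nb (n : ℕ) : M.Tot n [.nb] = 0 := (M.Tot_nanb n).2

theorem Tot_g (n : ℕ) : M.Tot n [.g] = Pi.single none (-1) := by
  induction n with
  | zero => simp [Tot_zero, dl, sg, sgnZ]
  | succ n ih =>
    rw [Tot_succ, H]
    simp only [Tot_append, Tot_cc, Tot_replicate, Tot_na, Tot_nb, smul_zero, add_zero, zero_add, ih]

/-- vector with zero guard coordinate -/
def lift (v : Fin 5 → ℤ) : Coord → ℤ
  | none => 0
  | some i => v i

@[simp] theorem lift_zero : lift 0 = 0 := by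
  funext c; cases c <;> rfl

theorem lift_add (v w : Fin 5 → ℤ) : lift (v + w) = lift v + lift w := by
  funext c; cases c <;> simp [lift]

theorem lift_single (i : Fin 5) (z : ℤ) : lift (Pi.single i z) = Pi.single (some i) z := by
  funext c
  rcases c with _ | j
  · simp [lift]
  · by_cases h : j = i
    · subst h; simp [lift]
    · have h' : (some j : Coord) ≠ some i := by simpa using h
      simp [lift, Pi.single_eq_of_ne h, Pi.single_eq_of_ne h']

theorem Tot_gen (n : ℕ) (x : Gen) : M.Tot n [.gen x] = lift (x.val M.b n) := by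
  obtain ⟨kd, i, s⟩ := x
  have hc : ∀ n, M.Tot n [.gen ⟨.cst, i, s⟩] = lift ((⟨.cst, i, s⟩ : Gen).val M.b n) := by
    intro n
    induction n with
    | zero => simp [Tot_zero, dl, sg, Gen.val, Kind.val, lift_single]
    | succ n ih =>
      rw [Tot_succ, H]
      simp only [Tot_append, Tot_cc, Tot_replicate, Tot_na, Tot_nb, smul_zero, add_zero, zero_add,
        ih]
      rfl
  have hl : ∀ n, M.Tot n [.gen ⟨.lin, i, s⟩] = lift ((⟨.lin, i, s⟩ : Gen).val M.b n) := by
    intro n
    induction n with
    | zero => simp [Tot_zero, dl, sg, Gen.val, Kind.val]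
    | succ n ih =>
      rw [Tot_succ, H]
      simp only [Tot_append, Tot_cc, Tot_replicate, Tot_na, Tot_nb, smul_zero, add_zero, zero_add,
        ih, hc]
      simp only [Gen.val, Kind.val, ← lift_add, ← Pi.single_add]
      congr 2; push_cast; ring
  have hq : ∀ n, M.Tot n [.gen ⟨.quad, i, s⟩] = lift ((⟨.quad, i, s⟩ : Gen).val M.b n) := by
    intro n
    induction n with
    | zero => simp [Tot_zero, dl, sg, Gen.val, Kind.val]
    | succ n ih =>
      rw [Tot_succ, H]
      simp only [Tot_append, Tot_cc, Tot_replicate, Tot_na, Tot_nb, smul_zero, add_zero, zero_add,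
        ih, hl]
      simp only [Gen.val, Kind.val, ← lift_add, ← Pi.single_add]
      congr 2
      have : (n + 1).choose 2 = n.choose 2 + n := by
        rw [Nat.choose_succ_succ' n 1, Nat.choose_one_right]; ring
      rw [this]; push_cast; ring
  have he : ∀ n, M.Tot n [.gen ⟨.expo, i, s⟩] = lift ((⟨.expo, i, s⟩ : Gen).val M.b n) := by
    intro n
    induction n with
    | zero => simp [Tot_zero, dl, sg, Gen.val, Kind.val, lift_single]
    | succ n ih =>
      rw [Tot_succ, H]
      simp only [Tot_append, Tot_cc, Tot_replicate, Tot_na, Tot_nb, smul_zero, add_zero, zero_add,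
        ih]
      simp only [Gen.val, Kind.val]
      rw [lift_single, lift_single]
      funext c
      by_cases hcc : c = some i
      · subst hcc
        simp only [Pi.smul_apply, Pi.single_eq_same, nsmul_eq_mul]
        push_cast; ring
      · simp [Pi.single_eq_of_ne hcc]
  cases kd
  · exact hc n
  · exact hl n
  · exact hq n
  · exact he n

theorem Tot_gens (n : ℕ) (G : List Gen) : M.Tot n (G.map .gen) = lift (gval M.b n G) := by
  induction G with
  | nil => simp
  | cons x G ih => rw [List.map_cons, Tot_cons, ih, Tot_gen, gval_cons, lift_add]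

theorem neg_val (b n : ℕ) (x : Gen) : x.neg.val b n = - x.val b n := by
  rw [Gen.val, Gen.val, Gen.neg, ← Pi.single_neg]
  cases x.s <;> simp [sgnZ]

theorem gval_neg (b n : ℕ) (G : List Gen) : gval b n (G.map Gen.neg) = - gval b n G := by
  induction G with
  | nil => simp
  | cons x G ih => rw [List.map_cons, gval_cons, gval_cons, ih, neg_val]; abel

theorem lift_neg (v : Fin 5 → ℤ) : lift (-v) = - lift v := by
  funext c; cases c <;> simp [lift]

theorem Tot_packet_aux (n : ℕ) (h : ∀ q, M.Tot n [.main q] = Pi.single none 1)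
    (x : Q × List Gen) : M.Tot n (packet x) = 0 := by
  have e : (x.2.map (fun y => (Sym.gen y.neg : Sym Q))) = (x.2.map Gen.neg).map Sym.gen := by
    rw [List.map_map]; rfl
  rw [packet, e]
  simp only [Tot_append, Tot_cc, h, Tot_g, Tot_gens, gval_neg, lift_neg]
  have : (Pi.single none (-1) + Pi.single none 1 : Coord → ℤ) = 0 := by
    rw [← Pi.single_add]; simp
  rw [this]; simp

theorem Tot_packets_aux (n : ℕ) (h : ∀ q, M.Tot n [.main q] = Pi.single none 1)
    (l : List (Q × List Gen)) : M.Tot n (l.flatMap packet) = 0 := by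
  induction l with
  | nil => simp
  | cons a l ihl => rw [List.flatMap_cons, Tot_append, Tot_packet_aux M n h, ihl, add_zero]

theorem Tot_main (n : ℕ) : ∀ q, M.Tot n [.main q] = Pi.single none 1 := by
  induction n with
  | zero => intro q; simp [Tot_zero, dl, sg, sgnZ]
  | succ n ih =>
    intro q
    rw [Tot_succ, H]
    simp only [Tot_append, Tot_cc, Tot_replicate, Tot_na, Tot_nb, smul_zero, add_zero,
        ih, Tot_packets_aux M n ih]

theorem Tot_packet (n : ℕ) (x : Q × List Gen) : M.Tot n (packet x) = 0 :=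
  M.Tot_packet_aux n (M.Tot_main n) x

theorem Tot_packets (n : ℕ) (l : List (Q × List Gen)) : M.Tot n (l.flatMap packet) = 0 :=
  M.Tot_packets_aux n (M.Tot_main n) l

/-- There is a nonempty suffix of the `n`-th image of `w` whose vector cancels `O`. -/
def Sol (n : ℕ) (w : List (Sym Q)) (O : Coord → ℤ) : Prop :=
  ∃ u v, It M.H n w = u ++ v ∧ v ≠ [] ∧ O + Dl v = 0

theorem Sol_nil (n : ℕ) (O : Coord → ℤ) : ¬ M.Sol n [] O := by
  rintro ⟨u, v, h, hv, _⟩
  rw [It_nil] at h
  have := (List.append_eq_nil_iff.1 h.symm).2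
  exact hv this

theorem Sol_append (n : ℕ) (w1 w2 : List (Sym Q)) (O : Coord → ℤ) :
    M.Sol n (w1 ++ w2) O ↔ M.Sol n w1 (O + M.Tot n w2) ∨ M.Sol n w2 O := by
  constructor
  · rintro ⟨u, v, h, hv, hO⟩
    rw [It_append] at h
    rcases List.append_eq_append_iff.1 h with ⟨a, ha1, ha2⟩ | ⟨c, hc1, hc2⟩
    · right
      exact ⟨a, v, ha2, hv, hO⟩
    · by_cases hc0 : c = []
      · right
        subst hc0
        refine ⟨[], v, ?_, hv, hO⟩
        simpa using hc2.symm
      · left
        refine ⟨u, c, hc1, hc0, ?_⟩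
        rw [hc2, Dl_append] at hO
        rw [Tot, add_assoc, add_comm (Dl (It M.H n w2)) (Dl c)]
        exact hO
  · rintro (⟨u, v, h, hv, hO⟩ | ⟨u, v, h, hv, hO⟩)
    · refine ⟨u, v ++ It M.H n w2, ?_, ?_, ?_⟩
      · rw [It_append, h, List.append_assoc]
      · simp [hv]
      · rw [Dl_append, add_comm (Dl v), ← add_assoc]; exact hO
    · refine ⟨It M.H n w1 ++ u, v, ?_, hv, hO⟩
      rw [It_append, h, List.append_assoc]

theorem Sol_succ (n : ℕ) (x : Sym Q) (O : Coord → ℤ) :
    M.Sol (n + 1) [x] O ↔ M.Sol n (M.H x) O := by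
  rw [Sol, Sol, It_single_succ]

theorem Sol_zero (x : Sym Q) (O : Coord → ℤ) : M.Sol 0 [x] O ↔ O + dl x = 0 := by
  constructor
  · rintro ⟨u, v, h, hv, hO⟩
    rw [It_zero] at h
    have : v = [x] := by
      rcases u with _ | ⟨a, u⟩
      · simpa using h.symm
      · exfalso
        rw [List.cons_append, List.cons.injEq] at h
        exact hv (List.append_eq_nil_iff.1 h.2.symm).2
    subst this
    rw [Dl_cons, Dl_nil, add_zero] at hO
    exact hO
  · intro h
    exact ⟨[], [x], rfl, by simp, by simpa [Dl_cons] using h⟩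

/-- free words: the guard coordinate must vanish -/
theorem Sol_free (n : ℕ) (w : List (Sym Q)) (hw : ∀ x ∈ w, Free x) (O : Coord → ℤ)
    (h : M.Sol n w O) : O none = 0 := by
  obtain ⟨u, v, h1, _, hO⟩ := h
  have h2 := It_closed M.H Free M.free_closed n w hw
  rw [h1] at h2
  have h3 := Dl_free v (fun x hx => h2 x (by simp [hx]))
  have := congrFun hO none
  rw [Pi.add_apply, h3] at this
  simpa using this

theorem Sol_g (n : ℕ) (O : Coord → ℤ) (h : M.Sol n [.g] O) : O none = 1 := by
  induction n generalizing O with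
  | zero =>
    rw [Sol_zero] at h
    have := congrFun h none
    simp [dl, sg, sgnZ] at this
    omega
  | succ n ih =>
    rw [Sol_succ, H, Sol_append, Sol_append] at h
    rcases h with h | h | h
    · have := M.Sol_free n _ (by simp [Free]) _ h
      rw [Tot_append, Tot_g, Tot_replicate, Tot_na] at this
      simp at this
      omega
    · have := M.Sol_free n _ (by intro x hx; simp at hx; rw [hx.2]; trivial) _ h
      rw [Tot_g] at this
      simp at this
      omega
    · exact ih O h

/-- weighted reachability, going down from level `n` -/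
def reach : ℕ → Q → (Fin 5 → ℤ) → Prop
  | 0, _, O => O = 0
  | n + 1, q, O => O = 0 ∨ ∃ x ∈ M.T q, reach n x.1 (O + gval M.b n x.2)

theorem reach_sink (n : ℕ) (O : Fin 5 → ℤ) : M.reach n M.sink O ↔ O = 0 := by
  cases n with
  | zero => rfl
  | succ n => rw [reach, M.T_sink]; simp

theorem Sol_packets (n : ℕ) (l : List (Q × List Gen)) (O : Coord → ℤ) (hO : O none = -1) :
    M.Sol n (l.flatMap packet) O ↔
      ∃ x ∈ l, M.Sol n [.main x.1] (O + lift (gval M.b n x.2)) := by
  induction l with
  | nil => simp [Sol_nil]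
  | cons a l ih =>
    rw [List.flatMap_cons, Sol_append, Tot_packets, add_zero, ih]
    have hone : M.Sol n (packet a) O ↔ M.Sol n [.main a.1] (O + lift (gval M.b n a.2)) := by
      have e : (a.2.map (fun y => (Sym.gen y.neg : Sym Q))) = (a.2.map Gen.neg).map Sym.gen := by
        rw [List.map_map]; rfl
      have e2 : ([Sym.g, Sym.main a.1] : List (Sym Q)) = [Sym.g] ++ [Sym.main a.1] := rfl
      rw [packet, e, e2, Sol_append, Sol_append, Sol_append, Tot_append, Tot_append, Tot_g,
        Tot_main, Tot_gens]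
      constructor
      · rintro (h | (h | h) | h)
        · have := M.Sol_free n _ (by
            intro x hx
            simp only [List.mem_map] at hx
            obtain ⟨y, _, rfl⟩ := hx
            trivial) _ h
          simp [lift, hO] at this
        · have := M.Sol_g n _ h
          simp [lift, hO] at this
        · exact h
        · have := M.Sol_free n _ (by
            intro x hx
            simp only [List.mem_map] at hx
            obtain ⟨y, _, rfl⟩ := hx
            trivial) _ h
          omega
      · intro h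
        exact Or.inr (Or.inl (Or.inr h))
    rw [hone]
    simp

theorem zero_iff (O : Coord → ℤ) (hO : O none = -1) :
    (O + Pi.single none 1 = 0) ↔ ((fun i => O (some i)) = (0 : Fin 5 → ℤ)) := by
  constructor
  · intro h
    funext i
    have := congrFun h (some i)
    simpa using this
  · intro h
    funext c
    rcases c with _ | i
    · simp [hO]
    · simpa using congrFun h i

theorem Sol_main (n : ℕ) (q : Q) (O : Coord → ℤ) (hO : O none = -1) :
    M.Sol n [.main q] O ↔ M.reach n q (fun i => O (some i)) := by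
  induction n generalizing q O with
  | zero =>
    rw [Sol_zero, reach, ← zero_iff O hO]
    simp [dl, sg, sgnZ]
  | succ n ih =>
    have hsink : M.Sol n [.main M.sink] O ↔ ((fun i => O (some i)) = (0 : Fin 5 → ℤ)) := by
      rw [ih M.sink O hO, reach_sink]
    have e2 : ([Sym.main M.sink, Sym.nb] : List (Sym Q)) = [Sym.main M.sink] ++ [Sym.nb] := rfl
    rw [Sol_succ, H, e2, Sol_append, Sol_append, Sol_append]
    simp only [Tot_append, Tot_packets, Tot_replicate, Tot_na, Tot_nb, smul_zero, add_zero]
    rw [Sol_packets M n _ O hO, hsink, reach]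
    have hx : ∀ x : Q × List Gen, M.Sol n [.main x.1] (O + lift (gval M.b n x.2)) ↔
        M.reach n x.1 ((fun i => O (some i)) + gval M.b n x.2) := by
      intro x
      rw [ih x.1 _ (by simp [lift, hO])]
      rfl
    constructor
    · rintro ((h | h) | ⟨x, hx1, h⟩ | h)
      · exact Or.inl h
      · have := M.Sol_free n _ (by simp [Free]) _ h
        omega
      · right
        exact ⟨x, hx1, (hx x).1 h⟩
      · have := M.Sol_free n _ (by intro x hx; simp at hx; rw [hx.2]; trivial) _ h
        omega
    · rintro (h | ⟨x, hx1, h⟩)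
      · exact Or.inl (Or.inl h)
      · right; left
        exact ⟨x, hx1, (hx x).2 h⟩

/-- Suffix solutions for `p0` are exactly runs with total weight the first unit vector. -/
theorem Sol_p0 (n : ℕ) : M.Sol (n + 1) [.p0] 0 ↔ M.reach n M.start (Pi.single 0 (-1)) := by
  rw [Sol_succ, H, Sol_append, Sol_append, Tot_append, Tot_g, Tot_replicate, Tot_na]
  have e2 : ([Sym.main M.start, Sym.nb, Sym.gen ⟨Kind.cst, 0, false⟩] : List (Sym Q)) =
    [Sym.main M.start] ++ [Sym.nb, Sym.gen ⟨Kind.cst, 0, false⟩] := rfl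
  rw [e2, Sol_append, Tot_cc, Tot_nb, Tot_gen]
  rw [Sol_main M n M.start _ (by simp [lift])]
  constructor
  · rintro ((h | h) | h | h)
    · convert h using 1
      funext i
      simp [lift, Gen.val, Kind.val, sgnZ]
    · have := M.Sol_free n _ (by simp [Free]) _ h
      simp at this
    · have := M.Sol_free n _ (by intro x hx; simp at hx; rw [hx.2]; trivial) _ h
      simp at this
    · have := M.Sol_g n _ h
      simp at this
  · intro h
    left; left
    convert h using 1
    funext i
    simp [lift, Gen.val, Kind.val, sgnZ]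

/-- in the backward direction the solution sits in the first slot -/
theorem Sol_p0_slot (n : ℕ) (h : M.reach n M.start (Pi.single 0 (-1))) :
    ∃ u v, It M.H (n + 1) [.p0] = u ++ v ∧ u.length < (It M.H n [.main M.start]).length ∧
      Dl v = 0 := by
  have h1 : M.Sol n [.main M.start]
      (M.Tot n ([.nb, .gen ⟨.cst, 0, false⟩] ++ (List.replicate (M.m - 5) .na ++ [.g]))) := by
    have e : M.Tot n ([.nb, .gen ⟨.cst, 0, false⟩] ++ (List.replicate (M.m - 5) .na ++ [.g])) =
        lift (Pi.single 0 (-1)) + Pi.single none (-1) := by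
      simp only [Tot_append, Tot_cc, Tot_nb, Tot_gen, Tot_replicate, Tot_na, Tot_g]
      simp [Gen.val, Kind.val, sgnZ]
    rw [e, Sol_main M n M.start _ (by simp [lift])]
    convert h using 1
    funext i
    simp [lift]
  obtain ⟨u, v, h2, h3, h4⟩ := h1
  refine ⟨u, v ++ It M.H n ([.nb, .gen ⟨.cst, 0, false⟩] ++
    (List.replicate (M.m - 5) .na ++ [.g])), ?_, ?_, ?_⟩
  · rw [It_single_succ, H]
    have e2 : ([Sym.main M.start, Sym.nb, Sym.gen ⟨Kind.cst, 0, false⟩] : List (Sym Q)) =
      [Sym.main M.start] ++ [Sym.nb, Sym.gen ⟨Kind.cst, 0, false⟩] := rfl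
    rw [e2, List.append_assoc, It_append, h2, List.append_assoc]
  · rw [h2, List.length_append]
    have := List.length_pos_of_ne_nil h3
    omega
  · rw [Dl_append, add_comm]; exact h4

end Mach

end Pool.Agent.AbPow
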