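import Pool.Agent.MP_e5f80e_lc.Rows

/-!
Simulation of a one-tape Turing machine (Mathlib's `Turing.TM0`) by a ring automaton.
-/

set_option autoImplicit false

open Turing

namespace Pool.Agent.AbPow

namespace TMsim

variable {Γ Λ : Type} [Inhabited Γ] [Inhabited Λ] (M : TM0.Machine Γ Λ)

/-- cells: `none` is the mark -/
abbrev TCell (Γ Λ : Type) := Option (Γ × Option Λ)

/-- the head leaving this cell in direction `d`, if any -/
def mover (d : Dir) : TCell Γ Λ → Option Λ
  | some (a, some q) =>
    match M q a with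
    | some (q', .move d') => if d' = d then some q' else none
    | _ => none
  | _ => none

/-- new content of the head cell -/
def upd (a : Γ) (q : Λ) : TCell Γ Λ :=
  match M q a with
  | none => some (a, some q)
  | some (q', .write b) => some (b, some q')
  | some (_, .move _) => some (a, none)

/-- local rule -/
def rule (l c r : TCell Γ Λ) : TCell Γ Λ :=
  match c with
  | none => none
  | some (a, some q) => upd M a q
  | some (a, none) => some (a, (mover M .right l).or (mover M .left r))

/-- halting cells -/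
def halts : TCell Γ Λ → Bool
  | some (a, some q) => (M q a).isNone
  | _ => false

/-- the cells of a configuration, seen through a window -/
def view (K : ℕ) (c : TM0.Cfg Γ Λ) (p : ℤ) (i : ℤ) : TCell Γ Λ :=
  if i ≤ 0 ∨ (K : ℤ) < i then none
  else some (c.Tape.nth (i - p), if i = p then some c.q else none)

theorem view_out (K : ℕ) (c : TM0.Cfg Γ Λ) (p i : ℤ) (h : i ≤ 0 ∨ (K : ℤ) < i) :
    view K c p i = none := if_pos h

theorem view_in (K : ℕ) (c : TM0.Cfg Γ Λ) (p i : ℤ) (h : ¬ (i ≤ 0 ∨ (K : ℤ) < i)) :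
    view K c p i = some (c.Tape.nth (i - p), if i = p then some c.q else none) := if_neg h

/-- the head movement of a configuration -/
def mv (d : Dir) (c : TM0.Cfg Γ Λ) : Option Λ := mover M d (some (c.Tape.nth 0, some c.q))

theorem mover_view (K : ℕ) (c : TM0.Cfg Γ Λ) (p i : ℤ) (d : Dir) :
    mover M d (view K c p i) =
      if i = p ∧ ¬ (i ≤ 0 ∨ (K : ℤ) < i) then mv M d c else none := by
  by_cases h : i ≤ 0 ∨ (K : ℤ) < i
  · rw [view_out K c p i h, if_neg (by tauto)]; rfl
  · rw [view_in K c p i h]
    by_cases h2 : i = p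
    · subst h2
      rw [if_pos rfl, if_pos ⟨rfl, h⟩, sub_self]; rfl
    · rw [if_neg h2, if_neg (by tauto)]; rfl

theorem rule_view_cell (K : ℕ) (c : TM0.Cfg Γ Λ) (p i : ℤ) (h : ¬ (i ≤ 0 ∨ (K : ℤ) < i)) :
    rule M (view K c p (i - 1)) (view K c p i) (view K c p (i + 1)) =
      if i = p then upd M (c.Tape.nth 0) c.q else
        some (c.Tape.nth (i - p),
          (if i - 1 = p ∧ ¬ (i - 1 ≤ 0 ∨ (K : ℤ) < i - 1) then mv M .right c else none).or
          (if i + 1 = p ∧ ¬ (i + 1 ≤ 0 ∨ (K : ℤ) < i + 1) then mv M .left c else none)) := by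
  rw [view_in K c p i h]
  by_cases h2 : i = p
  · subst h2
    rw [if_pos rfl, if_pos rfl, sub_self]; rfl
  · rw [if_neg h2, if_neg h2]
    show some (_, (mover M .right (view K c p (i - 1))).or (mover M .left (view K c p (i + 1)))) = _
    rw [mover_view, mover_view]

/-- one step of the machine is one application of the local rule, everywhere in the window -/
theorem rule_view (K : ℕ) (c c' : TM0.Cfg Γ Λ) (p : ℤ) (hp : 1 ≤ p ∧ p ≤ K)
    (hM : c' ∈ TM0.step M c) :
    ∃ p' : ℤ, |p' - p| ≤ 1 ∧ ∀ i, rule M (view K c p (i - 1)) (view K c p i)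
        (view K c p (i + 1)) = view K c' p' i := by
  obtain ⟨q, T⟩ := c
  rw [TM0.step, Option.mem_def, Option.map_eq_some_iff] at hM
  obtain ⟨⟨q', s⟩, h1, rfl⟩ := hM
  have hout : ∀ (p' : ℤ) (c' : TM0.Cfg Γ Λ) (i : ℤ), (i ≤ 0 ∨ (K : ℤ) < i) →
      rule M (view K ⟨q, T⟩ p (i - 1)) (view K ⟨q, T⟩ p i) (view K ⟨q, T⟩ p (i + 1)) =
        view K c' p' i := by
    intro p' c' i hi
    rw [view_out K _ p i hi, view_out K _ p' i hi]; rfl
  have hT0 : T.nth 0 = T.head := Tape.nth_zero T
  rcases s with d | b
  · rcases d with _ | _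
    · -- left
      refine ⟨p - 1, by simp, ?_⟩
      intro i
      by_cases hi : i ≤ 0 ∨ (K : ℤ) < i
      · exact hout _ _ _ hi
      · rw [rule_view_cell M K _ p i hi, view_in K _ (p - 1) i hi]
        have hl : mv M .left (⟨q, T⟩ : TM0.Cfg Γ Λ) = some q' := by
          rw [mv, mover]; simp only [hT0, h1]; simp
        have hr : mv M .right (⟨q, T⟩ : TM0.Cfg Γ Λ) = none := by
          rw [mv, mover]; simp only [hT0, h1]; simp
        rw [hl, hr]
        simp only [ite_self, Option.none_or, Tape.move_left_nth]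
        by_cases h2 : i = p
        · subst h2
          rw [if_pos rfl, if_neg (by omega), upd]
          simp only [hT0, h1]
          rw [show i - (i - 1) - 1 = 0 by ring, hT0]
        · rw [if_neg h2]
          rw [show i - (p - 1) - 1 = i - p by ring]
          by_cases h3 : i + 1 = p
          · rw [if_pos ⟨h3, by omega⟩, if_pos (by omega)]
          · rw [if_neg (by tauto), if_neg (by omega)]
    · -- right
      refine ⟨p + 1, by simp, ?_⟩
      intro i
      by_cases hi : i ≤ 0 ∨ (K : ℤ) < i
      · exact hout _ _ _ hi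
      · rw [rule_view_cell M K _ p i hi, view_in K _ (p + 1) i hi]
        have hl : mv M .left (⟨q, T⟩ : TM0.Cfg Γ Λ) = none := by
          rw [mv, mover]; simp only [hT0, h1]; simp
        have hr : mv M .right (⟨q, T⟩ : TM0.Cfg Γ Λ) = some q' := by
          rw [mv, mover]; simp only [hT0, h1]; simp
        rw [hl, hr]
        simp only [ite_self, Option.or_none, Tape.move_right_nth]
        by_cases h2 : i = p
        · subst h2
          rw [if_pos rfl, if_neg (by omega), upd]
          simp only [hT0, h1]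
          rw [show i - (i + 1) + 1 = 0 by ring, hT0]
        · rw [if_neg h2]
          rw [show i - (p + 1) + 1 = i - p by ring]
          by_cases h3 : i - 1 = p
          · rw [if_pos ⟨h3, by omega⟩, if_pos (by omega)]
          · rw [if_neg (by tauto), if_neg (by omega)]
  · -- write
    refine ⟨p, by simp, ?_⟩
    intro i
    by_cases hi : i ≤ 0 ∨ (K : ℤ) < i
    · exact hout _ _ _ hi
    · rw [rule_view_cell M K _ p i hi, view_in K _ p i hi]
      have hl : ∀ d, mv M d (⟨q, T⟩ : TM0.Cfg Γ Λ) = none := by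
        intro d
        rw [mv, mover]; simp only [hT0, h1]
      rw [hl, hl]
      simp only [ite_self, Option.or_none, Tape.write_nth]
      by_cases h2 : i = p
      · subst h2
        rw [if_pos rfl, upd]
        simp only [hT0, h1, sub_self, if_true]
      · rw [if_neg h2, if_neg h2, if_neg (by omega)]

/-- reaching a configuration -/
def Rch : TM0.Cfg Γ Λ → TM0.Cfg Γ Λ → Prop :=
  Relation.ReflTransGen fun a b ↦ b ∈ TM0.step M a

/-- the machine halts from the given configuration -/
def Halts (c : TM0.Cfg Γ Λ) : Prop := ∃ c', Rch M c c' ∧ TM0.step M c' = none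

theorem evol_fwd (K : ℕ) (F : ℕ → ℤ → TCell Γ Λ)
    (hF : ∀ r i, F (r + 1) i = rule M (F r (i - 1)) (F r i) (F r (i + 1)))
    (c : TM0.Cfg Γ Λ) (p : ℤ) (h0 : ∀ i, F 0 i = view K c p i) (r : ℕ) :
    Halts M c ∨ (∃ (c' : TM0.Cfg Γ Λ) (p' : ℤ), Rch M c c' ∧ 1 ≤ p' ∧ p' ≤ K ∧
      ∀ i, F r i = view K c' p' i) ∨
      (∀ i, F r i = none ∨ ∃ a, F r i = some (a, none)) := by
  have headless : ∀ (c' : TM0.Cfg Γ Λ) (p' : ℤ), ¬ (1 ≤ p' ∧ p' ≤ K) → ∀ i,
      view K c' p' i = none ∨ ∃ a, view K c' p' i = some (a, none) := by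
    intro c' p' h i
    by_cases hi : i ≤ 0 ∨ (K : ℤ) < i
    · left; exact view_out K c' p' i hi
    · right
      refine ⟨c'.Tape.nth (i - p'), ?_⟩
      rw [view_in K c' p' i hi, if_neg (by rintro rfl; omega)]
  induction r with
  | zero =>
    by_cases hp : 1 ≤ p ∧ p ≤ K
    · right; left
      exact ⟨c, p, Relation.ReflTransGen.refl, hp.1, hp.2, h0⟩
    · right; right
      intro i
      rw [h0]
      exact headless c p hp i
  | succ r ih =>
    rcases ih with ih | ⟨c', p', h1, h2, h3, h4⟩ | ih
    · left; exact ih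
    · rcases hs : TM0.step M c' with _ | c''
      · left; exact ⟨c', h1, hs⟩
      · obtain ⟨p'', h5, h6⟩ := rule_view M K c' c'' p' ⟨h2, h3⟩ hs
        right
        have h7 : ∀ i, F (r + 1) i = view K c'' p'' i := by
          intro i
          rw [hF, h4, h4, h4, h6]
        by_cases hp : 1 ≤ p'' ∧ p'' ≤ K
        · left
          exact ⟨c'', p'', h1.tail hs, hp.1, hp.2, h7⟩
        · right
          intro i
          rw [h7]
          exact headless c'' p'' hp i
    · right; right
      have hm : ∀ d i, mover M d (F r i) = none := by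
        intro d i
        rcases ih i with h | ⟨a, h⟩
        · rw [h]; rfl
        · rw [h]; rfl
      intro i
      rw [hF]
      rcases ih i with h | ⟨a, h⟩
      · left; rw [h]; rfl
      · right
        refine ⟨a, ?_⟩
        rw [h]
        show some (a, _) = _
        rw [hm, hm]; rfl

theorem evol_halt (K : ℕ) (F : ℕ → ℤ → TCell Γ Λ)
    (hF : ∀ r i, F (r + 1) i = rule M (F r (i - 1)) (F r i) (F r (i + 1)))
    (c : TM0.Cfg Γ Λ) (p : ℤ) (h0 : ∀ i, F 0 i = view K c p i) (r : ℕ) (i : ℤ)
    (hh : halts M (F r i) = true) : Halts M c := by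
  rcases evol_fwd M K F hF c p h0 r with h | ⟨c', p', h1, h2, h3, h4⟩ | h
  · exact h
  · rw [h4] at hh
    by_cases hi : i ≤ 0 ∨ (K : ℤ) < i
    · rw [view_out K c' p' i hi] at hh; cases hh
    · rw [view_in K c' p' i hi] at hh
      by_cases h5 : i = p'
      · subst h5
        rw [if_pos rfl, sub_self] at hh
        refine ⟨c', h1, ?_⟩
        have hh' : (M c'.q (c'.Tape.nth 0)).isNone = true := hh
        rw [Option.isNone_iff_eq_none] at hh'
        obtain ⟨q, T⟩ := c'
        rw [Tape.nth_zero] at hh'
        show (M q T.head).map _ = none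
        rw [hh']; rfl
      · rw [if_neg h5] at hh; cases hh
  · rcases h i with h | ⟨a, h⟩
    · rw [h] at hh; cases hh
    · rw [h] at hh; cases hh

theorem evol_bwd (c c' : TM0.Cfg Γ Λ) (h : Rch M c c') :
    ∃ r : ℕ, ∀ (K : ℕ) (F : ℕ → ℤ → TCell Γ Λ)
    (_ : ∀ r i, F (r + 1) i = rule M (F r (i - 1)) (F r i) (F r (i + 1)))
    (p : ℤ) (_ : ∀ i, F 0 i = view K c p i) (_ : (r : ℤ) < p) (_ : p + r ≤ K),
    ∃ p' : ℤ, |p' - p| ≤ r ∧ ∀ i, F r i = view K c' p' i := by
  induction h with
  | refl =>
    refine ⟨0, ?_⟩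
    intro K F _ p h0 _ _
    exact ⟨p, by simp, h0⟩
  | tail h1 h2 ih =>
    obtain ⟨r, ih⟩ := ih
    refine ⟨r + 1, ?_⟩
    intro K F hF p h0 hp1 hp2
    push_cast at hp1 hp2
    obtain ⟨p', h3, h4⟩ := ih K F hF p h0 (by omega) (by omega)
    rw [abs_le] at h3
    obtain ⟨p'', h5, h6⟩ := rule_view M K _ _ p' ⟨by omega, by omega⟩ h2
    rw [abs_le] at h5
    refine ⟨p'', by rw [abs_le]; push_cast; omega, ?_⟩
    intro i
    rw [hF, h4, h4, h4, h6]

section ring

variable [Fintype Γ] [Fintype Λ]

/-- the ring automaton of a machine -/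
noncomputable def ring : RingA (TCell Γ Λ) where
  cells := (Finset.univ : Finset (TCell Γ Λ)).toList
  complete := by simp
  code c := (Fintype.equivFin (TCell Γ Λ) c : ℕ) + 1
  b := Fintype.card (TCell Γ Λ) + 1
  inj := by
    intro x y h
    simp only [add_left_inj] at h
    exact (Fintype.equivFin (TCell Γ Λ)).injective (Fin.ext h)
  pos c := by omega
  lt c := by
    have := (Fintype.equivFin (TCell Γ Λ) c).2
    omega
  blank := some (default, none)
  mark := none
  f := rule M
  hlt := halts M

/-- first cell of the input -/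
def icell (l : List Γ) : TCell Γ Λ := some (l.headI, some default)

/-- other cells of the input -/
def irest (l : List Γ) : List (TCell Γ Λ) := l.tail.map (fun a => some (a, none))

theorem init_rows (l : List Γ) (w : List (TCell Γ Λ)) (i1 j : ℕ)
    (hw : w = List.replicate i1 (ring M).blank ++
      (icell l :: irest l ++ List.replicate j (ring M).blank)) (i : ℤ) :
    (ring M).rows w 0 i = view w.length (TM0.init l) (i1 + 1) i := by
  by_cases hi : i ≤ 0 ∨ (w.length : ℤ) < i
  · rw [view_out _ _ _ i hi, (ring M).rows_out (fun _ _ => rfl) w 0 i hi]; rfl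
  · rw [view_in _ _ _ i hi, RingA.rows, if_neg (by omega)]
    obtain ⟨n, rfl⟩ : ∃ n : ℕ, i = n + 1 := ⟨(i - 1).toNat, by omega⟩
    rw [show ((n : ℤ) + 1 - 1).toNat = n by omega]
    have hlen : w.length = i1 + (1 + (l.tail.length + j)) := by
      rw [hw]; simp [irest]; omega
    have hn : n < w.length := by omega
    rw [hw]
    have htape : ∀ m : ℤ, (TM0.init (Λ := Λ) l).Tape.nth m = if m < 0 then default else
        l.getI m.toNat := by
      intro m
      show (Tape.mk' (ListBlank.mk []) (ListBlank.mk l)).nth m = _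
      split_ifs with h
      · obtain ⟨k, rfl⟩ : ∃ k : ℕ, m = -(k + 1 : ℕ) := ⟨(-m - 1).toNat, by omega⟩
        show (ListBlank.mk []).nth k = _
        rw [ListBlank.nth_mk]; simp
      · obtain ⟨k, rfl⟩ : ∃ k : ℕ, m = k := ⟨m.toNat, by omega⟩
        rw [Tape.mk'_nth_nat, ListBlank.nth_mk]; simp
    rw [htape]
    rcases lt_trichotomy n i1 with h | h | h
    · rw [List.getElem?_append_left (by simpa using h), List.getElem?_replicate, if_pos h,
        if_pos (by omega), if_neg (by omega)]
      rfl
    · subst h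
      rw [List.getElem?_append_right (by simp)]
      simp only [List.length_replicate, Nat.sub_self, List.cons_append, List.getElem?_cons_zero,
        Option.getD_some, sub_self, if_true]
      cases l <;> rfl
    · obtain ⟨k, rfl⟩ : ∃ k, n = i1 + (k + 1) := ⟨n - i1 - 1, by omega⟩
      rw [List.getElem?_append_right (by simp)]
      simp only [List.length_replicate, Nat.add_sub_cancel_left, List.cons_append,
        List.getElem?_cons_succ]
      rw [if_neg (by omega), if_neg (by omega)]
      rw [show ((((i1 + (k + 1) : ℕ)) : ℤ) + 1 - ((i1 : ℤ) + 1)).toNat = k + 1 by omega]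
      rcases Nat.lt_or_ge k l.tail.length with h1 | h1
      · rw [List.getElem?_append_left (by simpa [irest] using h1), irest, List.getElem?_map,
          List.getElem?_eq_getElem h1]
        rcases l with _ | ⟨a, l⟩
        · simp at h1
        · simp only [List.tail_cons] at h1
          simp only [List.tail_cons, Option.map_some, Option.getD_some]
          rw [List.getI_cons_succ, List.getI_eq_getElem _ h1]
      · rw [List.getElem?_append_right (by simpa [irest] using h1), List.getElem?_replicate,
          if_pos (by rw [irest, List.length_map]; omega)]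
        rw [List.getI_eq_default _ (by rw [List.length_tail] at h1; omega)]
        rfl

theorem ring_halt_of_success (l : List Γ) (w : List (TCell Γ Λ)) (s : TCell Γ Λ)
    (xs ys : List (TCell Γ Λ)) (hrow : (ring M).IsRow (icell l) (irest l) w)
    (h1 : s :: xs = w ++ (ring M).mark :: ys) (h2 : (ring M).RunOK (ring M).mark s xs ys) :
    Halts M (TM0.init l) := by
  obtain ⟨i1, j, hw⟩ := hrow
  have hne : w ≠ [] := by rw [hw]; simp
  obtain ⟨t, ht⟩ := ((ring M).success_iff (fun _ _ => rfl) rfl w hne).1 ⟨s, xs, ys, h1, h2⟩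
  exact evol_halt M w.length (fun r i => (ring M).rows w r i) (fun r i => rfl) _ _
    (init_rows M l w i1 j hw) _ _ ht

theorem pow_bound (K : ℕ) (h : 10 ≤ K) : K * K + 5 * K + 3 < 2 ^ K := by
  induction K, h using Nat.le_induction with
  | base => norm_num
  | succ n hn ih =>
    rw [pow_succ]
    nlinarith

theorem ring_success_of_halt (l : List Γ) (h : Halts M (TM0.init l)) (B : ℕ) :
    ∃ w s xs ys, B ≤ w.length ∧ (ring M).IsRow (icell l) (irest l) w ∧
      s :: xs = w ++ (ring M).mark :: ys ∧ (ring M).RunOK (ring M).mark s xs ys ∧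
      2 * w.length + xs.length + 3 < (ring M).b ^ w.length := by
  obtain ⟨c', h1, h2⟩ := h
  obtain ⟨r, hr⟩ := evol_bwd M _ _ h1
  set i1 := B + r + 10 with hi1
  obtain ⟨w, hw⟩ : ∃ w, w = List.replicate i1 (ring M).blank ++
      (icell l :: irest l ++ List.replicate i1 (ring M).blank) := ⟨_, rfl⟩
  have hlen : w.length = i1 + (1 + (l.tail.length + i1)) := by
    rw [hw]; simp [irest]; omega
  have hne : w ≠ [] := by rw [hw]; simp
  obtain ⟨p', h3, h4⟩ := hr w.length (fun r i => (ring M).rows w r i) (fun r i => rfl) (i1 + 1)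
    (init_rows M l w i1 i1 hw) (by omega) (by omega)
  rw [abs_le] at h3
  have hp1 : 1 ≤ p' := by omega
  have hp2 : p' ≤ w.length := by omega
  obtain ⟨p, rfl⟩ : ∃ p : ℕ, p' = p := ⟨p'.toNat, by omega⟩
  have hhalt : (ring M).hlt ((ring M).sq w (r * (w.length + 1) + p)) = true := by
    rw [(ring M).sq_eq w r p (by omega)]
    have := h4 p
    rw [this, view_in _ _ _ _ (by omega), if_pos rfl, sub_self]
    show (M c'.q (c'.Tape.nth 0)).isNone = true
    rw [Option.isNone_iff_eq_none]
    obtain ⟨q, T⟩ := c'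
    have h5 : (M q T.head).map _ = none := h2
    rw [Option.map_eq_none_iff] at h5
    rw [← h5]
    show M q (T.nth 0) = _
    rw [Tape.nth_zero]
  obtain ⟨s, xs, ys, h5, h6, h7⟩ := (ring M).success_of_halt (fun _ _ => rfl) rfl w hne _ hhalt
  refine ⟨w, s, xs, ys, by omega, ⟨i1, i1, hw⟩, h5, h6, ?_⟩
  have hb : 2 ≤ (ring M).b := (ring M).one_lt_b
  have h8 : 2 ^ w.length ≤ (ring M).b ^ w.length := Nat.pow_le_pow_left hb _
  have h9 := pow_bound w.length (by omega)
  have h10 : r * (w.length + 1) ≤ w.length * (w.length + 1) := Nat.mul_le_mul_right _ (by omega)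
  have h11 : w.length * (w.length + 1) = w.length * w.length + w.length := by ring
  have h12 : p ≤ w.length := by omega
  omega

end ring

end TMsim

end Pool.Agent.AbPow
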