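import Pool.Agent.MP_e5f80e_lc.Skeleton

/-!
The coded words `C M = 0 A_0 1 A_1 1 ... A_{M-1} 1` with `A_n = X_n Z_n^{k-1} Z'_n`, and the analysis
of their abelian `k`-th powers.
-/

set_option autoImplicit false

namespace Pool.Agent.AbPow

/-- the weight of a coded letter: code `3` is the heavy letter, all other codes are light -/
def wc (c : ℕ) : ℕ := if c = 3 then 2 else 1

/-- window of length `l` starting at position `a` -/
def win (w : List ℕ) (a l : ℕ) : List ℕ := (w.drop a).take l

theorem win_length (w : List ℕ) (a l : ℕ) (h : a + l ≤ w.length) : (win w a l).length = l := by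
  simp [win]; omega

theorem mem_win {w : List ℕ} {a l x : ℕ} (h : x ∈ win w a l) :
    ∃ y, a ≤ y ∧ y < a + l ∧ w[y]? = some x := by
  rw [win, List.mem_iff_getElem?] at h
  obtain ⟨t, ht⟩ := h
  rw [List.getElem?_take] at ht
  split_ifs at ht with h1
  rw [List.getElem?_drop] at ht
  exact ⟨a + t, by omega, by omega, ht⟩

theorem mem_win_of {w : List ℕ} {a l x y : ℕ} (h1 : a ≤ y) (h2 : y < a + l)
    (h : w[y]? = some x) : x ∈ win w a l := by
  rw [win, List.mem_iff_getElem?]
  refine ⟨y - a, ?_⟩
  rw [List.getElem?_take, if_pos (by omega), List.getElem?_drop]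
  rw [show a + (y - a) = y by omega]; exact h

/-- A system of pair symbols: morphism `H`, the two codings `tx`, `tz`, weights `wt`. -/
structure PSys (S : Type*) (m : ℕ) where
  /-- letter images -/
  H : S → List S
  /-- coding of the first copy -/
  tx : S → ℕ
  /-- coding of the second copy -/
  tz : S → ℕ
  /-- weights -/
  wt : S → ℕ
  /-- the closed set of symbols in use -/
  R : S → Prop
  /-- the initial light symbol -/
  p0 : S
  /-- the initial heavy symbol -/
  zp : S
  /-- the common first symbol -/
  s0 : S
  closed : ∀ x, R x → ∀ y ∈ H x, R y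
  wt_H : ∀ x, R x → (H x).map wt = gs m (wt x)
  wt12 : ∀ x, R x → wt x = 1 ∨ wt x = 2
  wtx : ∀ x, R x → wc (tx x) = wt x
  wtz : ∀ x, R x → wc (tz x) = wt x
  tx_ge : ∀ x, R x → 2 ≤ tx x
  tz_ge : ∀ x, R x → 2 ≤ tz x
  R_p0 : R p0
  R_zp : R zp
  wt_p0 : wt p0 = 1
  wt_zp : wt zp = 2
  H_p0 : ∃ r, H p0 = s0 :: r
  H_zp : ∃ r, H zp = s0 :: r

namespace PSys

variable {S : Type*} {m : ℕ} (P : PSys S m) (k : ℕ)

/-- the block for level `n` (coded) -/
def A (n : ℕ) : List ℕ :=
  (It P.H n [P.p0]).map P.tx ++ ((List.replicate (k - 1) ((It P.H n [P.p0]).map P.tz)).flatten ++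
    (It P.H n [P.zp]).map P.tz)

/-- coded prefixes of the infinite word -/
def C : ℕ → List ℕ
  | 0 => [0]
  | M + 1 => C M ++ (P.A k M ++ [1])

theorem mem_A {n x : ℕ} (h : x ∈ P.A k n) : 2 ≤ x := by
  have h0 : ∀ y ∈ It P.H n [P.p0], P.R y :=
    It_closed P.H P.R P.closed n _ (by simpa using P.R_p0)
  have h1 : ∀ y ∈ It P.H n [P.zp], P.R y :=
    It_closed P.H P.R P.closed n _ (by simpa using P.R_zp)
  simp only [A, List.mem_append, List.mem_map, List.mem_flatten, List.mem_replicate] at h
  rcases h with ⟨y, hy, rfl⟩ | ⟨l, ⟨_, rfl⟩, hx⟩ | ⟨y, hy, rfl⟩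
  · exact P.tx_ge _ (h0 _ hy)
  · rw [List.mem_map] at hx
    obtain ⟨y, hy, rfl⟩ := hx
    exact P.tz_ge _ (h0 _ hy)
  · exact P.tz_ge _ (h1 _ hy)

theorem map_wt_It (n : ℕ) (w : List S) (hw : ∀ x ∈ w, P.R x) :
    (It P.H n w).map P.wt = It (gs m) n (w.map P.wt) := by
  rw [It_map P.H (gs m) P.wt P.R P.closed (fun x hx => (P.wt_H x hx).symm) n w hw]

theorem map_wc_tx (w : List S) (hw : ∀ x ∈ w, P.R x) : (w.map P.tx).map wc = w.map P.wt := by
  rw [List.map_map]
  apply List.map_congr_left
  intro x hx
  exact P.wtx x (hw x hx)

theorem map_wc_tz (w : List S) (hw : ∀ x ∈ w, P.R x) : (w.map P.tz).map wc = w.map P.wt := by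
  rw [List.map_map]
  apply List.map_congr_left
  intro x hx
  exact P.wtz x (hw x hx)

theorem map_wc_A (hk : 1 ≤ k) (n : ℕ) :
    (P.A k n).map wc = It (gs m) n (List.replicate k 1 ++ [2]) := by
  have h0 : ∀ y ∈ It P.H n [P.p0], P.R y :=
    It_closed P.H P.R P.closed n _ (by simpa using P.R_p0)
  have h1 : ∀ y ∈ It P.H n [P.zp], P.R y :=
    It_closed P.H P.R P.closed n _ (by simpa using P.R_zp)
  obtain ⟨k', rfl⟩ : ∃ k', k = k' + 1 := ⟨k - 1, by omega⟩
  have e0 : (It P.H n [P.p0]).map P.wt = It (gs m) n [1] := by
    rw [map_wt_It P n _ (by simpa using P.R_p0)]; simp [P.wt_p0]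
  have e1 : (It P.H n [P.zp]).map P.wt = It (gs m) n [2] := by
    rw [map_wt_It P n _ (by simpa using P.R_zp)]; simp [P.wt_zp]
  rw [A, List.map_append, List.map_append, map_wc_tx P _ h0, map_wc_tz P _ h1, List.map_flatten,
    List.map_replicate, map_wc_tz P _ h0, e0, e1, Nat.add_sub_cancel, List.replicate_succ,
    List.cons_append, It_cons (gs m) n 1 (List.replicate k' 1 ++ [2]), It_append, It_replicate]

theorem len_A_succ (hm : 7 ≤ m) (hk : 1 ≤ k) (n : ℕ) :
    5 * (P.A k n).length ≤ (P.A k (n + 1)).length := by
  have h1 := congrArg List.length (P.map_wc_A k hk n)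
  have h2 := congrArg List.length (P.map_wc_A k hk (n + 1))
  rw [List.length_map] at h1 h2
  rw [h1, h2]
  apply It_length_ge (gs m) (fun x => x = 1 ∨ x = 2) (fun x _ => gs_closed m x)
  · intro x hx
    have := gs_length m hm x hx
    rcases hx with rfl | rfl <;> omega
  · intro x hx; simp at hx; rcases hx with h | h
    · left; exact h.2
    · right; exact h

theorem len_A_zero (hk : 1 ≤ k) : (P.A k 0).length = k + 1 := by
  have h1 := congrArg List.length (P.map_wc_A k hk 0)
  rw [List.length_map] at h1
  rw [h1]; simp

theorem len_A_ge (hm : 7 ≤ m) (hk : 1 ≤ k) (n : ℕ) : n + 2 ≤ (P.A k n).length := by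
  induction n with
  | zero => rw [len_A_zero P k hk]; omega
  | succ n ih =>
    have := P.len_A_succ k hm hk n
    omega

theorem len_C (hm : 7 ≤ m) (hk : 1 ≤ k) (M : ℕ) :
    2 * (P.C k M).length ≤ (P.A k M).length + 3 := by
  induction M with
  | zero => rw [len_A_zero P k hk]; simp [C]
  | succ M ih =>
    have h1 := P.len_A_succ k hm hk M
    have h2 := P.len_A_ge k hm hk M
    simp only [C, List.length_append, List.length_singleton]
    omega

theorem C_length_gt (M : ℕ) : M < (P.C k M).length := by
  induction M with
  | zero => simp [C]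
  | succ M ih => simp only [C, List.length_append, List.length_singleton]; omega

theorem C_mono {M N : ℕ} (h : M ≤ N) : P.C k M <+: P.C k N := by
  induction N with
  | zero => obtain rfl : M = 0 := by omega
            exact List.prefix_rfl
  | succ N ih =>
    rcases Nat.lt_or_ge M (N + 1) with h1 | h1
    · exact (ih (by omega)).trans (List.prefix_append _ _)
    · obtain rfl : M = N + 1 := by omega
      exact List.prefix_rfl

theorem C_ends (M : ℕ) : (P.C k (M + 1))[(P.C k (M + 1)).length - 1]? = some 1 := by
  simp only [C, List.length_append, List.length_singleton]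
  rw [List.getElem?_append_right (by omega), List.getElem?_append_right (by omega)]
  rw [show (P.C k M).length + ((P.A k M).length + 1) - 1 - (P.C k M).length - (P.A k M).length = 0
    by omega]
  rfl

theorem C_zero_pos (M y : ℕ) (h : (P.C k M)[y]? = some 0) : y = 0 := by
  induction M generalizing y with
  | zero =>
    by_contra hy
    rw [C, List.getElem?_singleton, if_neg hy] at h
    cases h
  | succ M ih =>
    by_cases hy : y < (P.C k M).length
    · rw [C, List.getElem?_append_left hy] at h
      exact ih y h
    · exfalso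
      rw [C, List.getElem?_append_right (by omega)] at h
      have hmem := List.mem_of_getElem? h
      rw [List.mem_append] at hmem
      rcases hmem with h1 | h1
      · have := P.mem_A k h1; omega
      · simp at h1

theorem C_sep (hm : 7 ≤ m) (hk : 1 ≤ k) (M y y' : ℕ) (hyy : y < y')
    (h : (P.C k M)[y]? = some 1) (h' : (P.C k M)[y']? = some 1) : 3 * y ≤ y' := by
  induction M generalizing y y' with
  | zero =>
    rw [C] at h'
    rw [List.getElem?_singleton, if_neg (by omega)] at h'
    cases h'
  | succ M ih =>
    by_cases hy' : y' < (P.C k M).length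
    · rw [C, List.getElem?_append_left (by omega)] at h
      rw [C, List.getElem?_append_left hy'] at h'
      exact ih y y' hyy h h'
    · -- y' is the last position
      have aux : ∀ z, (P.C k M).length ≤ z → (P.C k (M + 1))[z]? = some 1 →
          z = (P.C k M).length + (P.A k M).length := by
        intro z hz h1
        rw [C, List.getElem?_append_right hz] at h1
        by_cases hz2 : z - (P.C k M).length < (P.A k M).length
        · rw [List.getElem?_append_left hz2] at h1
          have := P.mem_A k (List.mem_of_getElem? h1)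
          omega
        · rw [List.getElem?_append_right (by omega), List.getElem?_singleton] at h1
          split_ifs at h1 with h2
          omega
      have e' := aux y' (by omega) h'
      have hy : y < (P.C k M).length := by
        by_contra hne
        have := aux y (by omega) h
        omega
      have := P.len_C k hm hk M
      omega

theorem locate (M i L : ℕ) (hi : 1 ≤ i) (hL : 1 ≤ L) (hlen : i + L ≤ (P.C k M).length)
    (hno : ∀ y, i ≤ y → y < i + L → (P.C k M)[y]? ≠ some 1) :
    ∃ n o, n < M ∧ i = (P.C k n).length + o ∧ o + L ≤ (P.A k n).length := by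
  induction M with
  | zero => simp [C] at hlen; omega
  | succ M ih =>
    by_cases h1 : i + L ≤ (P.C k M).length
    · obtain ⟨n, o, g1, g2, g3⟩ := ih h1 (by
        intro y hy hy2 hc
        apply hno y hy hy2
        rw [C, List.getElem?_append_left (by omega)]
        exact hc)
      exact ⟨n, o, by omega, g2, g3⟩
    · by_cases h2 : (P.C k M).length ≤ i
      · refine ⟨M, i - (P.C k M).length, by omega, by omega, ?_⟩
        by_contra h3
        have hends := P.C_ends k M
        apply hno _ _ _ hends
        · have hl : (P.C k (M + 1)).length = (P.C k M).length + ((P.A k M).length + 1) := by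
            simp [C]
          omega
        · have hl : (P.C k (M + 1)).length = (P.C k M).length + ((P.A k M).length + 1) := by
            simp [C]
          omega
      · exfalso
        rcases M with _ | M
        · simp [C] at h2; omega
        · have hends := P.C_ends k M
          have hpos := P.C_length_gt k (M + 1)
          apply hno ((P.C k (M + 1)).length - 1) (by omega) (by omega)
          rw [C, List.getElem?_append_left (by omega)]
          exact hends

/-- windows of `C M` inside the block `A n` -/
theorem win_C (n M a l : ℕ) (hn : n < M) (hal : a + l ≤ (P.A k n).length) :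
    win (P.C k M) ((P.C k n).length + a) l = win (P.A k n) a l := by
  obtain ⟨t, ht⟩ := P.C_mono k (show n + 1 ≤ M by omega)
  rw [← ht, C, win, win, List.append_assoc, ← List.drop_drop, List.drop_left, List.append_assoc]
  rw [List.drop_append_of_le_length (by omega), List.take_append_of_le_length]
  simp; omega

theorem A_len_ge_pos (n : ℕ) : 1 ≤ n ∨ n = 0 := by omega

theorem It_p0_len (n : ℕ) : (It P.H n [P.p0]).length = (It (gs m) n [1]).length := by
  have e0 : (It P.H n [P.p0]).map P.wt = It (gs m) n [1] := by
    rw [map_wt_It P n _ (by simpa using P.R_p0)]; simp [P.wt_p0]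
  rw [← e0, List.length_map]

/-- Forward direction: an abelian power yields a suffix solution. -/
theorem forward (hm : 7 ≤ m) (hp : m.Prime) (hk : m ≤ k + 1) (M i l : ℕ) (hl : 1 ≤ l)
    (hlen : i + k * l ≤ (P.C k M).length)
    (hperm : ∀ j < k, (win (P.C k M) (i + j * l) l).Perm (win (P.C k M) i l)) :
    ∃ n o, o < (It P.H n [P.p0]).length ∧
      (((It P.H n [P.p0]).drop o).map P.tx).Perm (((It P.H n [P.p0]).drop o).map P.tz) := by
  have hk3 : 3 ≤ k := by omega
  have hk1 : 1 ≤ k := by omega
  -- no separator in any window
  have hno1 : ∀ j < k, 1 ∉ win (P.C k M) (i + j * l) l := by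
    intro j hj hmem
    have h0 : 1 ∈ win (P.C k M) i l := (hperm j hj).subset hmem
    have h1 : 1 ∈ win (P.C k M) (i + 1 * l) l := (hperm 1 (by omega)).symm.subset h0
    have h2 : 1 ∈ win (P.C k M) (i + 2 * l) l := (hperm 2 (by omega)).symm.subset h0
    obtain ⟨y1, a1, b1, c1⟩ := mem_win h1
    obtain ⟨y2, a2, b2, c2⟩ := mem_win h2
    have := P.C_sep k hm hk1 M y1 y2 (by omega) c1 c2
    omega
  have hi : 1 ≤ i := by
    by_contra hi
    obtain rfl : i = 0 := by omega
    have h0 : (0 : ℕ) ∈ win (P.C k M) 0 l := by
      apply mem_win_of (y := 0) (by omega) (by omega)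
      obtain ⟨t, ht⟩ := P.C_mono k (show 0 ≤ M by omega)
      rw [← ht]; rfl
    have h1 : (0 : ℕ) ∈ win (P.C k M) (0 + 1 * l) l := (hperm 1 (by omega)).symm.subset h0
    obtain ⟨y1, a1, b1, c1⟩ := mem_win h1
    have := P.C_zero_pos k M y1 c1
    omega
  have hkl : 1 ≤ k * l := Nat.mul_pos hk1 hl
  obtain ⟨n, o, hn, hio, hoL⟩ := P.locate k M i (k * l) hi hkl hlen (by
    intro y hy1 hy2 hc
    -- y lies in some window
    have hjl : (y - i) / l < k := by
      rw [Nat.div_lt_iff_lt_mul (by omega)]; omega
    apply hno1 ((y - i) / l) hjl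
    have e := Nat.div_add_mod (y - i) l
    have e2 := Nat.mod_lt (y - i) (show 0 < l by omega)
    rw [mul_comm] at e
    apply mem_win_of (y := y) (by omega) (by omega) hc)
  -- windows in A n
  have hjk : ∀ j < k, j * l + l ≤ k * l := by
    intro j hj
    have : (j + 1) * l ≤ k * l := Nat.mul_le_mul_right l hj
    rw [add_mul, one_mul] at this
    exact this
  have hpermA : ∀ j < k, (win (P.A k n) (o + j * l) l).Perm (win (P.A k n) o l) := by
    intro j hj
    have h1 := hperm j hj
    have hj' := hjk j hj
    have hj0 := hjk 0 (by omega)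
    rw [hio, add_assoc, P.win_C k n M (o + j * l) l hn (by omega),
      P.win_C k n M o l hn (by omega)] at h1
    exact h1
  -- sums
  set B := It (gs m) n (List.replicate k 1 ++ [2]) with hB
  have hBA : (P.A k n).map wc = B := P.map_wc_A k hk1 n
  have hBlen : B.length = (P.A k n).length := by rw [← hBA, List.length_map]
  have hwinB : ∀ a, win B a l = (win (P.A k n) a l).map wc := by
    intro a
    rw [← hBA, win, win, List.map_take, List.map_drop]
  set D := (win B o l).sum with hD
  have hwinsum : ∀ j < k, (win B (o + j * l) l).sum = D := by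
    intro j hj
    rw [hD, hwinB, hwinB]
    exact ((hpermA j hj).map wc).sum_eq
  have hAP : ∀ j ≤ k, (B.take (o + j * l)).sum = (B.take o).sum + j * D := by
    intro j hj
    induction j with
    | zero => simp
    | succ j ih =>
      have h1 := ih (by omega)
      have h2 := hwinsum j (by omega)
      rw [show o + (j + 1) * l = (o + j * l) + l by ring, List.take_add, List.sum_append, h1]
      rw [win] at h2
      rw [h2]; ring
  obtain ⟨e1, e2, e3⟩ := skeleton m hm hp k hk n o l D hl (by rw [← hB, hBlen]; exact hoL) hAP
  rw [← It_p0_len P] at e1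
  refine ⟨n, o, by omega, ?_⟩
  -- compare windows 0 and 1
  have hp1 := hpermA 1 (by omega)
  obtain ⟨k', rfl⟩ : ∃ k', k = k' + 3 := ⟨k - 3, by omega⟩
  set X := (It P.H n [P.p0]).map P.tx with hX
  set Z := (It P.H n [P.p0]).map P.tz with hZ
  set Z' := (It P.H n [P.zp]).map P.tz with hZ'
  have hXl : X.length = l := by rw [hX, List.length_map, ← e1]
  have hZl : Z.length = l := by rw [hZ, List.length_map, ← e1]
  have hA : P.A (k' + 3) n = X ++ (Z ++ (Z ++ ((List.replicate k' Z).flatten ++ Z'))) := by
    rw [A, ← hX, ← hZ, ← hZ', show k' + 3 - 1 = k' + 1 + 1 by omega, List.replicate_succ,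
      List.replicate_succ, List.flatten_cons, List.flatten_cons, List.append_assoc,
      List.append_assoc]
  have w0 : win (P.A (k' + 3) n) o l = X.drop o ++ Z.take o := by
    rw [hA, win, List.drop_append_of_le_length (by omega), List.take_append,
      List.take_of_length_le (by simp; omega), List.length_drop, hXl,
      show l - (l - o) = o by omega, List.take_append_of_le_length (by omega)]
  have w1 : win (P.A (k' + 3) n) (o + 1 * l) l = Z.drop o ++ Z.take o := by
    rw [hA, win, show o + 1 * l = X.length + o by omega, ← List.drop_drop, List.drop_left,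
      List.drop_append_of_le_length (by omega), List.take_append,
      List.take_of_length_le (by simp; omega), List.length_drop, hZl,
      show l - (l - o) = o by omega, List.take_append_of_le_length (by omega)]
  rw [w0, w1] at hp1
  have := (List.perm_append_right_iff _).1 hp1
  rw [List.map_drop, List.map_drop]
  exact this.symm

/-- Backward direction: a suffix solution inside the first slot yields abelian powers. -/
theorem backward (hk : 3 ≤ k) (n o : ℕ) (ho : o < (It P.H n [P.s0]).length)
    (hperm : (((It P.H (n + 1) [P.p0]).drop o).map P.tx).Perm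
      (((It P.H (n + 1) [P.p0]).drop o).map P.tz)) :
    ((P.C k (n + 1)).length + o) + k * (It P.H (n + 1) [P.p0]).length ≤ (P.C k (n + 2)).length ∧
    ∀ j < k, (win (P.C k (n + 2)) (((P.C k (n + 1)).length + o) +
        j * (It P.H (n + 1) [P.p0]).length) (It P.H (n + 1) [P.p0]).length).Perm
      (win (P.C k (n + 2)) ((P.C k (n + 1)).length + o) (It P.H (n + 1) [P.p0]).length) := by
  obtain ⟨r1, hr1⟩ := P.H_p0
  obtain ⟨r2, hr2⟩ := P.H_zp
  set l := (It P.H (n + 1) [P.p0]).length with hl
  set X := (It P.H (n + 1) [P.p0]).map P.tx with hX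
  set Z := (It P.H (n + 1) [P.p0]).map P.tz with hZ
  set Z' := (It P.H (n + 1) [P.zp]).map P.tz with hZ'
  have hXl : X.length = l := by rw [hX, List.length_map]
  have hZl : Z.length = l := by rw [hZ, List.length_map]
  have hol : o < l := by
    rw [hl, It_single_succ, hr1, It_cons, List.length_append]; omega
  have hZ'o : Z'.take o = Z.take o := by
    rw [hZ', hZ, It_single_succ, It_single_succ, hr1, hr2, It_cons, It_cons P.H n P.s0 r1,
      List.map_append, List.map_append, List.take_append_of_le_length (by simp; omega),
      List.take_append_of_le_length (by simp; omega)]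
  have hZ'l : o ≤ Z'.length := by
    rw [hZ', List.length_map, It_single_succ, hr2, It_cons, List.length_append]; omega
  obtain ⟨k', rfl⟩ : ∃ k', k = k' + 1 := ⟨k - 1, by omega⟩
  have hA : P.A (k' + 1) (n + 1) = X ++ ((List.replicate k' Z).flatten ++ Z') := by
    rw [A, ← hX, ← hZ, ← hZ', Nat.add_sub_cancel]
  have hAl : (P.A (k' + 1) (n + 1)).length = (k' + 1) * l + Z'.length := by
    rw [hA, List.length_append, List.length_append, List.length_flatten, List.map_replicate,
      List.sum_replicate, hXl, hZl]
    simp; ring
  have hjk : ∀ j < k' + 1, j * l + l ≤ (k' + 1) * l := by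
    intro j hj
    have : (j + 1) * l ≤ (k' + 1) * l := Nat.mul_le_mul_right l hj
    rw [add_mul, one_mul] at this
    exact this
  constructor
  · have : (P.C (k' + 1) (n + 2)).length =
        (P.C (k' + 1) (n + 1)).length + ((P.A (k' + 1) (n + 1)).length + 1) := by
      rw [C]; simp
    rw [this, hAl]; omega
  -- every window is a permutation of `Z.drop o ++ Z.take o`
  have hflat : ∀ c j, j < c → ((List.replicate c Z).flatten ++ Z').drop (j * l + o) =
      Z.drop o ++ ((List.replicate (c - 1 - j) Z).flatten ++ Z') := by
    intro c j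
    induction j generalizing c with
    | zero =>
      intro hc
      obtain ⟨c', rfl⟩ : ∃ c', c = c' + 1 := ⟨c - 1, by omega⟩
      rw [List.replicate_succ, List.flatten_cons, List.append_assoc, zero_mul, zero_add,
        List.drop_append_of_le_length (by omega)]
      simp
    | succ j ih =>
      intro hc
      obtain ⟨c', rfl⟩ : ∃ c', c = c' + 1 := ⟨c - 1, by omega⟩
      rw [List.replicate_succ, List.flatten_cons, List.append_assoc,
        show (j + 1) * l + o = Z.length + (j * l + o) by rw [hZl]; ring, ← List.drop_drop,
        List.drop_left, ih c' (by omega)]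
      congr 3
      congr 1
      omega
  have hnext : ∀ c, ((List.replicate c Z).flatten ++ Z').take o = Z.take o := by
    intro c
    rcases c with _ | c
    · simpa using hZ'o
    · rw [List.replicate_succ, List.flatten_cons, List.append_assoc,
        List.take_append_of_le_length (by omega)]
  have hwinZ : ∀ j, 1 ≤ j → j < k' + 1 → win (P.A (k' + 1) (n + 1)) (o + j * l) l =
      Z.drop o ++ Z.take o := by
    intro j hj1 hj2
    obtain ⟨j', rfl⟩ : ∃ j', j = j' + 1 := ⟨j - 1, by omega⟩
    rw [hA, win, show o + (j' + 1) * l = X.length + (j' * l + o) by rw [hXl]; ring,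
      ← List.drop_drop, List.drop_left, hflat k' j' (by omega), List.take_append,
      List.take_of_length_le (by simp; omega), List.length_drop, hZl,
      show l - (l - o) = o by omega, hnext]
  have hwin0 : win (P.A (k' + 1) (n + 1)) o l = X.drop o ++ Z.take o := by
    rw [hA, win, List.drop_append_of_le_length (by omega), List.take_append,
      List.take_of_length_le (by simp; omega), List.length_drop, hXl,
      show l - (l - o) = o by omega, hnext]
  have hXZ : (X.drop o).Perm (Z.drop o) := by
    rw [hX, hZ, ← List.map_drop, ← List.map_drop]; exact hperm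
  intro j hj
  rw [add_assoc, P.win_C (k' + 1) (n + 1) (n + 2) _ _ (by omega) (by
      rw [hAl]; have := hjk j hj; omega),
    P.win_C (k' + 1) (n + 1) (n + 2) _ _ (by omega) (by
      rw [hAl]; have := hjk 0 (by omega); omega)]
  rcases Nat.eq_zero_or_pos j with rfl | hj0
  · simp
  · rw [hwinZ j hj0 hj, hwin0]
    exact (List.Perm.append_right _ hXZ).symm

theorem It_p0_len_gt (hm : 7 ≤ m) (n : ℕ) : n < (It P.H n [P.p0]).length := by
  rw [It_p0_len]
  induction n with
  | zero => simp
  | succ n ih =>
    have := It_length_ge (gs m) (fun x => x = 1 ∨ x = 2) (fun x _ => gs_closed m x) 5 (by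
      intro x hx
      have := gs_length m hm x hx
      rcases hx with rfl | rfl <;> omega) n [1] (by simp)
    omega

end PSys

end Pool.Agent.AbPow
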